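import Mathlib

/-!
# The choice of the parameters
-/

namespace Pool.Agent.H87.CNF

/-- The constant of the theorem. -/
def CC : ℕ := 2097152

theorem exists_params {n m g μ K : ℕ} (hg : 2 ≤ g) (hgn : g ≤ n) (hμ : μ ^ g ≤ 2 ^ n)
    (hK : 2 ^ (CC * n) ≤ K ^ Nat.log 2 g) (hmK : 16384 * m ≤ Nat.size K - 1)
    (hnl : ¬ n ≤ Nat.size K - 1) :
    n < (Nat.size K - 1) / 16 / (Nat.size μ + 1) *
      (n / ((Nat.size K - 1) / 16 / (Nat.size μ + 1)) + 1) ∧
    ∃ q s a h : ℕ, q.Prime ∧ 104 * q ^ 3 ≤ Nat.size K - 1 ∧ 1 ≤ a ∧ 2 ^ (s + a) ≤ q ∧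
      n + a * m ≤ a * q ^ 3 ∧ 4 ≤ h ∧ h ≤ q ∧
      8 * (n / ((Nat.size K - 1) / 16 / (Nat.size μ + 1)) + 1) ≤ h ^ 3 ∧
      432 * q * h ≤ (2 ^ s) ^ 2 := by
  set l := Nat.log 2 g with hl
  have hn0 : 0 < n := by omega
  have hl1 : 1 ≤ l := Nat.log_pos (by norm_num) hg
  have hgl : 2 ^ l ≤ g := Nat.pow_log_le_self 2 (by omega)
  have hKpos : 0 < K := by
    rcases Nat.eq_zero_or_pos K with h | h
    · rw [h, zero_pow (by omega)] at hK
      have : 0 < 2 ^ (CC * n) := pow_pos (by norm_num) _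
      omega
    · exact h
  have hsK : 0 < Nat.size K := Nat.size_pos.mpr hKpos
  obtain ⟨L, hL⟩ : ∃ L, Nat.size K = L + 1 := ⟨Nat.size K - 1, by omega⟩
  have hKlt : K < 2 ^ (L + 1) := by rw [← hL]; exact Nat.lt_size_self K
  have hL' : Nat.size K - 1 = L := by omega
  rw [hL'] at hnl hmK ⊢
  -- (1)
  have h1 : CC * n < (L + 1) * l := by
    have h2 : K ^ l < (2 ^ (L + 1)) ^ l := Nat.pow_lt_pow_left hKlt (by omega)
    rw [← pow_mul] at h2
    exact (Nat.pow_lt_pow_iff_right (by norm_num)).mp (lt_of_le_of_lt hK h2)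
  have hLn : L + 1 ≤ n := by omega
  have hCl : CC < l := by
    have h2 : CC * n < n * l := lt_of_lt_of_le h1 (Nat.mul_le_mul_right _ hLn)
    rw [Nat.mul_comm n l] at h2
    exact Nat.lt_of_mul_lt_mul_right h2
  have hCC : CC = 2097152 := rfl
  rw [hCC] at h1 hCl
  have hlg : l ≤ g := (Nat.lt_two_pow_self.le).trans hgl
  -- (2)
  set S := Nat.size μ + 1 with hS
  have h2 : g * S ≤ 3 * n := by
    have h3 : g * (Nat.size μ - 1) ≤ n := by
      rcases Nat.eq_zero_or_pos μ with h | h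
      · subst h; simp
      · have h4 : 0 < Nat.size μ := Nat.size_pos.mpr h
        have h5 : 2 ^ (Nat.size μ - 1) ≤ μ := Nat.lt_size.mp (by omega)
        have h6 : (2 ^ (Nat.size μ - 1)) ^ g ≤ 2 ^ n := (Nat.pow_le_pow_left h5 g).trans hμ
        rw [← pow_mul] at h6
        have := (Nat.pow_le_pow_iff_right (by norm_num : 1 < 2)).mp h6
        rwa [Nat.mul_comm] at this
    calc g * S ≤ g * ((Nat.size μ - 1) + 2) := Nat.mul_le_mul_left _ (by omega)
      _ = g * (Nat.size μ - 1) + 2 * g := by ring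
      _ ≤ 3 * n := by omega
  -- (3)
  set κ := L / 16 / S with hκ
  have hSpos : 0 < S := by omega
  have h3 : L + 1 ≤ 16 * ((κ + 1) * S) := by
    have := Nat.lt_div_mul_add (a := L / 16) hSpos
    rw [Nat.add_mul, Nat.one_mul]
    rw [← hκ] at this
    omega
  have h4 : 2097152 * g < 48 * ((κ + 1) * l) := by
    have e1 : g * (2097152 * n) < g * ((L + 1) * l) := Nat.mul_lt_mul_of_pos_left h1 (by omega)
    have e2 : g * ((L + 1) * l) ≤ g * ((16 * ((κ + 1) * S)) * l) :=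
      Nat.mul_le_mul_left _ (Nat.mul_le_mul_right _ h3)
    have e3 : g * ((16 * ((κ + 1) * S)) * l) = (g * S) * (16 * ((κ + 1) * l)) := by ring
    have e4 : (g * S) * (16 * ((κ + 1) * l)) ≤ (3 * n) * (16 * ((κ + 1) * l)) :=
      Nat.mul_le_mul_right _ h2
    have e5 : n * (2097152 * g) < n * (48 * ((κ + 1) * l)) := by
      calc n * (2097152 * g) = g * (2097152 * n) := by ring
        _ < (3 * n) * (16 * ((κ + 1) * l)) := lt_of_lt_of_le e1 (e2.trans (e3.le.trans e4))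
        _ = n * (48 * ((κ + 1) * l)) := by ring
    exact Nat.lt_of_mul_lt_mul_left e5
  have h5 : g ≤ κ * l := by
    have : (κ + 1) * l = κ * l + l := by ring
    rw [this] at h4
    omega
  have hκpos : 0 < κ := by
    rcases Nat.eq_zero_or_pos κ with h | h
    · rw [h] at h5; omega
    · exact h
  refine ⟨?_, ?_⟩
  · have := Nat.lt_div_mul_add (a := n) hκpos
    rw [Nat.mul_add, Nat.mul_one, Nat.mul_comm]
    exact this
  -- (4)
  set w := n / κ + 1 with hw
  have h6 : w * g ≤ 2 * n * l := by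
    have e1 : n / κ * κ ≤ n := Nat.div_mul_le_self n κ
    calc w * g = n / κ * g + g := by rw [hw]; ring
      _ ≤ n / κ * (κ * l) + n * 1 := Nat.add_le_add (Nat.mul_le_mul_left _ h5) (by omega)
      _ = (n / κ * κ) * l + n * 1 := by ring
      _ ≤ n * l + n * l := Nat.add_le_add (Nat.mul_le_mul_right _ e1)
          (Nat.mul_le_mul_left _ hl1)
      _ = 2 * n * l := by ring
  -- a
  set a := l / 64 with ha
  have ha1 : 1 ≤ a := by omega
  have ha2 : 64 * a ≤ l := by omega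
  have ha3 : l ≤ 128 * a := by omega
  -- (5)
  set N := n + a * m with hN
  have hex : ∃ Q, N ≤ a * Q ^ 3 := ⟨N, by
    calc N ≤ N ^ 3 := Nat.le_self_pow (by norm_num) N
      _ ≤ a * N ^ 3 := Nat.le_mul_of_pos_left _ ha1⟩
  classical
  set Q := Nat.find hex with hQ
  have hQ1 : N ≤ a * Q ^ 3 := Nat.find_spec hex
  have han : a < n := by
    have : a < 2 ^ a := Nat.lt_two_pow_self
    have h7 : 2 ^ a ≤ 2 ^ l := Nat.pow_le_pow_right (by norm_num) (by omega)
    omega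
  have hQ2 : 2 ≤ Q := by
    by_contra hlt
    have : Q = 0 ∨ Q = 1 := by omega
    rcases this with h | h
    · rw [h] at hQ1; simp at hQ1; omega
    · rw [h] at hQ1; simp at hQ1; omega
  have hQ3 : a * (Q - 1) ^ 3 < N := by
    have := Nat.find_min hex (m := Q - 1) (by omega)
    omega
  have hQ4 : a * Q ^ 3 < 8 * N := by
    have e1 : Q ^ 3 ≤ (2 * (Q - 1)) ^ 3 := Nat.pow_le_pow_left (by omega) 3
    calc a * Q ^ 3 ≤ a * (2 * (Q - 1)) ^ 3 := Nat.mul_le_mul_left _ e1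
      _ = 8 * (a * (Q - 1) ^ 3) := by ring
      _ < 8 * N := by omega
  obtain ⟨q, hqp, hq1, hq2⟩ := Nat.exists_prime_lt_and_le_two_mul Q (by omega)
  have hq3 : a * q ^ 3 ≤ 64 * N := by
    calc a * q ^ 3 ≤ a * (2 * Q) ^ 3 := Nat.mul_le_mul_left _ (Nat.pow_le_pow_left hq2 3)
      _ = 8 * (a * Q ^ 3) := by ring
      _ ≤ 64 * N := by omega
  have hq4' : N ≤ a * q ^ 3 :=
    hQ1.trans (Nat.mul_le_mul_left _ (Nat.pow_le_pow_left hq1.le 3))
  have hq4 : n ≤ a * q ^ 3 := by omega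
  have hq5 : 104 * q ^ 3 ≤ L := by
    have e1 : 2097152 * n < (L + 1) * (128 * a) :=
      lt_of_lt_of_le h1 (Nat.mul_le_mul_left _ ha3)
    have e2 : (L + 1) * (128 * a) = 128 * (a * L) + 128 * a := by ring
    have e4 : 16384 * (a * m) ≤ a * L := by
      calc 16384 * (a * m) = a * (16384 * m) := by ring
        _ ≤ a * L := Nat.mul_le_mul_left _ hmK
    have e3 : a * (104 * q ^ 3) ≤ a * L := by
      calc a * (104 * q ^ 3) = 104 * (a * q ^ 3) := by ring
        _ ≤ 104 * (64 * N) := Nat.mul_le_mul_left _ hq3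
        _ ≤ a * L := by omega
    exact Nat.le_of_mul_le_mul_left e3 ha1
  -- (6)
  have hexh : ∃ h, 4 ≤ h ∧ 8 * w ≤ h ^ 3 := ⟨8 * w + 4, by omega, by
    calc 8 * w ≤ 8 * w + 4 := by omega
      _ ≤ (8 * w + 4) ^ 3 := Nat.le_self_pow (by norm_num) _⟩
  set h := Nat.find hexh with hh
  obtain ⟨hh1, hh2⟩ := Nat.find_spec hexh
  rw [← hh] at hh1 hh2
  have hw1 : 1 ≤ w := Nat.le_add_left _ _
  have hh3 : h ^ 3 ≤ 64 * w := by
    rcases Nat.lt_or_ge 4 h with hlt | hge
    · have h7 := Nat.find_min hexh (m := h - 1) (by omega)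
      have h8 : (h - 1) ^ 3 < 8 * w := by
        by_contra hcon
        exact h7 ⟨by omega, by omega⟩
      calc h ^ 3 ≤ (2 * (h - 1)) ^ 3 := Nat.pow_le_pow_left (by omega) 3
        _ = 8 * (h - 1) ^ 3 := by ring
        _ ≤ 64 * w := by omega
    · have : h = 4 := by omega
      rw [this]
      omega
  -- (7)
  have hexs : ∃ s, 432 * q * h ≤ (2 ^ s) ^ 2 := ⟨432 * q * h, by
    calc 432 * q * h ≤ 2 ^ (432 * q * h) := Nat.lt_two_pow_self.le
      _ ≤ (2 ^ (432 * q * h)) ^ 2 := Nat.le_self_pow (by norm_num) _⟩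
  set s := Nat.find hexs with hs
  have hs1 : 432 * q * h ≤ (2 ^ s) ^ 2 := Nat.find_spec hexs
  have hqpos := hqp.pos
  have hs0 : 0 < s := by
    rcases Nat.eq_zero_or_pos s with h0 | h0
    · rw [h0] at hs1
      have : 0 < q * h := Nat.mul_pos hqpos (by omega)
      have e : 432 * q * h = 432 * (q * h) := by ring
      rw [e] at hs1
      simp at hs1
      omega
    · exact h0
  have hs2 : (2 ^ s) ^ 2 ≤ 1728 * q * h := by
    have h7 := Nat.find_min hexs (m := s - 1) (by omega)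
    have h8 : (2 ^ (s - 1)) ^ 2 < 432 * q * h := by omega
    have h9 : (2 ^ s) ^ 2 = 4 * (2 ^ (s - 1)) ^ 2 := by
      obtain ⟨s', hs'⟩ : ∃ s', s = s' + 1 := ⟨s - 1, by omega⟩
      rw [hs', Nat.add_sub_cancel, pow_succ]
      ring
    have h10 : 1728 * q * h = 4 * (432 * q * h) := by ring
    rw [h9, h10]
    omega
  have key : 1728 * h * 4 ^ a ≤ q := by
    have e1 : (1728 * h * 4 ^ a) ^ 3 ≤ q ^ 3 := by
      have e2 : (a * g) * (1728 * h * 4 ^ a) ^ 3 ≤ (a * g) * q ^ 3 := by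
        have e3 : 1728 ^ 3 * 128 * 64 ^ a * (a * l) ≤ g := by
          have f1 : a * l ≤ 2 ^ a * (128 * 2 ^ a) := Nat.mul_le_mul Nat.lt_two_pow_self.le
            (ha3.trans (Nat.mul_le_mul_left _ Nat.lt_two_pow_self.le))
          calc 1728 ^ 3 * 128 * 64 ^ a * (a * l) ≤
              2 ^ 40 * (2 ^ 6) ^ a * (2 ^ a * (128 * 2 ^ a)) := by
                refine Nat.mul_le_mul (Nat.mul_le_mul (by norm_num) (by norm_num)) f1
            _ = 2 ^ (47 + 8 * a) := by
                rw [← pow_mul, show (128 : ℕ) = 2 ^ 7 by norm_num, ← pow_add, ← pow_add,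
                  ← pow_add, ← pow_add]
                congr 1
                ring
            _ ≤ 2 ^ l := Nat.pow_le_pow_right (by norm_num) (by omega)
            _ ≤ g := hgl
        calc (a * g) * (1728 * h * 4 ^ a) ^ 3 =
            1728 ^ 3 * (4 ^ a) ^ 3 * a * g * h ^ 3 := by ring
          _ ≤ 1728 ^ 3 * (4 ^ a) ^ 3 * a * g * (64 * w) := Nat.mul_le_mul_left _ hh3
          _ = 1728 ^ 3 * 64 * (4 ^ a) ^ 3 * a * (w * g) := by ring
          _ ≤ 1728 ^ 3 * 64 * (4 ^ a) ^ 3 * a * (2 * n * l) := Nat.mul_le_mul_left _ h6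
          _ = (1728 ^ 3 * 128 * 64 ^ a * (a * l)) * n := by
              rw [← pow_mul, Nat.mul_comm a 3, pow_mul]
              norm_num
              ring
          _ ≤ g * n := Nat.mul_le_mul_right _ e3
          _ ≤ g * (a * q ^ 3) := Nat.mul_le_mul_left _ hq4
          _ = (a * g) * q ^ 3 := by ring
      exact Nat.le_of_mul_le_mul_left e2 (Nat.mul_pos ha1 (by omega))
    exact (Nat.pow_le_pow_iff_left (by norm_num)).mp e1
  have hhq : h ≤ q := by
    refine le_trans ?_ key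
    calc h = 1 * h * 1 := by ring
      _ ≤ 1728 * h * 4 ^ a := Nat.mul_le_mul (Nat.mul_le_mul_right _ (by norm_num))
          (Nat.one_le_pow _ _ (by norm_num))
  refine ⟨q, s, a, h, hqp, hq5, ha1, ?_, hq4', hh1, hhq, hh2, hs1⟩
  have e1 : (2 ^ (s + a)) ^ 2 ≤ q ^ 2 := by
    calc (2 ^ (s + a)) ^ 2 = (2 ^ s) ^ 2 * 4 ^ a := by
          rw [pow_add, mul_pow, ← pow_mul 2 a 2, Nat.mul_comm a 2, pow_mul 2 2 a]
          norm_num
      _ ≤ 1728 * q * h * 4 ^ a := Nat.mul_le_mul_right _ hs2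
      _ = q * (1728 * h * 4 ^ a) := by ring
      _ ≤ q * q := Nat.mul_le_mul_left _ key
      _ = q ^ 2 := by ring
  exact (Nat.pow_le_pow_iff_left (by norm_num)).mp e1

end Pool.Agent.H87.CNF
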