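import Pool.Agent.H87.CNF.Sem

/-!
# Arrays of variables

The variable number `i m + t` is in row `i < k` and column `t < m`. The rows are put into groups
of `a` rows, and the variables of a group and a column are put together.
-/

namespace Pool.Agent.H87.CNF

open Pool.Agent.PPS Pool.Agent.H87.PMCSP H87.HC

/-- new number of the variable `v` -/
def rx (k m a v : ℕ) : ℕ :=
  bif decide (v < k * m) then (v / m / a * m + v % m) * a + v / m % a
  else (k / a + 1) * m * a + (v - k * m)

/-- inverse of `rx` -/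
def ry (k m a z : ℕ) : ℕ :=
  if z < (k / a + 1) * m * a then ((z / a / m) * a + z % a) * m + z / a % m
  else k * m + (z - (k / a + 1) * m * a)

theorem rx_row {k m a i t : ℕ} (hi : i < k) (ht : t < m) :
    rx k m a (i * m + t) = (i / a * m + t) * a + i % a := by
  have hm : 0 < m := by omega
  have h1 : i * m + t < k * m := by
    calc i * m + t < i * m + m := by omega
      _ = (i + 1) * m := by ring
      _ ≤ k * m := Nat.mul_le_mul_right _ hi
  have h2 : (i * m + t) / m = i := by
    rw [Nat.mul_comm, Nat.mul_add_div hm, Nat.div_eq_of_lt ht, Nat.add_zero]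
  have h3 : (i * m + t) % m = t := by
    rw [Nat.mul_comm, Nat.mul_add_mod, Nat.mod_eq_of_lt ht]
  unfold rx
  rw [decide_eq_true h1, cond_true, h2, h3]

theorem rx_row_bound {k m a i t : ℕ} (ha : 0 < a) (hi : i < k) (ht : t < m) :
    (i / a * m + t) * a + i % a < (k / a + 1) * m * a := by
  have h1 : i / a ≤ k / a := Nat.div_le_div_right hi.le
  have h2 : i % a < a := Nat.mod_lt _ ha
  calc (i / a * m + t) * a + i % a < (i / a * m + t) * a + a := by omega
    _ = (i / a * m + t + 1) * a := by ring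
    _ ≤ ((k / a + 1) * m) * a := by
        apply Nat.mul_le_mul_right
        calc i / a * m + t + 1 ≤ i / a * m + m := by omega
          _ = (i / a + 1) * m := by ring
          _ ≤ (k / a + 1) * m := Nat.mul_le_mul_right _ (by omega)

theorem ry_rx {k m a : ℕ} (hm : 0 < m) (ha : 0 < a) (v : ℕ) : ry k m a (rx k m a v) = v := by
  by_cases h : v < k * m
  · have hi : v / m < k := (Nat.div_lt_iff_lt_mul hm).mpr h
    have ht : v % m < m := Nat.mod_lt _ hm
    have hv : v = v / m * m + v % m := (Nat.div_add_mod' v m).symm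
    have h1 : rx k m a v = (v / m / a * m + v % m) * a + v / m % a := by
      unfold rx
      rw [decide_eq_true h, cond_true]
    have h2 := rx_row_bound ha hi ht
    have ha2 : v / m % a < a := Nat.mod_lt _ ha
    have e1 : ((v / m / a * m + v % m) * a + v / m % a) / a = v / m / a * m + v % m := by
      rw [Nat.mul_comm, Nat.mul_add_div ha, Nat.div_eq_of_lt ha2, Nat.add_zero]
    have e2 : ((v / m / a * m + v % m) * a + v / m % a) % a = v / m % a := by
      rw [Nat.mul_comm, Nat.mul_add_mod, Nat.mod_eq_of_lt ha2]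
    have e3 : (v / m / a * m + v % m) / m = v / m / a := by
      rw [Nat.mul_comm, Nat.mul_add_div hm, Nat.div_eq_of_lt ht, Nat.add_zero]
    have e4 : (v / m / a * m + v % m) % m = v % m := by
      rw [Nat.mul_comm, Nat.mul_add_mod, Nat.mod_eq_of_lt ht]
    rw [h1]
    unfold ry
    rw [if_pos h2, e1, e2, e3, e4, Nat.div_add_mod', ← hv]
  · have h1 : rx k m a v = (k / a + 1) * m * a + (v - k * m) := by
      unfold rx
      rw [decide_eq_false h, cond_false]
    rw [h1]
    unfold ry
    rw [if_neg (by omega)]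
    omega

theorem rx_lt {k m a n v : ℕ} (hm : 0 < m) (ha : 0 < a) (hkm : k * m ≤ n) (hv : v < n) :
    rx k m a v < (k / a + 1) * m * a + (n - k * m) := by
  by_cases h : v < k * m
  · have hi : v / m < k := (Nat.div_lt_iff_lt_mul hm).mpr h
    have ht : v % m < m := Nat.mod_lt _ hm
    have h1 : rx k m a v = (v / m / a * m + v % m) * a + v / m % a := by
      unfold rx
      rw [decide_eq_true h, cond_true]
    have h2 := rx_row_bound ha hi ht
    rw [h1]
    omega
  · have h1 : rx k m a v = (k / a + 1) * m * a + (v - k * m) := by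
      unfold rx
      rw [decide_eq_false h, cond_false]
    rw [h1]
    omega

/-- renumber the variables of a clause -/
def rixC (k m a : ℕ) (C : List Lit) : List Lit := C.map fun l => (rx k m a l.1, l.2)

/-- renumber the variables -/
def rix (k m a : ℕ) (F : List (List Lit)) : List (List Lit) := F.map fun C => rixC k m a C

theorem satL_rix {k m a : ℕ} {F : List (List Lit)} {x : ℕ → Bool} :
    SatL x (rix k m a F) ↔ SatL (fun v => x (rx k m a v)) F := by
  unfold SatL rix rixC
  constructor
  · intro h C hC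
    obtain ⟨l, hl, hlx⟩ := h _ (List.mem_map.mpr ⟨C, hC, rfl⟩)
    obtain ⟨l', hl', rfl⟩ := List.mem_map.mp hl
    exact ⟨l', hl', hlx⟩
  · intro h C hC
    obtain ⟨C', hC', rfl⟩ := List.mem_map.mp hC
    obtain ⟨l, hl, hlx⟩ := h C' hC'
    exact ⟨_, List.mem_map.mpr ⟨l, hl, rfl⟩, hlx⟩

theorem satL_rix' {k m a : ℕ} (hm : 0 < m) (ha : 0 < a) {F : List (List Lit)}
    {x : ℕ → Bool} (h : SatL x F) : SatL (fun z => x (ry k m a z)) (rix k m a F) := by
  rw [satL_rix]
  simp only [ry_rx hm ha]
  exact h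

theorem rix_lt {k m a n B : ℕ} (hm : 0 < m) (ha : 0 < a) (hkm : k * m ≤ n)
    (hB : (k / a + 1) * m * a + (n - k * m) ≤ B) {F : List (List Lit)}
    (hF : ∀ C ∈ F, ∀ l ∈ C, l.1 < n) : ∀ C ∈ rix k m a F, ∀ l ∈ C, l.1 < B := by
  intro C hC l hl
  unfold rix at hC
  obtain ⟨C', hC', rfl⟩ := List.mem_map.mp hC
  unfold rixC at hl
  obtain ⟨l', hl', rfl⟩ := List.mem_map.mp hl
  exact lt_of_lt_of_le (rx_lt hm ha hkm (hF C' hC' l' hl')) hB

theorem rix_width {k m a w : ℕ} {F : List (List Lit)} (hF : ∀ C ∈ F, C.length ≤ w) :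
    ∀ C ∈ rix k m a F, C.length ≤ w := by
  intro C hC
  unfold rix at hC
  obtain ⟨C', hC', rfl⟩ := List.mem_map.mp hC
  unfold rixC
  rw [List.length_map]
  exact hF C' hC'

/-! ### Forbidden pairs -/

/-- The clause that says that not both the row `i` is `u` and the row `j` is `v`. -/
def nog (m i j : ℕ) (u v : List Bool) : List Lit :=
  (List.range m).flatMap fun t => [(i * m + t, !(bitAt u t)), (j * m + t, !(bitAt v t))]

theorem mem_nog {m i j : ℕ} {u v : List Bool} {l : Lit} : l ∈ nog m i j u v ↔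
    ∃ t < m, l = (i * m + t, !(bitAt u t)) ∨ l = (j * m + t, !(bitAt v t)) := by
  unfold nog
  simp only [List.mem_flatMap, List.mem_range, List.mem_cons, List.not_mem_nil, or_false]

theorem GB_nog {k m a i j : ℕ} {u v : List Bool} (ha : 0 < a) (hi : i < k)
    (hj : j < k) {U : List (List Bool)} {pos val : ℕ} (hm : 0 < m) :
    GB a U (rixC k m a (nog m i j u v)) pos val = true ↔
      (pos / m = i / a ∧ bitAt (U.getD val []) (i % a) = !(bitAt u (pos % m))) ∨
      (pos / m = j / a ∧ bitAt (U.getD val []) (j % a) = !(bitAt v (pos % m))) := by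
  have hdm : ∀ e t, t < m → (e * m + t) / m = e ∧ (e * m + t) % m = t := by
    intro e t ht
    constructor
    · rw [Nat.mul_comm, Nat.mul_add_div hm, Nat.div_eq_of_lt ht, Nat.add_zero]
    · rw [Nat.mul_comm, Nat.mul_add_mod, Nat.mod_eq_of_lt ht]
  have hda : ∀ e r, r < a → (e * a + r) / a = e ∧ (e * a + r) % a = r := by
    intro e t ht
    constructor
    · rw [Nat.mul_comm, Nat.mul_add_div ha, Nat.div_eq_of_lt ht, Nat.add_zero]
    · rw [Nat.mul_comm, Nat.mul_add_mod, Nat.mod_eq_of_lt ht]
  have hpm : pos % m < m := Nat.mod_lt _ hm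
  have hpos : pos / m * m + pos % m = pos := Nat.div_add_mod' pos m
  rw [GB_iff]
  unfold rixC
  constructor
  · rintro ⟨l, hl, h1, h2⟩
    obtain ⟨l', hl', rfl⟩ := List.mem_map.mp hl
    obtain ⟨t, ht, rfl | rfl⟩ := mem_nog.mp hl'
    · left
      simp only at h1 h2
      rw [rx_row hi ht] at h1 h2
      rw [(hda _ _ (Nat.mod_lt i ha)).1] at h1
      rw [(hda _ _ (Nat.mod_lt i ha)).2] at h2
      rw [← h1, (hdm _ t ht).1, (hdm _ t ht).2]
      exact ⟨rfl, h2⟩
    · right
      simp only at h1 h2
      rw [rx_row hj ht] at h1 h2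
      rw [(hda _ _ (Nat.mod_lt j ha)).1] at h1
      rw [(hda _ _ (Nat.mod_lt j ha)).2] at h2
      rw [← h1, (hdm _ t ht).1, (hdm _ t ht).2]
      exact ⟨rfl, h2⟩
  · rintro (⟨h1, h2⟩ | ⟨h1, h2⟩)
    · refine ⟨_, List.mem_map.mpr ⟨(i * m + pos % m, !(bitAt u (pos % m))),
        mem_nog.mpr ⟨pos % m, hpm, Or.inl rfl⟩, rfl⟩, ?_, ?_⟩
      · simp only
        rw [rx_row hi hpm, (hda _ _ (Nat.mod_lt i ha)).1, ← h1, hpos]
      · simp only
        rw [rx_row hi hpm, (hda _ _ (Nat.mod_lt i ha)).2]
        exact h2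
    · refine ⟨_, List.mem_map.mpr ⟨(j * m + pos % m, !(bitAt v (pos % m))),
        mem_nog.mpr ⟨pos % m, hpm, Or.inr rfl⟩, rfl⟩, ?_, ?_⟩
      · simp only
        rw [rx_row hj hpm, (hda _ _ (Nat.mod_lt j ha)).1, ← h1, hpos]
      · simp only
        rw [rx_row hj hpm, (hda _ _ (Nat.mod_lt j ha)).2]
        exact h2

theorem toNat_inj' {b c : Bool} (h : b.toNat = c.toNat) : b = c := by
  cases b <;> cases c <;> simp_all

/-- Forbidden pairs have four classes of positions. -/
theorem wide_nog {k m a i j q : ℕ} {u v : List Bool} (ha : 0 < a) (hm : 0 < m) (hi : i < k)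
    (hj : j < k) : Wide q a (rixC k m a (nog m i j u v)) := by
  refine ⟨fun pos => decide (pos / m = i / a) || decide (pos / m = j / a),
    fun pos => if i / a = j / a then 2 * (bitAt u (pos % m)).toNat + (bitAt v (pos % m)).toNat
      else if pos / m = i / a then (bitAt u (pos % m)).toNat
      else 2 + (bitAt v (pos % m)).toNat, ?_, ?_, ?_⟩
  · intro pos
    have h1 := Bool.toNat_lt (bitAt u (pos % m))
    have h2 := Bool.toNat_lt (bitAt v (pos % m))
    simp only
    split_ifs <;> omega
  · intro pos val _ h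
    rw [GB_nog ha hi hj hm] at h
    simp only [Bool.or_eq_true, decide_eq_true_eq]
    exact h.imp (fun h => h.1) (fun h => h.1)
  · intro pos pos' _ _ h1 h2 h3 val
    simp only [Bool.or_eq_true, decide_eq_true_eq] at h1 h2
    have b1 := Bool.toNat_lt (bitAt u (pos % m))
    have b2 := Bool.toNat_lt (bitAt v (pos % m))
    have b3 := Bool.toNat_lt (bitAt u (pos' % m))
    have b4 := Bool.toNat_lt (bitAt v (pos' % m))
    rw [Bool.eq_iff_iff, GB_nog ha hi hj hm, GB_nog ha hi hj hm]
    by_cases hij : i / a = j / a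
    · simp only [hij, if_true] at h3
      rw [hij] at h1 h2
      have e1 : bitAt u (pos % m) = bitAt u (pos' % m) := toNat_inj' (by omega)
      have e2 : bitAt v (pos % m) = bitAt v (pos' % m) := toNat_inj' (by omega)
      have e3 : pos / m = j / a := by tauto
      have e4 : pos' / m = j / a := by tauto
      rw [hij, e3, e4, e1, e2]
    · simp only [if_neg hij] at h3
      by_cases c1 : pos / m = i / a
      · by_cases c2 : pos' / m = i / a
        · rw [if_pos c1, if_pos c2] at h3
          have e1 : bitAt u (pos % m) = bitAt u (pos' % m) := toNat_inj' h3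
          rw [c1, c2, e1]
          simp only [hij, false_and, or_false]
        · rw [if_pos c1, if_neg c2] at h3
          omega
      · by_cases c2 : pos' / m = i / a
        · rw [if_neg c1, if_pos c2] at h3
          omega
        · rw [if_neg c1, if_neg c2] at h3
          have e1 : bitAt v (pos % m) = bitAt v (pos' % m) := toNat_inj' (by omega)
          have c3 : pos / m = j / a := by tauto
          have c4 : pos' / m = j / a := by tauto
          rw [c3, c4, e1]
          simp only [Ne.symm hij, false_and, false_or]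

theorem sat_nog {m i j : ℕ} {u v : List Bool} {x : ℕ → Bool} :
    (∃ l ∈ nog m i j u v, x l.1 = l.2) ↔
      ∃ t < m, x (i * m + t) ≠ bitAt u t ∨ x (j * m + t) ≠ bitAt v t := by
  have hb : ∀ b c : Bool, b = (!c) ↔ b ≠ c := by decide
  constructor
  · rintro ⟨l, hl, hlx⟩
    obtain ⟨t, ht, rfl | rfl⟩ := mem_nog.mp hl
    · exact ⟨t, ht, Or.inl ((hb _ _).mp hlx)⟩
    · exact ⟨t, ht, Or.inr ((hb _ _).mp hlx)⟩
  · rintro ⟨t, ht, h | h⟩
    · exact ⟨_, mem_nog.mpr ⟨t, ht, Or.inl rfl⟩, (hb _ _).mpr h⟩
    · exact ⟨_, mem_nog.mpr ⟨t, ht, Or.inr rfl⟩, (hb _ _).mpr h⟩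

theorem nog_lt {k m i j n : ℕ} {u v : List Bool} (hi : i < k) (hj : j < k)
    (hkm : k * m ≤ n) : ∀ l ∈ nog m i j u v, l.1 < n := by
  have h : ∀ i t, i < k → t < m → i * m + t < n := by
    intro i t hi ht
    calc i * m + t < i * m + m := by omega
      _ = (i + 1) * m := by ring
      _ ≤ k * m := Nat.mul_le_mul_right _ hi
      _ ≤ n := hkm
  intro l hl
  obtain ⟨t, ht, rfl | rfl⟩ := mem_nog.mp hl
  · exact h i t hi ht
  · exact h j t hj ht

section PT

variable {t : Bool} {α : Type} [Rep α] {k m a v i j : α → ℕ} {C : α → List Lit}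
  {F : α → List (List Lit)} {u w : α → List Bool}

@[fun_prop]
theorem PT.rx' (hk : PT t k) (hm : PT t m) (ha : PT t a) (hv : PT t v) :
    PT t (fun z => rx (k z) (m z) (a z) (v z)) := by
  unfold rx
  have h0 : PT t (fun z => decide (v z < k z * m z)) := PT.decideLt hv (by fun_prop)
  fun_prop

@[fun_prop]
theorem PT.rixC' (hk : PT t k) (hm : PT t m) (ha : PT t a) (hC : PT t C) :
    PT t (fun z => rixC (k z) (m z) (a z) (C z)) := by
  unfold rixC
  exact PT.map2 hC (by fun_prop)

@[fun_prop]
theorem PT.rix' (hk : PT t k) (hm : PT t m) (ha : PT t a) (hF : PT t F) :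
    PT t (fun z => rix (k z) (m z) (a z) (F z)) := by
  unfold rix
  exact PT.map2 hF (by fun_prop)

@[fun_prop]
theorem PT.nog' (hm : PT t m) (hi : PT t i) (hj : PT t j) (hu : PT t u) (hw : PT t w) :
    PT t (fun z => nog (m z) (i z) (j z) (u z) (w z)) := by
  unfold nog
  exact PT.flatMap2 (by fun_prop) (by fun_prop)

end PT

end Pool.Agent.H87.CNF
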