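import Pool.Agent.H87.CNF.Find
import Pool.Agent.H87.CNF.Rix
import Pool.Agent.H87.CNF.Param

/-!
# The reduction, and its polynomial-time bound
-/

namespace Pool.Agent.H87.CNF

open Pool.Agent.PPS Pool.Agent.H87.PMCSP H87.HC

/-- test of the parameters -/
def okP (K q s a : ℕ) : Bool :=
  decide (104 * (q * (q * q)) ≤ Nat.size K - 1) && decide (s + a < Nat.size q)

/-- conditional value -/
def cl (b : Bool) (v : ℕ) : ℕ := bif b then v else 0

/-- a good gadget for the width `w` -/
def gdt (q c w : ℕ) (Γ : List ℕ) (Rs : List (List Bool)) : Bool :=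
  (List.range (q + 1)).any fun h => decide (4 ≤ h) && (decide (8 * w ≤ h * (h * h)) &&
    good q c h Γ Rs)

def parS (K k m n w q s a : ℕ) : List (ℕ × ℕ × ℕ × List ℕ) :=
  bif okP K q s a && (decide (1 ≤ a) &&
      (decide ((k / a + 1) * m * a + (n - k * m) ≤ a * (q * (q * q))) && prm q)) then
    ((wordsN (2 ^ cl (okP K q s a) s) (cl (okP K q s a) (4 * q))).filter fun Γ =>
      gdt q (2 ^ cl (okP K q s a) s) w Γ (allBits (cl (okP K q s a) q))).map
        fun Γ => (q, s, a, Γ)
  else []

/-- the list of all good parameters -/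
def params (K k m n w : ℕ) : List (ℕ × ℕ × ℕ × List ℕ) :=
  (List.range (Nat.size K)).flatMap fun q => (List.range (q + 1)).flatMap fun s =>
    (List.range (q + 1)).flatMap fun a => parS K k m n w q s a

/-- number of steps of the width reduction -/
def kp (K μ : ℕ) : ℕ := (Nat.size K - 1) / 16 / (Nat.size μ + 1)

/-- width -/
def wd (K n μ : ℕ) : ℕ := n / kp K μ + 1

/-- the partial assignments -/
def sts (K n : ℕ) (F : List (List Lit)) : List (List Lit) :=
  states (wd K n F.length) (kp K F.length) F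

/-- unit clauses -/
def unitC (ζ : List Lit) : List (List Lit) := ζ.map fun l => [l]

/-- the clauses of the partial assignment number `i` -/
def clsB (w : ℕ) (Z F : List (List Lit)) (i : ℕ) : List (List Lit) :=
  bif decide (i < Z.length) && cons? (Z.getD i []) then
    unitC (Z.getD i []) ++ short w (Z.getD i []) F else [[]]

/-- the indexed clauses -/
def icB (K k m n a : ℕ) (F : List (List Lit)) : List IC :=
  icl ((Nat.size K - 1) / 16) fun i => rix k m a (clsB (wd K n F.length) (sts K n F) F i)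

/-- the instance for one parameter -/
def insP (K : ℕ) (p : ℕ × ℕ × ℕ × List ℕ) (F : List IC) : List Bool :=
  insB (cl (okP K p.1 p.2.1 p.2.2.1) p.1) (2 ^ cl (okP K p.1 p.2.1 p.2.2.1) p.2.1)
    (2 ^ cl (okP K p.1 p.2.1 p.2.2.1) p.2.2.1) ((Nat.size K - 1) / 16)
    (cl (okP K p.1 p.2.1 p.2.2.1) p.2.2.1)
    (allBits (cl (okP K p.1 p.2.1 p.2.2.1) p.2.2.1)) p.2.2.2 F

/-- exhaustive search -/
def brute (K n : ℕ) (F : List (List Lit)) : Bool :=
  (allBits (cl (decide (n ≤ Nat.size K - 1)) n)).any fun x => F.all fun C => C.any fun l =>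
    bitAt x l.1 == l.2

/-- a yes-instance -/
def yesW : List Bool := encodeInstance 1 [none, none] 0

/-- a no-instance -/
def noW : List Bool := encodeInstance 1 [some false, some false] 0

/-- the reduction on decoded inputs: `F` are the clauses, and `W` is the list of clauses for
the forbidden pairs -/
def redF (K k m n : ℕ) (F W : List (List Lit)) : List Bool :=
  bif decide (n ≤ Nat.size K - 1) then (bif brute K n (F ++ W) then yesW else noW)
  else bif decide (0 < (params K k m n (wd K n F.length)).length) then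
    insP K ((params K k m n (wd K n F.length)).getD 0 (0, 0, 0, []))
      (icB K k m n ((params K k m n (wd K n F.length)).getD 0 (0, 0, 0, [])).2.2.1 F ++
        wcl (rix k m ((params K k m n (wd K n F.length)).getD 0 (0, 0, 0, [])).2.2.1 W))
  else noW

/-- literals of clause number `c` of the matrix `M` -/
def lits (n : ℕ) (M : List Bool) (c : ℕ) : List Lit :=
  (List.range n).flatMap fun v =>
    (bif bitAt M ((c * n + v) * 2) then [(v, false)] else []) ++
      (bif bitAt M ((c * n + v) * 2 + 1) then [(v, true)] else [])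

/-- the clauses of a matrix -/
def FL (n : ℕ) (M : List Bool) : List (List Lit) :=
  (List.range (M.length / (2 * n))).map fun c => lits n M c

/-- remove the first number -/
def nxt (w : List Bool) : List Bool := w.drop (lead w + 1)

/-! ### Bounds -/

theorem okP_iff {K q s a : ℕ} : okP K q s a = true ↔
    104 * q ^ 3 ≤ Nat.size K - 1 ∧ 2 ^ (s + a) ≤ q := by
  unfold okP
  rw [Bool.and_eq_true, decide_eq_true_eq, decide_eq_true_eq, Nat.lt_size,
    show q * (q * q) = q ^ 3 by ring]

theorem cl_pow_le (K q s a : ℕ) : 2 ^ cl (okP K q s a) s ≤ q + 1 := by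
  unfold cl
  cases h : okP K q s a with
  | false => simp
  | true =>
    rw [cond_true]
    have h1 := (okP_iff.mp h).2
    have h2 : 2 ^ s ≤ 2 ^ (s + a) := Nat.pow_le_pow_right (by norm_num) (by omega)
    omega

theorem cl_pow_le' (K q s a : ℕ) : 2 ^ cl (okP K q s a) a ≤ q + 1 := by
  unfold cl
  cases h : okP K q s a with
  | false => simp
  | true =>
    rw [cond_true]
    have h1 := (okP_iff.mp h).2
    have h2 : 2 ^ a ≤ 2 ^ (s + a) := Nat.pow_le_pow_right (by norm_num) (by omega)
    omega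

theorem cl_pow_le'' (K q s a : ℕ) : 2 ^ cl (okP K q s a) q ≤ K + 1 := by
  unfold cl
  cases h : okP K q s a with
  | false => simp
  | true =>
    rw [cond_true]
    refine (Nat.pow_le_pow_right (by norm_num) ?_).trans (size_pow_le K)
    have h1 := (okP_iff.mp h).1
    have h2 : q ≤ q ^ 3 := Nat.le_self_pow (by norm_num) q
    omega

theorem words_le (K q s a : ℕ) :
    (2 ^ cl (okP K q s a) s + 1) ^ cl (okP K q s a) (4 * q) ≤ K + 1 := by
  unfold cl
  cases h : okP K q s a with
  | false => simp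
  | true =>
    rw [cond_true, cond_true]
    obtain ⟨h1, h2⟩ := okP_iff.mp h
    refine le_trans ?_ (size_pow_le K)
    have h3 : 2 ^ s + 1 ≤ 2 ^ (s + 1) := by
      have := Nat.one_le_two_pow (n := s)
      rw [pow_succ]; omega
    have h4 : s < q := by
      have h5 : s < 2 ^ s := Nat.lt_two_pow_self
      have h6 : 2 ^ s ≤ 2 ^ (s + a) := Nat.pow_le_pow_right (by norm_num) (by omega)
      omega
    calc (2 ^ s + 1) ^ (4 * q) ≤ (2 ^ (s + 1)) ^ (4 * q) := Nat.pow_le_pow_left h3 _
      _ = 2 ^ ((s + 1) * (4 * q)) := by rw [← pow_mul]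
      _ ≤ 2 ^ (Nat.size K - 1) := by
          apply Nat.pow_le_pow_right (by norm_num)
          calc (s + 1) * (4 * q) ≤ q * (4 * q) := Nat.mul_le_mul_right _ h4
            _ = 4 * (q * q) * 1 := by ring
            _ ≤ 4 * (q * q) * q := Nat.mul_le_mul_left _ (by omega)
            _ ≤ 104 * q ^ 3 := by
                have : 4 * (q * q) * q = 4 * q ^ 3 := by ring
                omega
            _ ≤ _ := h1

theorem nX_le {q s a : ℕ} (h : 2 ^ (s + a) ≤ q) (ℓ : ℕ) :
    nX q (2 ^ s) (2 ^ a) + nX q (2 ^ s) (2 ^ a) + nY q ℓ ≤ 52 * q ^ 3 + 8 * ℓ := by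
  rw [nY_eq]
  unfold nX
  have h1 : (8 * (q * q) * 2 ^ s + 12) * 2 ^ a = 8 * (q * q) * 2 ^ (s + a) + 12 * 2 ^ a := by
    rw [pow_add]; ring
  rw [h1]
  have h2 : 8 * (q * q) * 2 ^ (s + a) ≤ 8 * (q * q) * q := Nat.mul_le_mul_left _ h
  have h3 : 8 * (q * q) * q = 8 * q ^ 3 := by ring
  have h4 : 2 ^ a ≤ 2 ^ (s + a) := Nat.pow_le_pow_right (by norm_num) (by omega)
  have h5 : q ≤ q ^ 3 := Nat.le_self_pow (by norm_num) q
  omega

theorem ins_le (K q s a : ℕ) :
    2 ^ (nX (cl (okP K q s a) q) (2 ^ cl (okP K q s a) s) (2 ^ cl (okP K q s a) a) +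
      nX (cl (okP K q s a) q) (2 ^ cl (okP K q s a) s) (2 ^ cl (okP K q s a) a) +
      nY (cl (okP K q s a) q) ((Nat.size K - 1) / 16)) ≤ 16777216 * (K + 1) := by
  have h65 : (16777216 : ℕ) = 2 ^ 24 := by norm_num
  rw [h65]
  unfold cl
  cases h : okP K q s a with
  | false =>
    simp only [cond_false, nX, nY, y0]
    refine le_trans ?_ (Nat.mul_le_mul_left _ (size_pow_le K))
    rw [← pow_add]
    apply Nat.pow_le_pow_right (by norm_num)
    omega
  | true =>
    simp only [cond_true]
    obtain ⟨h1, h2⟩ := okP_iff.mp h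
    refine le_trans ?_ (Nat.mul_le_mul_left _ (size_pow_le K))
    rw [← pow_add]
    apply Nat.pow_le_pow_right (by norm_num)
    have := nX_le h2 ((Nat.size K - 1) / 16)
    omega

theorem two_pow_le (K : ℕ) : 2 ^ ((Nat.size K - 1) / 16) ≤ K + 1 :=
  (Nat.pow_le_pow_right (by norm_num) (Nat.div_le_self _ _)).trans (size_pow_le K)

theorem kp_le (K μ k : ℕ) (hk : k ≤ kp K μ) : (μ + 1) ^ k ≤ K + 1 := by
  refine le_trans ?_ (size_pow_le K)
  have h1 : μ + 1 ≤ 2 ^ (Nat.size μ + 1) := by
    have := Nat.lt_size_self μ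
    rw [pow_succ]; omega
  calc (μ + 1) ^ k ≤ (2 ^ (Nat.size μ + 1)) ^ k := Nat.pow_le_pow_left h1 k
    _ = 2 ^ ((Nat.size μ + 1) * k) := by rw [← pow_mul]
    _ ≤ 2 ^ (Nat.size K - 1) := by
        apply Nat.pow_le_pow_right (by norm_num)
        calc (Nat.size μ + 1) * k ≤ (Nat.size μ + 1) * kp K μ := Nat.mul_le_mul_left _ hk
          _ ≤ (Nat.size K - 1) / 16 := Nat.mul_div_le _ _
          _ ≤ Nat.size K - 1 := Nat.div_le_self _ _

theorem state_lit {w k : ℕ} {F : List (List Lit)} :
    ∀ ζ ∈ states w k F, ∀ l ∈ ζ, ∃ C ∈ F, ∃ l' ∈ C, l = opp l' := by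
  induction k with
  | zero => intro ζ h l hl; simp [states] at h; subst h; cases hl
  | succ k ih =>
    intro ζ' h l hl
    rw [states_succ, mem_stp] at h
    obtain ⟨ζ, h1, rfl | ⟨C, hC, rfl⟩⟩ := h
    · exact ih _ h1 l hl
    · unfold ext at hl
      rw [List.mem_append, List.mem_map] at hl
      rcases hl with hl | ⟨l', hl', rfl⟩
      · exact ih _ h1 l hl
      · refine ⟨C, hC, l', ?_, rfl⟩
        have := List.mem_of_mem_take hl'
        unfold rem at this
        exact (List.mem_filter.mp this).1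

theorem size_state_le {w k : ℕ} {F : List (List Lit)} (ζ : List Lit)
    (h : ζ ∈ states w k F) : size ζ ≤ k * w * (size F + 5) + 1 := by
  have h1 : ∀ l ∈ ζ, size l ≤ size F + 4 := by
    intro l hl
    obtain ⟨C, hC, l', hl', rfl⟩ := state_lit ζ h l hl
    have h2 := size_le_of_mem hC
    have h3 := size_le_of_mem hl'
    unfold opp
    rw [size_pair]
    obtain ⟨i, b⟩ := l'
    rw [size_pair] at h3
    have h4 := size_bool_le (!b)
    simp only at h3 ⊢
    omega
  have h2 : size ζ ≤ ζ.length * (size F + 5) + 1 := size_list_le h1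
  have h3 := state_length_le w k F ζ h
  have := Nat.mul_le_mul_right (size F + 5) h3
  omega

theorem size_states_le {w k : ℕ} {F : List (List Lit)} :
    size (states w k F) ≤ (F.length + 1) ^ k * (k * w * (size F + 5) + 2) + 1 := by
  have h1 : size (states w k F) ≤ (states w k F).length * (k * w * (size F + 5) + 2) + 1 :=
    size_list_le (l := states w k F) (B := k * w * (size F + 5) + 1)
    (fun ζ h => size_state_le ζ h)
  have h2 := length_states_le w k F
  have := Nat.mul_le_mul_right (k * w * (size F + 5) + 2) h2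
  omega

/-! ### Polynomial time -/

section PT

variable {t : Bool} {α : Type} [Rep α]

variable {K k m n q s a c A ℓ i j v w μ : α → ℕ} {b : α → Bool} {x M : α → List Bool}
  {Γ : α → List ℕ} {U : α → List (List Bool)} {C ζ : α → List Lit} {F Z W : α → List (List Lit)}
  {I : α → List IC}
  {l : α → Lit} {p : α → ℕ × ℕ × ℕ × List ℕ}

theorem PT.insB' (hq : PT t q) (hc : PT t c) (hA : PT t A) (hℓ : PT t ℓ) (ha : PT t a)
    (hU : PT t U) (hΓ : PT t Γ) (hI : PT t I) (Q : Polynomial ℕ)
    (hQ : ∀ z, 2 ^ (nX (q z) (c z) (A z) + nX (q z) (c z) (A z) + nY (q z) (ℓ z)) ≤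
      Q.eval (size z)) :
    PT t (fun z => insB (q z) (c z) (A z) (ℓ z) (a z) (U z) (Γ z) (I z)) := by
  unfold insB tabB
  have h1 : PT t (fun z => nX (q z) (c z) (A z) + nX (q z) (c z) (A z) + nY (q z) (ℓ z)) := by
    fun_prop
  have h2 : PT t (fun z => allBits (nX (q z) (c z) (A z) + nX (q z) (c z) (A z) +
      nY (q z) (ℓ z))) := PT.allBits' h1 Q hQ
  have h3 : PT t (fun z => (allBits (nX (q z) (c z) (A z) + nX (q z) (c z) (A z) +
      nY (q z) (ℓ z))).map fun x =>
        entB (q z) (c z) (A z) (ℓ z) (a z) (U z) (Γ z) (I z) x) :=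
    PT.map2 h2 (by fun_prop)
  exact PT.encodeInstance' h1 h3 (by fun_prop)

@[fun_prop]
theorem PT.okP'' (hK : PT t K) (hq : PT t q) (hs : PT t s) (ha : PT t a) :
    PT t (fun z => okP (K z) (q z) (s z) (a z)) := by
  unfold okP
  exact PT.and' (PT.decideLe (by fun_prop) (by fun_prop)) (PT.decideLt (by fun_prop)
    (by fun_prop))

@[fun_prop]
theorem PT.cl' (hb : PT t b) (hv : PT t v) : PT t (fun z => cl (b z) (v z)) := by
  unfold cl; fun_prop

theorem PT.clBits (hK : PT t K) (hq : PT t q) (hs : PT t s) (ha : PT t a) :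
    PT t (fun z => allBits (cl (okP (K z) (q z) (s z) (a z)) (s z))) := by
  obtain ⟨r, hr⟩ := hq.exists_size_le
  refine PT.allBits' (by fun_prop) (r + 1) fun z => (cl_pow_le _ _ _ _).trans ?_
  have := hr z
  rw [size_nat] at this
  simp only [Polynomial.eval_add, Polynomial.eval_one]
  omega

theorem PT.clBits' (hK : PT t K) (hq : PT t q) (hs : PT t s) (ha : PT t a) :
    PT t (fun z => allBits (cl (okP (K z) (q z) (s z) (a z)) (a z))) := by
  obtain ⟨r, hr⟩ := hq.exists_size_le
  refine PT.allBits' (by fun_prop) (r + 1) fun z => (cl_pow_le' _ _ _ _).trans ?_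
  have := hr z
  rw [size_nat] at this
  simp only [Polynomial.eval_add, Polynomial.eval_one]
  omega

theorem PT.clPow (hK : PT t K) (hq : PT t q) (hs : PT t s) (ha : PT t a) :
    PT t (fun z => 2 ^ cl (okP (K z) (q z) (s z) (a z)) (s z)) := by
  refine PT.of_eq (PT.length' (PT.clBits hK hq hs ha)) fun z => ?_
  rw [length_allBits]

theorem PT.clPow' (hK : PT t K) (hq : PT t q) (hs : PT t s) (ha : PT t a) :
    PT t (fun z => 2 ^ cl (okP (K z) (q z) (s z) (a z)) (a z)) := by
  refine PT.of_eq (PT.length' (PT.clBits' hK hq hs ha)) fun z => ?_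
  rw [length_allBits]

@[fun_prop]
theorem PT.clBits'' (hK : PT t K) (hq : PT t q) (hs : PT t s) (ha : PT t a) :
    PT t (fun z => allBits (cl (okP (K z) (q z) (s z) (a z)) (q z))) := by
  obtain ⟨r, hr⟩ := hK.exists_size_le
  refine PT.allBits' (by fun_prop) (r + 1) fun z => (cl_pow_le'' _ _ _ _).trans ?_
  have := hr z
  rw [size_nat] at this
  simp only [Polynomial.eval_add, Polynomial.eval_one]
  omega

@[fun_prop]
theorem PT.gdt' {Rs : α → List (List Bool)} (hq : PT t q) (hc : PT t c) (hw : PT t w)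
    (hΓ : PT t Γ) (hRs : PT t Rs) :
    PT t (fun z => gdt (q z) (c z) (w z) (Γ z) (Rs z)) := by
  unfold gdt
  refine PT.any2 (by fun_prop) (PT.and' (PT.decideLe (by fun_prop) (by fun_prop))
    (PT.and' (PT.decideLe (by fun_prop) (by fun_prop)) (by fun_prop)))

@[fun_prop]
theorem PT.parS' (hK : PT t K) (hk : PT t k) (hm : PT t m) (hn : PT t n) (hw : PT t w)
    (hq : PT t q) (hs : PT t s) (ha : PT t a) :
    PT t (fun z => parS (K z) (k z) (m z) (n z) (w z) (q z) (s z) (a z)) := by
  unfold parS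
  obtain ⟨r, hr⟩ := hK.exists_size_le
  have h0 : PT t (fun z => 2 ^ cl (okP (K z) (q z) (s z) (a z)) (s z)) :=
    PT.clPow hK hq hs ha
  have h1 : PT t (fun z => wordsN (2 ^ cl (okP (K z) (q z) (s z) (a z)) (s z))
      (cl (okP (K z) (q z) (s z) (a z)) (4 * q z))) := by
    refine PT.wordsN' h0 (by fun_prop) (r + 1) fun z =>
      (words_le _ _ _ _).trans ?_
    have := hr z
    rw [size_nat] at this
    simp only [Polynomial.eval_add, Polynomial.eval_one]
    omega
  have h2 : PT t (fun z => decide (1 ≤ a z)) := PT.decideLe (by fun_prop) ha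
  have h3 : PT t (fun z => decide ((k z / a z + 1) * m z * a z + (n z - k z * m z) ≤
      a z * (q z * (q z * q z)))) := PT.decideLe (by fun_prop) (by fun_prop)
  have h4 : PT t (fun z => allBits (cl (okP (K z) (q z) (s z) (a z)) (q z))) :=
    PT.clBits'' hK hq hs ha
  have h5 : PT t (fun z => (wordsN (2 ^ cl (okP (K z) (q z) (s z) (a z)) (s z))
      (cl (okP (K z) (q z) (s z) (a z)) (4 * q z))).filter fun Γ =>
        gdt (q z) (2 ^ cl (okP (K z) (q z) (s z) (a z)) (s z)) (w z) Γ
          (allBits (cl (okP (K z) (q z) (s z) (a z)) (q z)))) := by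
    refine PT.filter2 h1 ?_
    have h6 := h0.comp (f := fun z : α × List ℕ => z.1) (by fun_prop)
    have h7 := h4.comp (f := fun z : α × List ℕ => z.1) (by fun_prop)
    exact PT.gdt' (by fun_prop) h6 (by fun_prop) (by fun_prop) h7
  exact PT.cond (by fun_prop) (PT.map2 h5 (by fun_prop)) (by fun_prop)

@[fun_prop]
theorem PT.params' (hK : PT t K) (hk : PT t k) (hm : PT t m) (hn : PT t n) (hw : PT t w) :
    PT t (fun z => params (K z) (k z) (m z) (n z) (w z)) := by
  unfold params
  refine PT.flatMap2 (by fun_prop) ?_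
  refine PT.flatMap2 (f := fun (z : α × ℕ) s => (List.range (z.2 + 1)).flatMap fun a =>
    parS (K z.1) (k z.1) (m z.1) (n z.1) (w z.1) z.2 s a) (by fun_prop) ?_
  exact PT.flatMap2 (f := fun (z : (α × ℕ) × ℕ) a =>
    parS (K z.1.1) (k z.1.1) (m z.1.1) (n z.1.1) (w z.1.1) z.1.2 z.2 a) (by fun_prop)
    (by fun_prop)

@[fun_prop]
theorem PT.insP' (hK : PT t K) (hp : PT t p) (hI : PT t I) :
    PT t (fun z => insP (K z) (p z) (I z)) := by
  unfold insP
  obtain ⟨r, hr⟩ := hK.exists_size_le
  refine PT.insB' (by fun_prop) (PT.clPow hK (by fun_prop) (by fun_prop) (by fun_prop))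
    (PT.clPow' hK (by fun_prop) (by fun_prop) (by fun_prop)) (by fun_prop) (by fun_prop)
    (PT.clBits' hK (by fun_prop) (by fun_prop) (by fun_prop)) (by fun_prop) hI
    (16777216 * (r + 1)) fun z => (ins_le _ _ _ _).trans ?_
  have := hr z
  rw [size_nat] at this
  simp only [Polynomial.eval_add, Polynomial.eval_mul, Polynomial.eval_ofNat,
    Polynomial.eval_one]
  omega

@[fun_prop]
theorem PT.kp' (hK : PT t K) (hμ : PT t μ) : PT t (fun z => kp (K z) (μ z)) := by
  unfold kp; fun_prop

@[fun_prop]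
theorem PT.wd' (hK : PT t K) (hn : PT t n) (hμ : PT t μ) :
    PT t (fun z => wd (K z) (n z) (μ z)) := by
  unfold wd; fun_prop

@[fun_prop]
theorem PT.opp' (hl : PT t l) : PT t (fun z => opp (l z)) := by
  unfold opp; fun_prop

@[fun_prop]
theorem PT.rem' (hζ : PT t ζ) (hC : PT t C) : PT t (fun z => rem (ζ z) (C z)) := by
  unfold rem
  refine PT.filter2 hC (PT.not' ?_)
  exact PT.mem2 (x := fun z : α × Lit => opp z.2) (l := fun z : α × Lit => ζ z.1)
    (by fun_prop) (by fun_prop)

@[fun_prop]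
theorem PT.satd' (hζ : PT t ζ) (hC : PT t C) : PT t (fun z => satd (ζ z) (C z)) := by
  unfold satd
  refine PT.any2 hC ?_
  exact PT.mem2 (x := fun z : α × Lit => z.2) (l := fun z : α × Lit => ζ z.1)
    (by fun_prop) (by fun_prop)

@[fun_prop]
theorem PT.cons?' (hζ : PT t ζ) : PT t (fun z => cons? (ζ z)) := by
  unfold cons?
  refine PT.all2 hζ (PT.not' ?_)
  exact PT.mem2 (x := fun z : α × Lit => opp z.2) (l := fun z : α × Lit => ζ z.1)
    (by fun_prop) (by fun_prop)

@[fun_prop]
theorem PT.ext' (hw : PT t w) (hζ : PT t ζ) (hC : PT t C) :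
    PT t (fun z => ext (w z) (ζ z) (C z)) := by
  unfold ext
  exact PT.append' hζ (PT.map2 (by fun_prop) (by fun_prop))

@[fun_prop]
theorem PT.short' (hw : PT t w) (hζ : PT t ζ) (hF : PT t F) :
    PT t (fun z => short (w z) (ζ z) (F z)) := by
  unfold short
  exact PT.map2 (PT.filter2 hF (by fun_prop)) (by fun_prop)

@[fun_prop]
theorem PT.stp' (hw : PT t w) (hF : PT t F) (hZ : PT t Z) :
    PT t (fun z => stp (w z) (F z) (Z z)) := by
  unfold stp
  refine PT.flatMap2 hZ ?_
  refine PT.cons' (by fun_prop) ?_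
  exact PT.map2 (f := fun (z : α × List Lit) C => ext (w z.1) z.2 C) (by fun_prop)
    (by fun_prop)

@[fun_prop]
theorem PT.sts' (hK : PT t K) (hn : PT t n) (hF : PT t F) :
    PT t (fun z => sts (K z) (n z) (F z)) := by
  obtain ⟨r, hr⟩ := hK.exists_size_le
  obtain ⟨r2, hr2⟩ := (show PT t (fun z => kp (K z) (F z).length) by fun_prop).exists_size_le
  obtain ⟨r3, hr3⟩ := (show PT t (fun z => wd (K z) (n z) (F z).length) by
    fun_prop).exists_size_le
  obtain ⟨r4, hr4⟩ := hF.exists_size_le
  unfold sts states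
  refine PT.iterate (s := fun z : α × List (List Lit) =>
    stp (wd (K z.1) (n z.1) (F z.1).length) (F z.1) z.2) (ini := fun _ => [[]]) (by fun_prop)
    (by fun_prop) (by fun_prop) ((r + 1) * (r2 * r3 * (r4 + 5) + 2) + 1) ?_
  intro z k hk
  have h1 := size_states_le (w := wd (K z) (n z) (F z).length) (k := k) (F := F z)
  refine h1.trans ?_
  simp only [Polynomial.eval_add, Polynomial.eval_mul, Polynomial.eval_ofNat,
    Polynomial.eval_one]
  have h2 := kp_le (K z) (F z).length k hk
  have h3 := hr z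
  have h4 := hr2 z
  have h5 := hr3 z
  rw [size_nat] at h3 h4 h5
  have h6 := hr4 z
  have h7 : k * wd (K z) (n z) (F z).length * (size (F z) + 5) ≤
      r2.eval (size z) * r3.eval (size z) * (r4.eval (size z) + 5) :=
    Nat.mul_le_mul (Nat.mul_le_mul (by omega) (by omega)) (by omega)
  have h8 : ((F z).length + 1) ^ k * (k * wd (K z) (n z) (F z).length * (size (F z) + 5) + 2) ≤
      (r.eval (size z) + 1) *
        (r2.eval (size z) * r3.eval (size z) * (r4.eval (size z) + 5) + 2) :=
    Nat.mul_le_mul (by omega) (by omega)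
  omega

@[fun_prop]
theorem PT.brute' (hK : PT t K) (hn : PT t n) (hF : PT t F) :
    PT t (fun z => brute (K z) (n z) (F z)) := by
  unfold brute
  obtain ⟨r, hr⟩ := hK.exists_size_le
  have h1 : PT t (fun z => decide (n z ≤ Nat.size (K z) - 1)) :=
    PT.decideLe hn (by fun_prop)
  have h2 : PT t (fun z => allBits (cl (decide (n z ≤ Nat.size (K z) - 1)) (n z))) := by
    refine PT.allBits' (by fun_prop) (r + 1) fun z => ?_
    have h3 : 2 ^ cl (decide (n z ≤ Nat.size (K z) - 1)) (n z) ≤ K z + 1 := by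
      unfold cl
      by_cases h : n z ≤ Nat.size (K z) - 1
      · rw [decide_eq_true h, cond_true]
        exact (Nat.pow_le_pow_right (by norm_num) h).trans (size_pow_le _)
      · rw [decide_eq_false h, cond_false]
        simp
    have := hr z
    rw [size_nat] at this
    simp only [Polynomial.eval_add, Polynomial.eval_one]
    omega
  refine PT.any2 h2 ?_
  refine PT.all2 (f := fun (z : α × List Bool) (C : List Lit) =>
    C.any fun l => bitAt z.2 l.1 == l.2) (by fun_prop) ?_
  exact PT.any2 (f := fun (z : (α × List Bool) × List Lit) (l : Lit) => bitAt z.1.2 l.1 == l.2)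
    (by fun_prop) (by fun_prop)

@[fun_prop]
theorem PT.unitC' (hζ : PT t ζ) : PT t (fun z => unitC (ζ z)) := by
  unfold unitC
  exact PT.map2 hζ (by fun_prop)

@[fun_prop]
theorem PT.wcl' (hF : PT t F) : PT t (fun z => wcl (F z)) := by
  unfold wcl
  exact PT.map2 (f := fun (_ : α) (C : List Lit) => (false, [], C)) hF (by fun_prop)

@[fun_prop]
theorem PT.clsB' (hw : PT t w) (hZ : PT t Z) (hF : PT t F) (hi : PT t i) :
    PT t (fun z => clsB (w z) (Z z) (F z) (i z)) := by
  unfold clsB
  have h1 : PT t (fun z => decide (i z < (Z z).length)) := PT.decideLt hi (by fun_prop)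
  have h2 : PT t (fun z => (Z z).getD (i z) []) := PT.getD' hi (by fun_prop) (PT.const' _)
  fun_prop

@[fun_prop]
theorem PT.icB' (hK : PT t K) (hk : PT t k) (hm : PT t m) (hn : PT t n) (ha : PT t a)
    (hF : PT t F) : PT t (fun z => icB (K z) (k z) (m z) (n z) (a z) (F z)) := by
  unfold icB icl
  obtain ⟨r, hr⟩ := hK.exists_size_le
  have h1 : PT t (fun z => allBits ((Nat.size (K z) - 1) / 16)) := by
    refine PT.allBits' (by fun_prop) (r + 1) fun z => (two_pow_le _).trans ?_
    have := hr z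
    rw [size_nat] at this
    simp only [Polynomial.eval_add, Polynomial.eval_one]
    omega
  have h2 : PT t (fun z => 2 ^ ((Nat.size (K z) - 1) / 16)) := by
    refine PT.of_eq (PT.length' h1) fun z => ?_
    rw [length_allBits]
  refine PT.flatMap2 (f := fun (z : α) i =>
    (rix (k z) (m z) (a z)
      (clsB (wd (K z) (n z) (F z).length) (sts (K z) (n z) (F z)) (F z) i)).map fun C =>
      (true, (allBits ((Nat.size (K z) - 1) / 16)).getD i [], C)) (by fun_prop) ?_
  refine PT.map2 (f := fun (z : α × ℕ) (C : List Lit) =>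
      (true, (allBits ((Nat.size (K z.1) - 1) / 16)).getD z.2 [], C)) (by fun_prop) ?_
  have h3 : PT t (fun z : (α × ℕ) × List Lit => allBits ((Nat.size (K z.1.1) - 1) / 16)) :=
    h1.comp (f := fun z : (α × ℕ) × List Lit => z.1.1) (by fun_prop)
  have h4 : PT t (fun z : (α × ℕ) × List Lit =>
      (allBits ((Nat.size (K z.1.1) - 1) / 16)).getD z.1.2 []) :=
    PT.getD' (by fun_prop) h3 (PT.const' _)
  exact PT.prodMk (by fun_prop) (PT.prodMk h4 (by fun_prop))

@[fun_prop]
theorem PT.redF' (hK : PT t K) (hk : PT t k) (hm : PT t m) (hn : PT t n) (hF : PT t F)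
    (hW : PT t W) : PT t (fun z => redF (K z) (k z) (m z) (n z) (F z) (W z)) := by
  unfold redF
  have h1 : PT t (fun z => decide (n z ≤ Nat.size (K z) - 1)) :=
    PT.decideLe hn (by fun_prop)
  have h2 : PT t (fun z =>
      decide (0 < (params (K z) (k z) (m z) (n z) (wd (K z) (n z) (F z).length)).length)) :=
    PT.decideLt (by fun_prop) (by fun_prop)
  have h3 : PT t (fun z =>
      (params (K z) (k z) (m z) (n z) (wd (K z) (n z) (F z).length)).getD 0 (0, 0, 0, [])) :=
    PT.getD' (by fun_prop) (by fun_prop) (PT.const' _)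
  fun_prop

@[fun_prop]
theorem PT.lits' (hn : PT t n) (hM : PT t M) (hc : PT t c) :
    PT t (fun z => lits (n z) (M z) (c z)) := by
  unfold lits
  exact PT.flatMap2 (by fun_prop) (by fun_prop)

@[fun_prop]
theorem PT.FL' (hn : PT t n) (hM : PT t M) : PT t (fun z => FL (n z) (M z)) := by
  unfold FL
  exact PT.map2 (by fun_prop) (by fun_prop)

@[fun_prop]
theorem PT.nxt' (hM : PT t M) : PT t (fun z => nxt (M z)) := by
  unfold nxt; fun_prop

end PT

end Pool.Agent.H87.CNF
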