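import Pool.Agent.H87.CNF.WalkSem

/-!
# The reduction for branching programs, and its polynomial-time bound
-/

namespace Pool.Agent.H87.CNF

open Pool.Agent.PPS Pool.Agent.H87.PMCSP H87.HC

/-- the word without its first `i` numbers -/
def rst (w : List Bool) (i : ℕ) : List Bool := nxt^[i] w

/-- number `i` of the word -/
def fld (w : List Bool) (i : ℕ) : ℕ := lead (rst w i)

/-- the nodes of the program -/
def progL (w : List Bool) (S : ℕ) : List Nd :=
  (List.range S).map fun u => (fld w (5 + 3 * u), fld w (6 + 3 * u), fld w (7 + 3 * u))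

/-- number of bits -/
def rr (S : ℕ) : ℕ := Nat.size (S + 1)

/-- length of a segment -/
def ll (n T S : ℕ) : ℕ := T * rr S / n + 1

/-- number of segments -/
def qq (n T S : ℕ) : ℕ := T / ll n T S + 1

/-- number of variables -/
def nn (n T S : ℕ) : ℕ := n + (qq n T S + 1) * rr S

/-- the clauses -/
def cls2 (K n T S : ℕ) (p : List Nd) (F : List (List Lit)) : List (List Lit) :=
  allC (nn n T S) n (rr S) S T (ll n T S) (qq n T S) (allBits (rr S))
    (allBits (cl (decide (ll n T S ≤ Nat.size K - 1)) (ll n T S))) p F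

/-- the clause for a forbidden pair, if the pair is forbidden -/
def ngC (k m V : ℕ) (U : List (List Bool)) (M : List Bool) (i j u v : ℕ) : List (List Lit) :=
  bif decide (i < j) && !(bitAt M (((i * k + j) * V + u) * V + v)) then
    [nog m i j (cw U u) (cw U v)] else []

/-- the clauses for the forbidden pairs -/
def ngs (k m V : ℕ) (U : List (List Bool)) (M : List Bool) : List (List Lit) :=
  (List.range k).flatMap fun i => (List.range k).flatMap fun j =>
    (List.range V).flatMap fun u => (List.range V).flatMap fun v => ngC k m V U M i j u v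

/-- the reduction on decoded inputs -/
def redH (K k m T S : ℕ) (p : List Nd) (F W : List (List Lit)) : List Bool :=
  redF K k m (nn (k * m) T S) (cls2 K (k * m) T S p F) W

/-- guarded number of columns -/
def gm (K m : ℕ) : ℕ := cl (decide (m ≤ Nat.size K - 1)) m

/-- the reduction, with the numbers `K, k, m, T, S` decoded -/
def redN (K k m T S : ℕ) (w : List Bool) : List Bool :=
  redH K k m T S (progL w S)
    (FL (k * m) ((rst w (5 + 3 * S)).drop (k * k * 2 ^ gm K m * 2 ^ gm K m)))
    (ngs k m (2 ^ gm K m) (allBits (gm K m)) (rst w (5 + 3 * S)))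

/-- **The reduction.** -/
def red2 (w : List Bool) : List Bool :=
  redN (fld w 0) (fld w 1) (fld w 2) (fld w 3) (fld w 4) w

section PT

variable {t : Bool} {α : Type} [Rep α]

variable {K n n' S T ℓ q r i j u s k m v V : α → ℕ} {b : α → Bool} {x β M : α → List Bool}
  {p : α → List Nd} {R L U : α → List (List Bool)} {C : α → List Lit}
  {F G : α → List (List Lit)}
  {W : α → ℕ × ℕ × List Lit}

theorem size_nxt_le (w : List Bool) : size (nxt w) ≤ size w := by
  unfold nxt
  generalize lead w + 1 = k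
  induction k generalizing w with
  | zero => exact le_rfl
  | succ k ih =>
    cases w with
    | nil => simp
    | cons b w =>
      rw [List.drop_succ_cons, size_cons]
      have := ih w
      omega

theorem size_rst_le (w : List Bool) (i : ℕ) : size (rst w i) ≤ size w := by
  unfold rst
  induction i with
  | zero => exact le_rfl
  | succ i ih =>
    rw [Function.iterate_succ_apply']
    exact (size_nxt_le _).trans ih

@[fun_prop]
theorem PT.rst' (hx : PT t x) (hi : PT t i) : PT t (fun z => rst (x z) (i z)) := by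
  obtain ⟨Q, hQ⟩ := hx.exists_size_le
  unfold rst
  exact PT.iterate (s := fun z : α × List Bool => nxt z.2) (ini := x) hi hx (by fun_prop) Q
    fun z k _ => (size_rst_le (x z) k).trans (hQ z)

@[fun_prop]
theorem PT.fld' (hx : PT t x) (hi : PT t i) : PT t (fun z => fld (x z) (i z)) := by
  unfold fld; fun_prop

@[fun_prop]
theorem PT.progL' (hx : PT t x) (hS : PT t S) : PT t (fun z => progL (x z) (S z)) := by
  unfold progL
  exact PT.map2 (by fun_prop) (by fun_prop)

@[fun_prop]
theorem PT.min' (hu : PT t u) (hv : PT t v) : PT t (fun z => min (u z) (v z)) := by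
  have h : PT t (fun z => u z - (u z - v z)) := by fun_prop
  convert h using 2 with z
  omega

@[fun_prop]
theorem PT.nx' (hS : PT t S) (hp : PT t p) (hb : PT t b) (hu : PT t u) :
    PT t (fun z => nx (S z) (p z) (b z) (u z)) := by
  unfold nx
  have h1 : PT t (fun z => decide (u z < S z)) := PT.decideLt hu hS
  have h2 : PT t (fun z => (p z).getD (u z) (0, 0, 0)) := PT.getD' hu hp (PT.const' _)
  fun_prop

@[fun_prop]
theorem PT.wstep' (hS : PT t S) (hp : PT t p) (hβ : PT t β) (hW : PT t W) :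
    PT t (fun z => wstep (S z) (p z) (β z) (W z)) := by
  unfold wstep
  have h1 : PT t (fun z => decide ((W z).2.1 < S z)) := PT.decideLt (by fun_prop) hS
  have h2 : PT t (fun z => (p z).getD (W z).2.1 (0, 0, 0)) :=
    PT.getD' (by fun_prop) hp (PT.const' _)
  fun_prop

theorem size_walk_le {S : ℕ} {p : List Nd} {β : List Bool} {u s : ℕ} :
    size (walk S p β u s) ≤ 2 * s + 2 * (u + (S + 1)) + s * (2 * size p + 6) + 6 := by
  obtain ⟨h1, h2, h3⟩ := walk_bound (S := S) (p := p) (β := β) (u := u) (t := s)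
    (B := size p) (by
      intro e he
      have h4 := size_le_of_mem he
      obtain ⟨e1, e2⟩ := e
      rw [size_pair, size_nat] at h4
      simp only
      omega)
  have h4 := walk_fst S p β u s
  generalize walk S p β u s = w at *
  obtain ⟨w1, w2, w3⟩ := w
  simp only at h1 h2 h3 h4
  rw [size_pair, size_pair, size_nat, size_nat]
  have h5 : size w3 ≤ w3.length * ((2 * size p + 5) + 1) + 1 := by
    apply size_list_le
    intro l hl
    have h6 := h3 l hl
    obtain ⟨v, b⟩ := l
    rw [size_pair, size_nat]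
    have := size_bool_le b
    simp only at h6
    omega
  have h6 := Nat.mul_le_mul_right ((2 * size p + 5) + 1) h2
  have h7 : s * ((2 * size p + 5) + 1) = s * (2 * size p + 6) := by ring
  omega

@[fun_prop]
theorem PT.walk' (hS : PT t S) (hp : PT t p) (hβ : PT t β) (hu : PT t u) (hs : PT t s) :
    PT t (fun z => walk (S z) (p z) (β z) (u z) (s z)) := by
  obtain ⟨Q1, hQ1⟩ := hS.exists_size_le
  obtain ⟨Q2, hQ2⟩ := hp.exists_size_le
  obtain ⟨Q3, hQ3⟩ := hu.exists_size_le
  obtain ⟨Q4, hQ4⟩ := hs.exists_size_le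
  unfold walk
  refine PT.iterate (s := fun z : α × (ℕ × ℕ × List Lit) =>
    wstep (S z.1) (p z.1) (β z.1) z.2) (ini := fun z => (0, u z, [])) hs (by fun_prop)
    (by fun_prop) (2 * Q4 + 2 * (Q3 + (Q1 + 1)) + Q4 * (2 * Q2 + 6) + 6) ?_
  intro z k hk
  refine (size_walk_le (S := S z) (p := p z) (β := β z) (u := u z) (s := k)).trans ?_
  simp only [Polynomial.eval_add, Polynomial.eval_mul, Polynomial.eval_ofNat,
    Polynomial.eval_one]
  have h1 := hQ1 z
  have h2 := hQ2 z
  have h3 := hQ3 z
  have h4 := hQ4 z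
  rw [size_nat] at h1 h3 h4
  have h5 : k * (2 * size (p z) + 6) ≤ Q4.eval (size z) * (2 * Q2.eval (size z) + 6) :=
    Nat.mul_le_mul (by omega) (by omega)
  omega

@[fun_prop]
theorem PT.nub' (hn : PT t n) (hC : PT t C) : PT t (fun z => nub (n z) (C z)) := by
  unfold nub
  refine PT.filter2 (PT.flatMap2 (by fun_prop) (by fun_prop)) ?_
  exact PT.mem2 (x := fun z : α × Lit => z.2) (l := fun z : α × Lit => C z.1)
    (by fun_prop) (by fun_prop)

@[fun_prop]
theorem PT.cw' (hR : PT t R) (hv : PT t v) : PT t (fun z => cw (R z) (v z)) := by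
  unfold cw
  exact PT.getD' hv hR (PT.const' _)

@[fun_prop]
theorem PT.neq' (hn : PT t n) (hr : PT t r) (hR : PT t R) (hi : PT t i) (hu : PT t u) :
    PT t (fun z => neq (n z) (r z) (R z) (i z) (u z)) := by
  unfold neq
  exact PT.map2 (by fun_prop) (by fun_prop)

@[fun_prop]
theorem PT.eqc' (hn : PT t n) (hr : PT t r) (hR : PT t R) (hi : PT t i) (hu : PT t u) :
    PT t (fun z => eqc (n z) (r z) (R z) (i z) (u z)) := by
  unfold eqc
  exact PT.map2 (by fun_prop) (by fun_prop)

@[fun_prop]
theorem PT.segD' (hn' : PT t n') (hn : PT t n) (hr : PT t r) (hR : PT t R) (hi : PT t i)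
    (hu : PT t u) (hW : PT t W) (hk : PT t k) :
    PT t (fun z => segD (n' z) (n z) (r z) (R z) (i z) (u z) (W z) (k z)) := by
  unfold segD; fun_prop

@[fun_prop]
theorem PT.segC' (hn' : PT t n') (hn : PT t n) (hr : PT t r) (hS : PT t S) (hT : PT t T)
    (hℓ : PT t ℓ) (hR : PT t R) (hp : PT t p) (hi : PT t i) (hu : PT t u) (hβ : PT t β) :
    PT t (fun z => segC (n' z) (n z) (r z) (S z) (T z) (ℓ z) (R z) (p z) (i z) (u z)
      (β z)) := by
  unfold segC
  exact PT.map2 (by fun_prop) (by fun_prop)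

@[fun_prop]
theorem PT.segA' (hn' : PT t n') (hn : PT t n) (hr : PT t r) (hS : PT t S) (hT : PT t T)
    (hℓ : PT t ℓ) (hq : PT t q) (hR : PT t R) (hL : PT t L) (hp : PT t p) :
    PT t (fun z => segA (n' z) (n z) (r z) (S z) (T z) (ℓ z) (q z) (R z) (L z) (p z)) := by
  unfold segA
  refine PT.flatMap2 (by fun_prop) ?_
  refine PT.flatMap2 (f := fun (z : α × ℕ) u => (L z.1).flatMap fun β =>
    segC (n' z.1) (n z.1) (r z.1) (S z.1) (T z.1) (ℓ z.1) (R z.1) (p z.1) z.2 u β)
    (by fun_prop) ?_
  exact PT.flatMap2 (f := fun (z : (α × ℕ) × ℕ) β =>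
    segC (n' z.1.1) (n z.1.1) (r z.1.1) (S z.1.1) (T z.1.1) (ℓ z.1.1) (R z.1.1) (p z.1.1)
      z.1.2 z.2 β) (by fun_prop) (by fun_prop)

@[fun_prop]
theorem PT.allC' (hn' : PT t n') (hn : PT t n) (hr : PT t r) (hS : PT t S) (hT : PT t T)
    (hℓ : PT t ℓ) (hq : PT t q) (hR : PT t R) (hL : PT t L) (hp : PT t p) (hF : PT t F) :
    PT t (fun z => allC (n' z) (n z) (r z) (S z) (T z) (ℓ z) (q z) (R z) (L z) (p z)
      (F z)) := by
  unfold allC; fun_prop

@[fun_prop]
theorem PT.rr' (hS : PT t S) : PT t (fun z => rr (S z)) := by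
  unfold rr; fun_prop

@[fun_prop]
theorem PT.ll' (hn : PT t n) (hT : PT t T) (hS : PT t S) :
    PT t (fun z => ll (n z) (T z) (S z)) := by
  unfold ll; fun_prop

@[fun_prop]
theorem PT.qq' (hn : PT t n) (hT : PT t T) (hS : PT t S) :
    PT t (fun z => qq (n z) (T z) (S z)) := by
  unfold qq; fun_prop

@[fun_prop]
theorem PT.nn' (hn : PT t n) (hT : PT t T) (hS : PT t S) :
    PT t (fun z => nn (n z) (T z) (S z)) := by
  unfold nn; fun_prop

@[fun_prop]
theorem PT.cls2' (hK : PT t K) (hn : PT t n) (hT : PT t T) (hS : PT t S) (hp : PT t p)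
    (hF : PT t F) : PT t (fun z => cls2 (K z) (n z) (T z) (S z) (p z) (F z)) := by
  unfold cls2
  obtain ⟨Q, hQ⟩ := hK.exists_size_le
  obtain ⟨Q1, hQ1⟩ := hS.exists_size_le
  have h1 : PT t (fun z => allBits (rr (S z))) := by
    refine PT.allBits' (by fun_prop) (2 * (Q1 + 2)) fun z => ?_
    have h2 := hQ1 z
    rw [size_nat] at h2
    simp only [Polynomial.eval_add, Polynomial.eval_mul, Polynomial.eval_ofNat]
    have h3 := size_pow_le (S z + 1)
    unfold rr
    obtain ⟨m, hm⟩ : ∃ m, Nat.size (S z + 1) = m + 1 :=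
      ⟨Nat.size (S z + 1) - 1, by
        have := Nat.size_pos.mpr (show 0 < S z + 1 by omega); omega⟩
    rw [hm, Nat.add_sub_cancel] at h3
    rw [hm, pow_succ]
    omega
  have h0 : PT t (fun z => decide (ll (n z) (T z) (S z) ≤ Nat.size (K z) - 1)) :=
    PT.decideLe (by fun_prop) (by fun_prop)
  have h2 : PT t (fun z => allBits (cl (decide (ll (n z) (T z) (S z) ≤ Nat.size (K z) - 1))
      (ll (n z) (T z) (S z)))) := by
    refine PT.allBits' (by fun_prop) (Q + 1) fun z => ?_
    have h3 : 2 ^ cl (decide (ll (n z) (T z) (S z) ≤ Nat.size (K z) - 1))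
        (ll (n z) (T z) (S z)) ≤ K z + 1 := by
      unfold cl
      by_cases h : ll (n z) (T z) (S z) ≤ Nat.size (K z) - 1
      · rw [decide_eq_true h, cond_true]
        exact (Nat.pow_le_pow_right (by norm_num) h).trans (size_pow_le _)
      · rw [decide_eq_false h, cond_false]
        simp
    have := hQ z
    rw [size_nat] at this
    simp only [Polynomial.eval_add, Polynomial.eval_one]
    omega
  fun_prop

@[fun_prop]
theorem PT.ngC' (hk : PT t k) (hm : PT t m) (hV : PT t V) (hU : PT t U) (hM : PT t M)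
    (hi : PT t i) (hj : PT t j) (hu : PT t u) (hv : PT t v) :
    PT t (fun z => ngC (k z) (m z) (V z) (U z) (M z) (i z) (j z) (u z) (v z)) := by
  unfold ngC
  have h1 : PT t (fun z => decide (i z < j z)) := PT.decideLt hi hj
  fun_prop

@[fun_prop]
theorem PT.ngs' (hk : PT t k) (hm : PT t m) (hV : PT t V) (hU : PT t U) (hM : PT t M) :
    PT t (fun z => ngs (k z) (m z) (V z) (U z) (M z)) := by
  unfold ngs
  refine PT.flatMap2 (by fun_prop) ?_
  refine PT.flatMap2 (f := fun (z : α × ℕ) j => (List.range (V z.1)).flatMap fun u =>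
    (List.range (V z.1)).flatMap fun v =>
      ngC (k z.1) (m z.1) (V z.1) (U z.1) (M z.1) z.2 j u v) (by fun_prop) ?_
  refine PT.flatMap2 (f := fun (z : (α × ℕ) × ℕ) u =>
    (List.range (V z.1.1)).flatMap fun v =>
      ngC (k z.1.1) (m z.1.1) (V z.1.1) (U z.1.1) (M z.1.1) z.1.2 z.2 u v) (by fun_prop) ?_
  exact PT.flatMap2 (f := fun (z : ((α × ℕ) × ℕ) × ℕ) v =>
      ngC (k z.1.1.1) (m z.1.1.1) (V z.1.1.1) (U z.1.1.1) (M z.1.1.1) z.1.1.2 z.1.2 z.2 v)
    (by fun_prop) (by fun_prop)

@[fun_prop]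
theorem PT.redH' (hK : PT t K) (hk : PT t k) (hm : PT t m) (hT : PT t T) (hS : PT t S)
    (hp : PT t p) (hF : PT t F) (hG : PT t G) :
    PT t (fun z => redH (K z) (k z) (m z) (T z) (S z) (p z) (F z) (G z)) := by
  unfold redH; fun_prop

@[fun_prop]
theorem PT.gm' (hK : PT t K) (hm : PT t m) : PT t (fun z => gm (K z) (m z)) := by
  unfold gm
  have h1 : PT t (fun z => decide (m z ≤ Nat.size (K z) - 1)) := PT.decideLe hm (by fun_prop)
  fun_prop

theorem gm_le (K m : ℕ) : 2 ^ gm K m ≤ K + 1 := by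
  unfold gm cl
  by_cases h : m ≤ Nat.size K - 1
  · rw [decide_eq_true h, cond_true]
    exact (Nat.pow_le_pow_right (by norm_num) h).trans (size_pow_le _)
  · rw [decide_eq_false h, cond_false]
    simp

@[fun_prop]
theorem PT.redN' (hK : PT t K) (hk : PT t k) (hm : PT t m) (hT : PT t T) (hS : PT t S)
    (hx : PT t x) : PT t (fun z => redN (K z) (k z) (m z) (T z) (S z) (x z)) := by
  unfold redN
  obtain ⟨Q, hQ⟩ := hK.exists_size_le
  have h1 : PT t (fun z => allBits (gm (K z) (m z))) := by
    refine PT.allBits' (by fun_prop) (Q + 1) fun z => (gm_le _ _).trans ?_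
    have := hQ z
    rw [size_nat] at this
    simp only [Polynomial.eval_add, Polynomial.eval_one]
    omega
  have h2 : PT t (fun z => 2 ^ gm (K z) (m z)) := by
    refine PT.of_eq (PT.length' h1) fun z => ?_
    rw [length_allBits]
  have h3 : PT t (fun z => (rst (x z) (5 + 3 * S z)).drop
      (k z * k z * 2 ^ gm (K z) (m z) * 2 ^ gm (K z) (m z))) := by
    refine PT.drop' ?_ (by fun_prop)
    exact PT.mul' (PT.mul' (by fun_prop) h2) h2
  have h4 : PT t (fun z => ngs (k z) (m z) (2 ^ gm (K z) (m z)) (allBits (gm (K z) (m z)))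
      (rst (x z) (5 + 3 * S z))) := PT.ngs' hk hm h2 h1 (by fun_prop)
  exact PT.redH' hK hk hm hT hS (by fun_prop) (PT.FL' (by fun_prop) h3) h4

theorem PT.red2' : PT t red2 := by
  unfold red2
  fun_prop

end PT

theorem red2_mem_FP : red2 ∈ FP := mem_FP_iff.mpr PT.red2'

end Pool.Agent.H87.CNF
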