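import Mathlib

/-!
# Incidences of lines and points, and the Hall condition
-/

namespace Pool.Agent.H87.CNF

open Finset

variable {J Λ Φ : Type} [DecidableEq J] [DecidableEq Λ] [DecidableEq Φ]

/-- **Few incidences.** If two distinct lines have at most one common point, then a set `E` of
incidences satisfies `|E|^2 ≤ |points| (|E| + |lines|^2)`. -/
theorem incid_bound {lin : J → Λ} {pnt : J → Φ}
    (h0 : ∀ e e', lin e = lin e' → pnt e = pnt e' → e = e')
    (h3 : ∀ e₁ e₂ e₃ e₄, lin e₁ = lin e₂ → lin e₃ = lin e₄ → pnt e₁ = pnt e₃ →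
      pnt e₂ = pnt e₄ → lin e₁ ≠ lin e₃ → pnt e₁ = pnt e₂) (E : Finset J) :
    E.card ^ 2 ≤ (E.image pnt).card * (E.card + (E.image lin).card ^ 2) := by
  have h1 : E.card = ∑ b ∈ E.image pnt, (E.filter fun e => pnt e = b).card :=
    card_eq_sum_card_image pnt E
  have h2 : E.card ^ 2 ≤ (E.image pnt).card *
      ∑ b ∈ E.image pnt, (E.filter fun e => pnt e = b).card ^ 2 := by
    calc E.card ^ 2 = (∑ b ∈ E.image pnt, (E.filter fun e => pnt e = b).card) ^ 2 := by
          rw [← h1]
      _ ≤ _ := sq_sum_le_card_mul_sum_sq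
  refine h2.trans (Nat.mul_le_mul_left _ ?_)
  set Q : Finset (J × J) := (E ×ˢ E).filter fun z => pnt z.1 = pnt z.2 with hQ
  have h4 : ∑ b ∈ E.image pnt, (E.filter fun e => pnt e = b).card ^ 2 = Q.card := by
    rw [card_eq_sum_card_fiberwise (s := Q) (t := E.image pnt) (f := fun z => pnt z.1) (by
      intro z hz
      simp only [hQ, coe_filter, mem_product, Set.mem_ofPred_eq] at hz
      exact mem_coe.mpr (mem_image_of_mem pnt hz.1.1))]
    refine sum_congr rfl fun b _ => ?_
    rw [sq, ← card_product]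
    congr 1
    ext z
    simp only [hQ, mem_filter, mem_product]
    constructor
    · rintro ⟨⟨h5, h6⟩, h7, h8⟩
      exact ⟨⟨⟨h5, h7⟩, h6.trans h8.symm⟩, h6⟩
    · rintro ⟨⟨⟨h5, h7⟩, h6⟩, h8⟩
      exact ⟨⟨h5, h8⟩, h7, h6.symm.trans h8⟩
  rw [h4]
  have h5 : Q = (Q.filter fun z => z.1 = z.2) ∪ (Q.filter fun z => ¬ z.1 = z.2) :=
    (filter_union_filter_not_eq _ _).symm
  rw [h5]
  refine (card_union_le _ _).trans (Nat.add_le_add ?_ ?_)
  · refine card_le_card_of_injOn (fun z => z.1) ?_ ?_
    · intro z hz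
      simp only [hQ, coe_filter, mem_filter, mem_product, Set.mem_ofPred_eq] at hz
      exact mem_coe.mpr hz.1.1.1
    · intro z hz z' hz' hzz
      simp only [hQ, coe_filter, mem_filter, mem_product, Set.mem_ofPred_eq] at hz hz'
      exact Prod.ext hzz (hz.2.symm.trans (hzz.trans hz'.2))
  · rw [sq, ← card_product]
    refine card_le_card_of_injOn (fun z => (lin z.1, lin z.2)) ?_ ?_
    · intro z hz
      simp only [hQ, coe_filter, mem_filter, mem_product, Set.mem_ofPred_eq] at hz
      exact mem_coe.mpr (mem_product.mpr ⟨mem_image_of_mem lin hz.1.1.1,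
        mem_image_of_mem lin hz.1.1.2⟩)
    · intro z hz z' hz' hzz
      simp only [hQ, coe_filter, mem_filter, mem_product, Set.mem_ofPred_eq] at hz hz'
      simp only [Prod.mk.injEq] at hzz
      have h6 : lin z.1 ≠ lin z.2 := fun h => hz.2 (h0 _ _ h hz.1.2)
      have h7 : pnt z.1 = pnt z'.1 := h3 _ _ _ _ hzz.1 hzz.2 hz.1.2 hz'.1.2 h6
      refine Prod.ext (h0 _ _ hzz.1 h7) (h0 _ _ hzz.2 ?_)
      rw [← hz.1.2, ← hz'.1.2, h7]

/-- Half of the elements of a small set of incidences have a light line or a light point. -/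
theorem heavy_le {lin : J → Λ} {pnt : J → Φ}
    (h0 : ∀ e e', lin e = lin e' → pnt e = pnt e' → e = e')
    (h3 : ∀ e₁ e₂ e₃ e₄, lin e₁ = lin e₂ → lin e₃ = lin e₄ → pnt e₁ = pnt e₃ →
      pnt e₂ = pnt e₄ → lin e₁ ≠ lin e₃ → pnt e₁ = pnt e₂) {h : ℕ} (hh : 4 ≤ h)
    (P : Finset J) (hP : 8 * P.card ≤ h ^ 3) :
    2 * (P.filter fun e => h < (P.filter fun e' => lin e' = lin e).card ∧
      h < (P.filter fun e' => pnt e' = pnt e).card).card ≤ P.card := by
  set E := P.filter fun e => h < (P.filter fun e' => lin e' = lin e).card ∧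
      h < (P.filter fun e' => pnt e' = pnt e).card with hE
  have hA : (E.image lin).card * h ≤ P.card := by
    calc (E.image lin).card * h ≤ ∑ l ∈ E.image lin, (P.filter fun e' => lin e' = l).card := by
          rw [← smul_eq_mul]
          refine card_nsmul_le_sum _ _ _ fun l hl => ?_
          obtain ⟨e, he, rfl⟩ := mem_image.mp hl
          simp only [hE, mem_filter] at he
          exact he.2.1.le
      _ ≤ ∑ l ∈ P.image lin, (P.filter fun e' => lin e' = l).card :=
          sum_le_sum_of_subset (image_subset_image (filter_subset _ _))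
      _ = P.card := (card_eq_sum_card_image lin P).symm
  have hB : (E.image pnt).card * h ≤ P.card := by
    calc (E.image pnt).card * h ≤ ∑ l ∈ E.image pnt, (P.filter fun e' => pnt e' = l).card := by
          rw [← smul_eq_mul]
          refine card_nsmul_le_sum _ _ _ fun l hl => ?_
          obtain ⟨e, he, rfl⟩ := mem_image.mp hl
          simp only [hE, mem_filter] at he
          exact he.2.2.le
      _ ≤ ∑ l ∈ P.image pnt, (P.filter fun e' => pnt e' = l).card :=
          sum_le_sum_of_subset (image_subset_image (filter_subset _ _))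
      _ = P.card := (card_eq_sum_card_image pnt P).symm
  have hI := incid_bound h0 h3 E
  generalize hx : E.card = x at *
  generalize (E.image lin).card = a at *
  generalize (E.image pnt).card = b at *
  generalize P.card = k at *
  by_contra hcon
  have hcon' : k < 2 * x := by omega
  have hk : 0 < x := by omega
  -- h^3 x^2 ≤ h^2 k x + k^3
  have e1 : h ^ 3 * x ^ 2 ≤ h ^ 2 * k * x + k ^ 3 := by
    calc h ^ 3 * x ^ 2 ≤ h ^ 3 * (b * (x + a ^ 2)) := Nat.mul_le_mul_left _ hI
      _ = h ^ 2 * (b * h) * x + (b * h) * (a * h) ^ 2 := by ring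
      _ ≤ h ^ 2 * k * x + k * k ^ 2 := by gcongr
      _ = h ^ 2 * k * x + k ^ 3 := by ring
  -- contradiction
  have e2 : 8 * (h ^ 2 * k * x) + 8 * k ^ 3 < 8 * (h ^ 3 * x ^ 2) := by
    have e3 : 8 * k ^ 3 ≤ h ^ 3 * k ^ 2 := by
      calc 8 * k ^ 3 = (8 * k) * k ^ 2 := by ring
        _ ≤ h ^ 3 * k ^ 2 := Nat.mul_le_mul_right _ hP
    have e4 : 8 * (h ^ 2 * k * x) ≤ 2 * (h ^ 3 * (k * x)) := by
      calc 8 * (h ^ 2 * k * x) = 2 * (4 * (h ^ 2 * (k * x))) := by ring
        _ ≤ 2 * (h * (h ^ 2 * (k * x))) := by gcongr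
        _ = 2 * (h ^ 3 * (k * x)) := by ring
    have e5 : h ^ 3 * k ^ 2 + 2 * (h ^ 3 * (k * x)) < 8 * (h ^ 3 * x ^ 2) := by
      have h8 : 0 < h ^ 3 := pow_pos (by omega) 3
      have e6 : k ^ 2 + 2 * (k * x) < 8 * x ^ 2 := by nlinarith
      calc h ^ 3 * k ^ 2 + 2 * (h ^ 3 * (k * x)) = h ^ 3 * (k ^ 2 + 2 * (k * x)) := by ring
        _ < h ^ 3 * (8 * x ^ 2) := Nat.mul_lt_mul_of_pos_left e6 h8
        _ = 8 * (h ^ 3 * x ^ 2) := by ring
    omega
  omega

/-- The eight buckets of an incidence. -/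
def nbr {q m : ℕ} (lin : J → Λ) (pnt : J → Φ) (labL labP : J → Fin q)
    (Γ : Fin q → Fin 4 → Fin m) (e : J) : Finset ((Λ ⊕ Φ) × Fin 4 × Fin m) :=
  (Finset.univ.image fun i => (Sum.inl (lin e), i, Γ (labL e) i)) ∪
    (Finset.univ.image fun i => (Sum.inr (pnt e), i, Γ (labP e) i))

/-- The Hall condition for small sets of incidences. -/
theorem hall_cond {q m h : ℕ} {lin : J → Λ} {pnt : J → Φ} {labL labP : J → Fin q}
    {Γ : Fin q → Fin 4 → Fin m}
    (h0 : ∀ e e', lin e = lin e' → pnt e = pnt e' → e = e')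
    (h1 : ∀ e e', lin e = lin e' → labL e = labL e' → e = e')
    (h2 : ∀ e e', pnt e = pnt e' → labP e = labP e' → e = e')
    (h3 : ∀ e₁ e₂ e₃ e₄, lin e₁ = lin e₂ → lin e₃ = lin e₄ → pnt e₁ = pnt e₃ →
      pnt e₂ = pnt e₄ → lin e₁ ≠ lin e₃ → pnt e₁ = pnt e₂) (hh : 4 ≤ h)
    (hΓ : ∀ R : Finset (Fin q), R.card ≤ h →
      2 * R.card ≤ (R.biUnion fun l => Finset.univ.image (Γ l)).card)
    (P : Finset J) (hP : 8 * P.card ≤ h ^ 3) :
    P.card ≤ (P.biUnion (nbr lin pnt labL labP Γ)).card := by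
  set U := P.biUnion (nbr lin pnt labL labP Γ) with hU
  set LL := (P.image lin).filter fun l => (P.filter fun e => lin e = l).card ≤ h with hLL
  set LP := (P.image pnt).filter fun p => (P.filter fun e => pnt e = p).card ≤ h with hLP
  -- the part of `U` at a light line
  have hl : ∀ l ∈ LL, 2 * (P.filter fun e => lin e = l).card ≤
      (U.filter fun u => u.1 = Sum.inl l).card := by
    intro l hl
    simp only [hLL, mem_filter] at hl
    have hc : ((P.filter fun e => lin e = l).image labL).card =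
        (P.filter fun e => lin e = l).card := by
      refine card_image_of_injOn ?_
      intro e he e' he' hee
      simp only [coe_filter, Set.mem_ofPred_eq] at he he'
      exact h1 _ _ (he.2.trans he'.2.symm) hee
    have := hΓ ((P.filter fun e => lin e = l).image labL) (by rw [hc]; exact hl.2)
    rw [hc] at this
    refine this.trans ?_
    refine (card_le_card (t := (U.filter fun u => u.1 = Sum.inl l).image fun u => u.2.2)
      ?_).trans card_image_le
    intro g hg
    simp only [mem_biUnion, mem_image, mem_filter, mem_univ, true_and] at hg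
    obtain ⟨-, ⟨e, ⟨he1, he2⟩, rfl⟩, i, rfl⟩ := hg
    refine mem_image.mpr ⟨(Sum.inl l, i, Γ (labL e) i), ?_, rfl⟩
    refine mem_filter.mpr ⟨?_, rfl⟩
    rw [hU]
    refine mem_biUnion.mpr ⟨e, he1, ?_⟩
    unfold nbr
    rw [mem_union]
    left
    exact mem_image.mpr ⟨i, mem_univ _, by rw [he2]⟩
  have hp : ∀ p ∈ LP, 2 * (P.filter fun e => pnt e = p).card ≤
      (U.filter fun u => u.1 = Sum.inr p).card := by
    intro l hl
    simp only [hLP, mem_filter] at hl
    have hc : ((P.filter fun e => pnt e = l).image labP).card =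
        (P.filter fun e => pnt e = l).card := by
      refine card_image_of_injOn ?_
      intro e he e' he' hee
      simp only [coe_filter, Set.mem_ofPred_eq] at he he'
      exact h2 _ _ (he.2.trans he'.2.symm) hee
    have := hΓ ((P.filter fun e => pnt e = l).image labP) (by rw [hc]; exact hl.2)
    rw [hc] at this
    refine this.trans ?_
    refine (card_le_card (t := (U.filter fun u => u.1 = Sum.inr l).image fun u => u.2.2)
      ?_).trans card_image_le
    intro g hg
    simp only [mem_biUnion, mem_image, mem_filter, mem_univ, true_and] at hg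
    obtain ⟨-, ⟨e, ⟨he1, he2⟩, rfl⟩, i, rfl⟩ := hg
    refine mem_image.mpr ⟨(Sum.inr l, i, Γ (labP e) i), ?_, rfl⟩
    refine mem_filter.mpr ⟨?_, rfl⟩
    rw [hU]
    refine mem_biUnion.mpr ⟨e, he1, ?_⟩
    unfold nbr
    rw [mem_union]
    right
    exact mem_image.mpr ⟨i, mem_univ _, by rw [he2]⟩
  -- sum over the light vertices
  have hsum : ∑ v ∈ LL.disjSum LP, (U.filter fun u => u.1 = v).card ≤ U.card := by
    have h5 := card_eq_sum_card_fiberwise (s := U.filter fun u => u.1 ∈ LL.disjSum LP)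
      (t := LL.disjSum LP) (f := fun u => u.1) (by
        intro u hu
        simp only [coe_filter, Set.mem_ofPred_eq] at hu
        exact mem_coe.mpr hu.2)
    have h6 : ∑ v ∈ LL.disjSum LP, (U.filter fun u => u.1 = v).card =
        (U.filter fun u => u.1 ∈ LL.disjSum LP).card := by
      rw [h5]
      refine sum_congr rfl fun v hv => ?_
      congr 1
      ext u
      simp only [mem_filter]
      constructor
      · rintro ⟨a, b⟩
        exact ⟨⟨a, by rw [b]; exact hv⟩, b⟩
      · rintro ⟨⟨a, -⟩, b⟩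
        exact ⟨a, b⟩
    rw [h6]
    exact card_filter_le _ _
  rw [sum_disjSum] at hsum
  have h7 : (P.filter fun e => lin e ∈ LL).card = ∑ l ∈ LL, (P.filter fun e => lin e = l).card := by
    rw [card_eq_sum_card_fiberwise (s := P.filter fun e => lin e ∈ LL) (t := LL) (f := lin) (by
      intro u hu
      simp only [coe_filter, Set.mem_ofPred_eq] at hu
      exact mem_coe.mpr hu.2)]
    refine sum_congr rfl fun v hv => ?_
    congr 1
    ext u
    simp only [mem_filter]
    constructor
    · rintro ⟨⟨a, -⟩, b⟩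
      exact ⟨a, b⟩
    · rintro ⟨a, b⟩
      exact ⟨⟨a, by rw [b]; exact hv⟩, b⟩
  have h8 : (P.filter fun e => pnt e ∈ LP).card = ∑ l ∈ LP, (P.filter fun e => pnt e = l).card := by
    rw [card_eq_sum_card_fiberwise (s := P.filter fun e => pnt e ∈ LP) (t := LP) (f := pnt) (by
      intro u hu
      simp only [coe_filter, Set.mem_ofPred_eq] at hu
      exact mem_coe.mpr hu.2)]
    refine sum_congr rfl fun v hv => ?_
    congr 1
    ext u
    simp only [mem_filter]
    constructor
    · rintro ⟨⟨a, -⟩, b⟩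
      exact ⟨a, b⟩
    · rintro ⟨a, b⟩
      exact ⟨⟨a, by rw [b]; exact hv⟩, b⟩
  have h9 : P ⊆ (P.filter fun e => lin e ∈ LL) ∪ ((P.filter fun e => pnt e ∈ LP) ∪
      (P.filter fun e => h < (P.filter fun e' => lin e' = lin e).card ∧
        h < (P.filter fun e' => pnt e' = pnt e).card)) := by
    intro e he
    simp only [mem_union, mem_filter, hLL, hLP, he, true_and, mem_image_of_mem]
    by_cases c1 : (P.filter fun e' => lin e' = lin e).card ≤ h
    · exact Or.inl c1
    · by_cases c2 : (P.filter fun e' => pnt e' = pnt e).card ≤ h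
      · exact Or.inr (Or.inl c2)
      · exact Or.inr (Or.inr ⟨by omega, by omega⟩)
  have h10 := (card_le_card h9).trans ((card_union_le _ _).trans
    (Nat.add_le_add_left (card_union_le _ _) _))
  have h11 := heavy_le h0 h3 hh P hP
  have h12 : ∑ l ∈ LL, 2 * (P.filter fun e => lin e = l).card ≤
      ∑ l ∈ LL, (U.filter fun u => u.1 = Sum.inl l).card := sum_le_sum hl
  have h13 : ∑ l ∈ LP, 2 * (P.filter fun e => pnt e = l).card ≤
      ∑ l ∈ LP, (U.filter fun u => u.1 = Sum.inr l).card := sum_le_sum hp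
  rw [← mul_sum, ← h7] at h12
  rw [← mul_sum, ← h8] at h13
  omega

/-- Distinct buckets for the elements of a small set of incidences. -/
theorem exists_choice {q m h : ℕ} {lin : J → Λ} {pnt : J → Φ} {labL labP : J → Fin q}
    {Γ : Fin q → Fin 4 → Fin m}
    (h0 : ∀ e e', lin e = lin e' → pnt e = pnt e' → e = e')
    (h1 : ∀ e e', lin e = lin e' → labL e = labL e' → e = e')
    (h2 : ∀ e e', pnt e = pnt e' → labP e = labP e' → e = e')
    (h3 : ∀ e₁ e₂ e₃ e₄, lin e₁ = lin e₂ → lin e₃ = lin e₄ → pnt e₁ = pnt e₃ →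
      pnt e₂ = pnt e₄ → lin e₁ ≠ lin e₃ → pnt e₁ = pnt e₂) (hh : 4 ≤ h)
    (hΓ : ∀ R : Finset (Fin q), R.card ≤ h →
      2 * R.card ≤ (R.biUnion fun l => Finset.univ.image (Γ l)).card)
    (P : Finset J) (hP : 8 * P.card ≤ h ^ 3) :
    ∃ f : P → (Λ ⊕ Φ) × Fin 4 × Fin m, Function.Injective f ∧
      ∀ e : P, f e ∈ nbr lin pnt labL labP Γ e := by
  refine (Finset.all_card_le_biUnion_card_iff_exists_injective
    (fun e : P => nbr lin pnt labL labP Γ e)).mp fun s => ?_
  have h4 := hall_cond (lin := lin) (pnt := pnt) (labL := labL) (labP := labP) (Γ := Γ)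
    h0 h1 h2 h3 hh hΓ (s.map (Function.Embedding.subtype _)) (by
      rw [card_map]
      have : s.card ≤ P.card := by
        have := card_le_univ s
        simpa using this
      omega)
  rw [card_map] at h4
  refine h4.trans (card_le_card ?_)
  intro u hu
  simp only [mem_biUnion, mem_map, Function.Embedding.subtype_apply] at hu ⊢
  obtain ⟨e, ⟨e', he', rfl⟩, hu⟩ := hu
  exact ⟨e', he', hu⟩

end Pool.Agent.H87.CNF
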