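import Pool.Agent.H87.CNF.Core
import Pool.Agent.H87.CNF.Hall

/-!
# The buckets of the copies of the positions, as numbers

The positions are the incidences `e < q ^ 3` of the lines `v = c + sl * u` and the points of
the affine plane mod `q`; every position has eight copies.
-/

namespace Pool.Agent.H87.CNF

open Finset

theorem mul_add_inj {m a b g g' : ℕ} (h1 : g < m) (h2 : g' < m)
    (h : a * m + g = b * m + g') : a = b ∧ g = g' := by
  have hab : a = b := by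
    rcases Nat.lt_trichotomy a b with hlt | heq | hlt
    · exfalso
      have : (a + 1) * m ≤ b * m := Nat.mul_le_mul_right _ hlt
      rw [Nat.add_mul, Nat.one_mul] at this
      omega
    · exact heq
    · exfalso
      have : (b + 1) * m ≤ a * m := Nat.mul_le_mul_right _ hlt
      rw [Nat.add_mul, Nat.one_mul] at this
      omega
  subst hab
  exact ⟨rfl, by omega⟩

/-- first coordinate of the point of `e` -/
def ex (q e : ℕ) : ℕ := e / (q * q)

/-- slope of the line of `e` -/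
def esl (q e : ℕ) : ℕ := e / q % q

/-- number of the line of `e` -/
def elin (q e : ℕ) : ℕ := e % (q * q)

/-- number of the point of `e` -/
def epnt (q e : ℕ) : ℕ := ex q e * q + (esl q e * ex q e + e % q) % q

/-- The bucket of the copy `y` of the position `y / 8`. -/
def hbk (q m : ℕ) (Γ : List ℕ) (y : ℕ) : ℕ :=
  ((bif decide (y % 8 < 4) then elin q (y / 8) else q * q + epnt q (y / 8)) * 4 + y % 4) * m +
    Γ.getD ((bif decide (y % 8 < 4) then ex q (y / 8) else esl q (y / 8)) * 4 + y % 4) 0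

theorem elin_lt {q : ℕ} (hq : 0 < q) (e : ℕ) : elin q e < q * q :=
  Nat.mod_lt _ (Nat.mul_pos hq hq)

theorem ex_lt {q e : ℕ} (he : e < q ^ 3) : ex q e < q := by
  unfold ex
  rw [Nat.div_lt_iff_lt_mul]
  · calc e < q ^ 3 := he
      _ = q * (q * q) := by ring
  · rcases Nat.eq_zero_or_pos q with h | h
    · subst h; simp at he
    · exact Nat.mul_pos h h

theorem esl_lt {q : ℕ} (hq : 0 < q) (e : ℕ) : esl q e < q := Nat.mod_lt _ hq

theorem epnt_lt {q e : ℕ} (he : e < q ^ 3) : epnt q e < q * q := by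
  have hq : 0 < q := by
    rcases Nat.eq_zero_or_pos q with h | h
    · subst h; simp at he
    · exact h
  have h1 := ex_lt he
  have h2 : (esl q e * ex q e + e % q) % q < q := Nat.mod_lt _ hq
  unfold epnt
  nlinarith

theorem elin_eq {q : ℕ} (_hq : 0 < q) (e : ℕ) : elin q e = esl q e * q + e % q := by
  unfold elin esl
  rw [Nat.mod_mul]
  ring

theorem eq_of_ex_elin {q e e' : ℕ} (h1 : ex q e = ex q e') (h2 : elin q e = elin q e') :
    e = e' := by
  unfold ex elin at *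
  rw [← Nat.div_add_mod e (q * q), ← Nat.div_add_mod e' (q * q), h1, h2]

theorem esl_of_elin {q e e' : ℕ} (hq : 0 < q) (h : elin q e = elin q e') :
    esl q e = esl q e' ∧ e % q = e' % q := by
  rw [elin_eq hq, elin_eq hq] at h
  have h1 : e % q < q := Nat.mod_lt _ hq
  have h2 : e' % q < q := Nat.mod_lt _ hq
  exact mul_add_inj h1 h2 h

theorem ex_of_epnt {q e e' : ℕ} (hq : 0 < q) (h : epnt q e = epnt q e') :
    ex q e = ex q e' ∧
      (esl q e * ex q e + e % q) % q = (esl q e' * ex q e' + e' % q) % q := by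
  unfold epnt at h
  have h1 : (esl q e * ex q e + e % q) % q < q := Nat.mod_lt _ hq
  have h2 : (esl q e' * ex q e' + e' % q) % q < q := Nat.mod_lt _ hq
  exact mul_add_inj h1 h2 h

theorem eq_of_lin_pnt {q e e' : ℕ} (hq : 0 < q) (h1 : elin q e = elin q e')
    (h2 : epnt q e = epnt q e') : e = e' :=
  eq_of_ex_elin (ex_of_epnt hq h2).1 h1

theorem eq_of_pnt_sl {q e e' : ℕ} (hq : 0 < q) (h1 : epnt q e = epnt q e')
    (h2 : esl q e = esl q e') : e = e' := by
  obtain ⟨h3, h4⟩ := ex_of_epnt hq h1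
  refine eq_of_ex_elin h3 ?_
  rw [elin_eq hq, elin_eq hq, h2]
  congr 1
  rw [h2, h3] at h4
  have h5 : e % q ≡ e' % q [MOD q] := Nat.ModEq.add_left_cancel' _ h4
  rw [Nat.ModEq, Nat.mod_mod, Nat.mod_mod] at h5
  exact h5

/-- Two distinct lines have at most one common point. -/
theorem two_lines {q : ℕ} (hq : q.Prime) {e₁ e₂ e₃ e₄ : ℕ} (he1 : e₁ < q ^ 3)
    (he2 : e₂ < q ^ 3) (h1 : elin q e₁ = elin q e₂)
    (h2 : elin q e₃ = elin q e₄) (h3 : epnt q e₁ = epnt q e₃) (h4 : epnt q e₂ = epnt q e₄)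
    (h5 : elin q e₁ ≠ elin q e₃) : epnt q e₁ = epnt q e₂ := by
  have hq0 := hq.pos
  have : Fact q.Prime := ⟨hq⟩
  obtain ⟨a1, a2⟩ := esl_of_elin hq0 h1
  obtain ⟨b1, b2⟩ := esl_of_elin hq0 h2
  obtain ⟨c1, c2⟩ := ex_of_epnt hq0 h3
  obtain ⟨d1, d2⟩ := ex_of_epnt hq0 h4
  have key : ex q e₁ = ex q e₂ := by
    have f1 : ((esl q e₁ * ex q e₁ + e₁ % q : ℕ) : ZMod q) =
        ((esl q e₃ * ex q e₃ + e₃ % q : ℕ) : ZMod q) := (ZMod.natCast_eq_natCast_iff' _ _ _).mpr c2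
    have f2 : ((esl q e₂ * ex q e₂ + e₂ % q : ℕ) : ZMod q) =
        ((esl q e₄ * ex q e₄ + e₄ % q : ℕ) : ZMod q) := (ZMod.natCast_eq_natCast_iff' _ _ _).mpr d2
    rw [← c1] at f1
    rw [← d1, ← a1, ← a2, ← b1, ← b2] at f2
    push_cast at f1 f2
    have f3 : ((esl q e₁ : ZMod q) - esl q e₃) * ((ex q e₁ : ZMod q) - ex q e₂) = 0 := by
      linear_combination f1 - f2
    rcases mul_eq_zero.mp f3 with f4 | f4
    · exfalso
      apply h5
      have g1 : (esl q e₁ : ZMod q) = esl q e₃ := sub_eq_zero.mp f4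
      have g2 : esl q e₁ = esl q e₃ := by
        have := (ZMod.natCast_eq_natCast_iff' _ _ _).mp g1
        rwa [Nat.mod_eq_of_lt (esl_lt hq0 _), Nat.mod_eq_of_lt (esl_lt hq0 _)] at this
      have g3 : ((e₁ % q : ℕ) : ZMod q) = ((e₃ % q : ℕ) : ZMod q) := by
        rw [← g1] at f1
        exact add_left_cancel f1
      have g4 : e₁ % q = e₃ % q := by
        have := (ZMod.natCast_eq_natCast_iff' _ _ _).mp g3
        rwa [Nat.mod_mod, Nat.mod_mod] at this
      rw [elin_eq hq0, elin_eq hq0, g2, g4]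
    · have g1 : (ex q e₁ : ZMod q) = ex q e₂ := sub_eq_zero.mp f4
      have := (ZMod.natCast_eq_natCast_iff' _ _ _).mp g1
      rwa [Nat.mod_eq_of_lt (ex_lt he1), Nat.mod_eq_of_lt (ex_lt he2)] at this
  rw [eq_of_ex_elin key h1]

/-! ### Buckets -/

/-- number of the vertex of the copy `y` -/
def yvx (q y : ℕ) : ℕ :=
  bif decide (y % 8 < 4) then elin q (y / 8) else q * q + epnt q (y / 8)

theorem hbk_eq (q m : ℕ) (Γ : List ℕ) (y : ℕ) : hbk q m Γ y = (yvx q y * 4 + y % 4) * m +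
    Γ.getD ((bif decide (y % 8 < 4) then ex q (y / 8) else esl q (y / 8)) * 4 + y % 4) 0 := rfl

theorem yvx_lt {q y : ℕ} (hy : y < 8 * q ^ 3) : yvx q y < 2 * (q * q) := by
  have h1 : y / 8 < q ^ 3 := by omega
  have hq : 0 < q := by
    rcases Nat.eq_zero_or_pos q with h | h
    · subst h; simp at hy
    · exact h
  unfold yvx
  by_cases h : y % 8 < 4
  · rw [decide_eq_true h, cond_true]
    have := elin_lt hq (y / 8)
    omega
  · rw [decide_eq_false h, cond_false]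
    have := epnt_lt h1
    omega

theorem hbk_lt {q m y : ℕ} {Γ : List ℕ} (hΓ : ∀ k, Γ.getD k 0 < m) (hy : y < 8 * q ^ 3) :
    hbk q m Γ y < 8 * (q * q) * m := by
  have h1 := yvx_lt hy
  have h2 : y % 4 < 4 := Nat.mod_lt _ (by norm_num)
  rw [hbk_eq]
  have h3 := hΓ ((bif decide (y % 8 < 4) then ex q (y / 8) else esl q (y / 8)) * 4 + y % 4)
  have h4 : yvx q y * 4 + y % 4 + 1 ≤ 8 * (q * q) := by omega
  calc _ < (yvx q y * 4 + y % 4) * m + m := Nat.add_lt_add_left h3 _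
    _ = (yvx q y * 4 + y % 4 + 1) * m := by ring
    _ ≤ 8 * (q * q) * m := Nat.mul_le_mul_right _ h4

theorem hbk_inj {q m y y' : ℕ} {Γ : List ℕ} (hΓ : ∀ k, Γ.getD k 0 < m)
    (h : hbk q m Γ y = hbk q m Γ y') : yvx q y = yvx q y' ∧ y % 4 = y' % 4 ∧
      Γ.getD ((bif decide (y % 8 < 4) then ex q (y / 8) else esl q (y / 8)) * 4 + y % 4) 0 =
      Γ.getD ((bif decide (y' % 8 < 4) then ex q (y' / 8) else esl q (y' / 8)) * 4 + y' % 4) 0 := by
  rw [hbk_eq, hbk_eq] at h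
  have h1 := hΓ ((bif decide (y % 8 < 4) then ex q (y / 8) else esl q (y / 8)) * 4 + y % 4)
  have h2 := hΓ ((bif decide (y' % 8 < 4) then ex q (y' / 8) else esl q (y' / 8)) * 4 + y' % 4)
  generalize Γ.getD ((bif decide (y % 8 < 4) then ex q (y / 8) else esl q (y / 8)) * 4 +
    y % 4) 0 = g at *
  generalize Γ.getD ((bif decide (y' % 8 < 4) then ex q (y' / 8) else esl q (y' / 8)) * 4 +
    y' % 4) 0 = g' at *
  obtain ⟨h3, h6⟩ := mul_add_inj h1 h2 h
  have h4 : y % 4 < 4 := Nat.mod_lt _ (by norm_num)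
  have h5 : y' % 4 < 4 := Nat.mod_lt _ (by norm_num)
  exact ⟨by omega, by omega, h6⟩

theorem hbk_inj_pos {q m y y' : ℕ} {Γ : List ℕ} (hΓ : ∀ k, Γ.getD k 0 < m)
    (hy : y < 8 * q ^ 3) (h0 : y / 8 = y' / 8) (h : hbk q m Γ y = hbk q m Γ y') : y = y' := by
  obtain ⟨h1, h2, -⟩ := hbk_inj hΓ h
  have hq : 0 < q := by
    rcases Nat.eq_zero_or_pos q with h | h
    · subst h; simp at hy
    · exact h
  have h3 := elin_lt hq (y / 8)
  have h4 : (y % 8 < 4 ↔ y' % 8 < 4) := by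
    unfold yvx at h1
    rw [← h0] at h1
    constructor
    · intro h5
      by_contra h6
      rw [decide_eq_true h5, decide_eq_false h6, cond_true, cond_false] at h1
      omega
    · intro h5
      by_contra h6
      rw [decide_eq_true h5, decide_eq_false h6, cond_true, cond_false] at h1
      omega
  omega

/-- Distinct buckets for the chosen copies of few positions. -/
theorem exists_strict {q m h A : ℕ} {Γ : List ℕ} (hq : q.Prime) (hh : 4 ≤ h)
    (hΓm : ∀ k, Γ.getD k 0 < m)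
    (hΓ : ∀ R : Finset (Fin q), R.card ≤ h → 2 * R.card ≤ (R.biUnion fun l =>
      Finset.univ.image fun i : Fin 4 => (⟨Γ.getD (l * 4 + i) 0, hΓm _⟩ : Fin m)).card)
    (G : Fin (q ^ 3) → Fin A → Bool) (P : Finset (Fin (q ^ 3)))
    (hP : ∀ j v, G j v = true → j ∈ P) (hPc : 8 * P.card ≤ h ^ 3) :
    ∃ σ : ℕ → Bool, (∀ y y', y < 8 * q ^ 3 → y' < 8 * q ^ 3 → σ y = true → σ y' = true →
      hbk q m Γ y = hbk q m Γ y' → y = y') ∧
      ∀ j v, G j v = true → ∃ y < 8 * q ^ 3, σ y = true ∧ y / 8 = j.1 := by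
  classical
  have hq0 := hq.pos
  obtain ⟨f, hf, hfn⟩ := exists_choice (J := Fin (q ^ 3)) (lin := fun e => elin q e)
    (pnt := fun e => epnt q e) (labL := fun e => (⟨ex q e, ex_lt e.2⟩ : Fin q))
    (labP := fun e => (⟨esl q e, esl_lt hq0 e⟩ : Fin q))
    (Γ := fun l i => (⟨Γ.getD (l * 4 + i) 0, hΓm _⟩ : Fin m)) (h := h)
    (fun e e' h1 h2 => Fin.ext (eq_of_lin_pnt hq0 h1 h2))
    (fun e e' h1 h2 => Fin.ext (eq_of_ex_elin (by simpa using h2) h1))
    (fun e e' h1 h2 => Fin.ext (eq_of_pnt_sl hq0 h1 (by simpa using h2)))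
    (fun e₁ e₂ e₃ e₄ h1 h2 h3 h4 h5 => two_lines hq e₁.2 e₂.2 h1 h2 h3 h4 h5) hh hΓ P hPc
  -- the chosen copy
  have hy : ∀ e : P, ∃ y : ℕ, y / 8 = (e : Fin (q ^ 3)).1 ∧
      (((y % 8 < 4) ∧ ∃ i : Fin 4, y % 4 = i.1 ∧ f e = (Sum.inl (elin q (e : Fin (q ^ 3)).1), i,
        (⟨Γ.getD (ex q (e : Fin (q ^ 3)).1 * 4 + i) 0, hΓm _⟩ : Fin m))) ∨
      ((¬ y % 8 < 4) ∧ ∃ i : Fin 4, y % 4 = i.1 ∧ f e = (Sum.inr (epnt q (e : Fin (q ^ 3)).1), i,
        (⟨Γ.getD (esl q (e : Fin (q ^ 3)).1 * 4 + i) 0, hΓm _⟩ : Fin m)))) := by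
    intro e
    have h1 := hfn e
    unfold nbr at h1
    rw [mem_union, mem_image, mem_image] at h1
    rcases h1 with ⟨i, -, h1⟩ | ⟨i, -, h1⟩
    · refine ⟨8 * (e : Fin (q ^ 3)).1 + i.1, by omega, Or.inl ⟨by omega, i, by omega, h1.symm⟩⟩
    · refine ⟨8 * (e : Fin (q ^ 3)).1 + (4 + i.1), by omega,
        Or.inr ⟨by omega, i, by omega, h1.symm⟩⟩
  choose y hy8 hyf using hy
  refine ⟨fun z => decide (∃ e : P, y e = z), ?_, ?_⟩
  · intro z z' _ _ h1 h2 h3
    simp only [decide_eq_true_eq] at h1 h2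
    obtain ⟨e, he⟩ := h1
    obtain ⟨e', he'⟩ := h2
    have h4 : hbk q m Γ (y e) = hbk q m Γ (y e') := by
      rw [he, he']
      exact h3
    obtain ⟨h5, h6, h7⟩ := hbk_inj hΓm h4
    rw [hy8 e, hy8 e'] at h7
    unfold yvx at h5
    rw [hy8 e, hy8 e'] at h5
    have b1 := elin_lt hq0 (e : Fin (q ^ 3)).1
    have b2 := elin_lt hq0 (e' : Fin (q ^ 3)).1
    have hff : f e = f e' := by
      rcases hyf e with ⟨c1, i, c2, c3⟩ | ⟨c1, i, c2, c3⟩ <;>
        rcases hyf e' with ⟨d1, i', d2, d3⟩ | ⟨d1, i', d2, d3⟩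
      · rw [decide_eq_true c1, decide_eq_true d1, cond_true, cond_true] at h5 h7
        have hi : i = i' := Fin.ext (by omega)
        subst hi
        rw [c3, d3]
        refine Prod.ext (by simpa using h5) (Prod.ext rfl (Fin.ext ?_))
        simpa [c2, d2] using h7
      · rw [decide_eq_true c1, decide_eq_false d1, cond_true, cond_false] at h5
        omega
      · rw [decide_eq_false c1, decide_eq_true d1, cond_true, cond_false] at h5
        omega
      · rw [decide_eq_false c1, decide_eq_false d1, cond_false, cond_false] at h5 h7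
        have hi : i = i' := Fin.ext (by omega)
        subst hi
        rw [c3, d3]
        refine Prod.ext ?_ (Prod.ext rfl (Fin.ext ?_))
        · simp only [Sum.inr.injEq]; omega
        · simpa [c2, d2] using h7
    have hee := hf hff
    subst hee
    exact he.symm.trans he'
  · intro j v hjv
    have hjP := hP j v hjv
    have h1 := hy8 ⟨j, hjP⟩
    simp only at h1
    refine ⟨y ⟨j, hjP⟩, by have := j.2; omega, ?_, h1⟩
    simp only [decide_eq_true_eq]
    exact ⟨⟨j, hjP⟩, rfl⟩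

/-! ### Further positions

There are `ℓ` further positions; the copy number `κ` of each of them is in the bucket number
`8 q^2 m + κ`. -/

/-- The bucket of the copy `y`. -/
def hbx (q m : ℕ) (Γ : List ℕ) (y : ℕ) : ℕ :=
  bif decide (y / 8 < q * (q * q)) then hbk q m Γ y else 8 * (q * q) * m + y % 8

theorem q3 (q : ℕ) : q * (q * q) = q ^ 3 := by ring

theorem hbx_lt {q m ℓ y : ℕ} {Γ : List ℕ} (hΓ : ∀ k, Γ.getD k 0 < m)
    (_hy : y < 8 * (q ^ 3 + ℓ)) : hbx q m Γ y < 8 * (q * q) * m + 8 := by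
  unfold hbx
  by_cases h : y / 8 < q * (q * q)
  · rw [decide_eq_true h, cond_true]
    rw [q3] at h
    have := hbk_lt hΓ (show y < 8 * q ^ 3 by omega)
    omega
  · rw [decide_eq_false h, cond_false]
    have : y % 8 < 8 := Nat.mod_lt _ (by norm_num)
    omega

theorem hbx_inj_pos {q m y y' : ℕ} {Γ : List ℕ} (hΓ : ∀ k, Γ.getD k 0 < m)
    (h0 : y / 8 = y' / 8) (h : hbx q m Γ y = hbx q m Γ y') : y = y' := by
  unfold hbx at h
  rw [← h0] at h
  by_cases h1 : y / 8 < q * (q * q)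
  · rw [decide_eq_true h1, cond_true, cond_true] at h
    rw [q3] at h1
    exact hbk_inj_pos hΓ (by omega) h0 h
  · rw [decide_eq_false h1, cond_false, cond_false] at h
    omega

/-- **Correct choices exist.** -/
theorem exists_valid {q m h A ℓ : ℕ} {Γ : List ℕ} (hq : q.Prime) (hh : 4 ≤ h)
    (hΓm : ∀ k, Γ.getD k 0 < m)
    (hΓ : ∀ R : Finset (Fin q), R.card ≤ h → 2 * R.card ≤ (R.biUnion fun l =>
      Finset.univ.image fun i : Fin 4 => (⟨Γ.getD (l * 4 + i) 0, hΓm _⟩ : Fin m)).card)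
    (G : Fin (q ^ 3 + ℓ) → Fin A → Bool) (P : Finset (Fin (q ^ 3)))
    (hP : ∀ (j : Fin (q ^ 3)) v, G (Fin.castAdd ℓ j) v = true → j ∈ P)
    (hPc : 8 * P.card ≤ h ^ 3) (κ : ℕ → ℕ) (hκ : ∀ t, κ t < 8)
    (hκG : ∀ t t' : Fin ℓ, κ t.1 = κ t'.1 → ∀ v, G (Fin.natAdd (q ^ 3) t) v =
      G (Fin.natAdd (q ^ 3) t') v) :
    ∃ σ : Fin (8 * (q ^ 3 + ℓ)) → Bool,
      Valid (fun y => (⟨y.1 / 8, by omega⟩ : Fin (q ^ 3 + ℓ)))
      (fun y => (⟨hbx q m Γ y.1, hbx_lt hΓm y.2⟩ : Fin (8 * (q * q) * m + 8))) G σ := by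
  obtain ⟨σ, h1, h2⟩ := exists_strict hq hh hΓm hΓ (fun j => G (Fin.castAdd ℓ j)) P hP hPc
  refine ⟨fun y => bif decide (y.1 / 8 < q ^ 3) then σ y.1 else
    decide (y.1 % 8 = κ (y.1 / 8 - q ^ 3)), ?_, ?_⟩
  · intro y y' h3 h4 h5 v
    simp only [Fin.mk.injEq] at h5
    unfold hbx at h5
    rw [q3] at h5
    by_cases c1 : y.1 / 8 < q ^ 3
    · by_cases c2 : y'.1 / 8 < q ^ 3
      · rw [decide_eq_true c1, cond_true] at h3 h5
        rw [decide_eq_true c2, cond_true] at h4 h5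
        have := h1 y.1 y'.1 (by omega) (by omega) h3 h4 h5
        have : y = y' := Fin.ext this
        rw [this]
      · exfalso
        rw [decide_eq_true c1, decide_eq_false c2, cond_true, cond_false] at h5
        have := hbk_lt hΓm (show y.1 < 8 * q ^ 3 by omega)
        omega
    · by_cases c2 : y'.1 / 8 < q ^ 3
      · exfalso
        rw [decide_eq_false c1, decide_eq_true c2, cond_true, cond_false] at h5
        have := hbk_lt hΓm (show y'.1 < 8 * q ^ 3 by omega)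
        omega
      · rw [decide_eq_false c1, cond_false] at h3 h5
        rw [decide_eq_false c2, cond_false] at h4 h5
        rw [decide_eq_true_eq] at h3 h4
        have ht : y.1 / 8 - q ^ 3 < ℓ := by have := y.2; omega
        have ht' : y'.1 / 8 - q ^ 3 < ℓ := by have := y'.2; omega
        have h6 := hκG ⟨y.1 / 8 - q ^ 3, ht⟩ ⟨y'.1 / 8 - q ^ 3, ht'⟩ (by
          simp only
          omega) v
        have e1 : (⟨y.1 / 8, by omega⟩ : Fin (q ^ 3 + ℓ)) =
            Fin.natAdd (q ^ 3) ⟨y.1 / 8 - q ^ 3, ht⟩ := Fin.ext (by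
          simp only [Fin.natAdd_mk]; omega)
        have e2 : (⟨y'.1 / 8, by omega⟩ : Fin (q ^ 3 + ℓ)) =
            Fin.natAdd (q ^ 3) ⟨y'.1 / 8 - q ^ 3, ht'⟩ := Fin.ext (by
          simp only [Fin.natAdd_mk]; omega)
        rw [e1, e2]
        exact h6
  · intro j v hjv
    by_cases c1 : j.1 < q ^ 3
    · obtain ⟨y, hy, h3, h4⟩ := h2 ⟨j.1, c1⟩ v (by
        have : Fin.castAdd ℓ ⟨j.1, c1⟩ = j := Fin.ext rfl
        rw [this]; exact hjv)
      simp only at h4
      refine ⟨⟨y, by omega⟩, ?_, Fin.ext h4⟩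
      simp only
      rw [h4, decide_eq_true c1, cond_true]
      exact h3
    · have := hκ (j.1 - q ^ 3)
      have e1 : (8 * j.1 + κ (j.1 - q ^ 3)) / 8 = j.1 := by omega
      have e2 : (8 * j.1 + κ (j.1 - q ^ 3)) % 8 = κ (j.1 - q ^ 3) := by omega
      refine ⟨⟨8 * j.1 + κ (j.1 - q ^ 3), by have := j.2; omega⟩, ?_, Fin.ext e1⟩
      simp only
      rw [e1, e2, decide_eq_false c1, cond_false]
      exact decide_eq_true rfl

/-! ### Special copies

The positions `j < q^3` have four more copies; the copy number `κ` is in the bucket number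
`8 q^2 m + 8 + κ`. -/

/-- The number of ordinary copies. -/
def y0 (q ℓ : ℕ) : ℕ := 8 * (q * (q * q) + ℓ)

/-- The position of the copy `y`. -/
def psx (q ℓ y : ℕ) : ℕ := bif decide (y < y0 q ℓ) then y / 8 else (y - y0 q ℓ) / 4

/-- The bucket of the copy `y`. -/
def hby (q m ℓ : ℕ) (Γ : List ℕ) (y : ℕ) : ℕ :=
  bif decide (y < y0 q ℓ) then hbx q m Γ y else 8 * (q * q) * m + 8 + (y - y0 q ℓ) % 4

theorem y0_eq (q ℓ : ℕ) : y0 q ℓ = 8 * (q ^ 3 + ℓ) := by unfold y0; rw [q3]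

theorem psx_lt {q ℓ y : ℕ} (hy : y < 8 * (q ^ 3 + ℓ) + 4 * q ^ 3) : psx q ℓ y < q ^ 3 + ℓ := by
  unfold psx
  rw [y0_eq]
  by_cases h : y < 8 * (q ^ 3 + ℓ)
  · rw [decide_eq_true h, cond_true]; omega
  · rw [decide_eq_false h, cond_false]; omega

theorem hby_lt {q m ℓ y : ℕ} {Γ : List ℕ} (hΓ : ∀ k, Γ.getD k 0 < m) :
    hby q m ℓ Γ y < 8 * (q * q) * m + 12 := by
  unfold hby
  rw [y0_eq]
  by_cases h : y < 8 * (q ^ 3 + ℓ)
  · rw [decide_eq_true h, cond_true]
    have := hbx_lt hΓ h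
    omega
  · rw [decide_eq_false h, cond_false]
    have : (y - 8 * (q ^ 3 + ℓ)) % 4 < 4 := Nat.mod_lt _ (by norm_num)
    omega

theorem hby_inj_pos {q m ℓ y y' : ℕ} {Γ : List ℕ} (hΓ : ∀ k, Γ.getD k 0 < m)
    (h0 : psx q ℓ y = psx q ℓ y') (h : hby q m ℓ Γ y = hby q m ℓ Γ y') : y = y' := by
  unfold psx at h0
  unfold hby at h
  rw [y0_eq] at h0 h
  by_cases h1 : y < 8 * (q ^ 3 + ℓ) <;> by_cases h2 : y' < 8 * (q ^ 3 + ℓ)
  · rw [decide_eq_true h1, decide_eq_true h2, cond_true, cond_true] at h0 h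
    exact hbx_inj_pos hΓ h0 h
  · rw [decide_eq_true h1, decide_eq_false h2, cond_true, cond_false] at h
    have := hbx_lt hΓ h1
    omega
  · rw [decide_eq_false h1, decide_eq_true h2, cond_true, cond_false] at h
    have := hbx_lt hΓ h2
    omega
  · rw [decide_eq_false h1, decide_eq_false h2, cond_false, cond_false] at h0 h
    omega

/-- Correct choices for the indexed clauses. -/
theorem exists_valid1 {q m h A ℓ : ℕ} {Γ : List ℕ} (hq : q.Prime) (hh : 4 ≤ h)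
    (hΓm : ∀ k, Γ.getD k 0 < m)
    (hΓ : ∀ R : Finset (Fin q), R.card ≤ h → 2 * R.card ≤ (R.biUnion fun l =>
      Finset.univ.image fun i : Fin 4 => (⟨Γ.getD (l * 4 + i) 0, hΓm _⟩ : Fin m)).card)
    (G : Fin (q ^ 3 + ℓ) → Fin A → Bool) (P : Finset (Fin (q ^ 3)))
    (hP : ∀ (j : Fin (q ^ 3)) v, G (Fin.castAdd ℓ j) v = true → j ∈ P)
    (hPc : 8 * P.card ≤ h ^ 3) (κ : ℕ → ℕ) (hκ : ∀ t, κ t < 8)
    (hκG : ∀ t t' : Fin ℓ, κ t.1 = κ t'.1 → ∀ v, G (Fin.natAdd (q ^ 3) t) v =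
      G (Fin.natAdd (q ^ 3) t') v) :
    ∃ σ : Fin (8 * (q ^ 3 + ℓ) + 4 * q ^ 3) → Bool,
      Valid (fun y => (⟨psx q ℓ y.1, psx_lt y.2⟩ : Fin (q ^ 3 + ℓ)))
      (fun y => (⟨hby q m ℓ Γ y.1, hby_lt hΓm⟩ : Fin (8 * (q * q) * m + 12))) G σ := by
  obtain ⟨σ, h1, h2⟩ := exists_valid hq hh hΓm hΓ G P hP hPc κ hκ hκG
  refine ⟨fun y => if hy : y.1 < 8 * (q ^ 3 + ℓ) then σ ⟨y.1, hy⟩ else false, ?_, ?_⟩
  · intro y y' h3 h4 h5 v
    by_cases c1 : y.1 < 8 * (q ^ 3 + ℓ)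
    · by_cases c2 : y'.1 < 8 * (q ^ 3 + ℓ)
      · simp only [c1, c2, dite_true] at h3 h4
        have e1 : psx q ℓ y.1 = y.1 / 8 := by
          unfold psx; rw [y0_eq, decide_eq_true c1, cond_true]
        have e2 : psx q ℓ y'.1 = y'.1 / 8 := by
          unfold psx; rw [y0_eq, decide_eq_true c2, cond_true]
        have e3 : hby q m ℓ Γ y.1 = hbx q m Γ y.1 := by
          unfold hby; rw [y0_eq, decide_eq_true c1, cond_true]
        have e4 : hby q m ℓ Γ y'.1 = hbx q m Γ y'.1 := by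
          unfold hby; rw [y0_eq, decide_eq_true c2, cond_true]
        have h6 := h1 ⟨y.1, c1⟩ ⟨y'.1, c2⟩ h3 h4 (by
          simp only [Fin.mk.injEq] at h5 ⊢
          rw [← e3, ← e4]
          exact h5) v
        simp only [e1, e2]
        exact h6
      · simp [c2] at h4
    · simp [c1] at h3
  · intro j v hjv
    obtain ⟨y, hy, h3⟩ := h2 j v hjv
    refine ⟨⟨y.1, by have := y.2; omega⟩, ?_, ?_⟩
    · simp only [y.2, dite_true]
      exact hy
    · have e1 : psx q ℓ y.1 = y.1 / 8 := by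
        unfold psx; rw [y0_eq, decide_eq_true y.2, cond_true]
      simp only [e1]
      exact h3

/-- Correct choices with the special copies. -/
theorem exists_valid2 {q m A ℓ : ℕ} {Γ : List ℕ} (hΓm : ∀ k, Γ.getD k 0 < m)
    (G : Fin (q ^ 3 + ℓ) → Fin A → Bool) (act : ℕ → Bool) (κ : ℕ → ℕ) (hκ : ∀ t, κ t < 4)
    (hact : ∀ j v, G j v = true → j.1 < q ^ 3 ∧ act j.1 = true)
    (hκG : ∀ j j' : Fin (q ^ 3 + ℓ), j.1 < q ^ 3 → j'.1 < q ^ 3 → act j.1 = true →
      act j'.1 = true → κ j.1 = κ j'.1 → ∀ v, G j v = G j' v) :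
    ∃ σ : Fin (8 * (q ^ 3 + ℓ) + 4 * q ^ 3) → Bool,
      Valid (fun y => (⟨psx q ℓ y.1, psx_lt y.2⟩ : Fin (q ^ 3 + ℓ)))
      (fun y => (⟨hby q m ℓ Γ y.1, hby_lt hΓm⟩ : Fin (8 * (q * q) * m + 12))) G σ := by
  refine ⟨fun y => decide (8 * (q ^ 3 + ℓ) ≤ y.1) &&
    (act ((y.1 - 8 * (q ^ 3 + ℓ)) / 4) &&
      decide ((y.1 - 8 * (q ^ 3 + ℓ)) % 4 = κ ((y.1 - 8 * (q ^ 3 + ℓ)) / 4))), ?_, ?_⟩
  · intro y y' h3 h4 h5 v
    simp only [Bool.and_eq_true, decide_eq_true_eq] at h3 h4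
    obtain ⟨a1, a2, a3⟩ := h3
    obtain ⟨b1, b2, b3⟩ := h4
    simp only [Fin.mk.injEq] at h5
    unfold hby at h5
    rw [y0_eq, decide_eq_false (by omega), decide_eq_false (by omega), cond_false,
      cond_false] at h5
    have e1 : psx q ℓ y.1 = (y.1 - 8 * (q ^ 3 + ℓ)) / 4 := by
      unfold psx; rw [y0_eq, decide_eq_false (by omega), cond_false]
    have e2 : psx q ℓ y'.1 = (y'.1 - 8 * (q ^ 3 + ℓ)) / 4 := by
      unfold psx; rw [y0_eq, decide_eq_false (by omega), cond_false]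
    have hy := y.2
    have hy' := y'.2
    exact hκG _ _ (by simp only [e1]; omega) (by simp only [e2]; omega)
      (by simp only [e1]; exact a2) (by simp only [e2]; exact b2)
      (by simp only [e1, e2]; omega) v
  · intro j v hjv
    obtain ⟨h1, h2⟩ := hact j v hjv
    have h3 := hκ j.1
    have e1 : (8 * (q ^ 3 + ℓ) + (4 * j.1 + κ j.1) - 8 * (q ^ 3 + ℓ)) / 4 = j.1 := by omega
    have e2 : (8 * (q ^ 3 + ℓ) + (4 * j.1 + κ j.1) - 8 * (q ^ 3 + ℓ)) % 4 = κ j.1 := by omega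
    refine ⟨⟨8 * (q ^ 3 + ℓ) + (4 * j.1 + κ j.1), by omega⟩, ?_, ?_⟩
    · simp only [e1, e2, h2, Bool.true_and, Bool.and_eq_true, decide_eq_true_eq, and_true]
      omega
    · apply Fin.ext
      simp only
      unfold psx
      rw [y0_eq, decide_eq_false (by omega), cond_false, e1]

end Pool.Agent.H87.CNF
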