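import Pool.Agent.H87.PMCSP.Build

/-!
# The partial table of a system of clauses

`X = B × V` (bucket, value). The second kind of variables are the copies `y : Y` of the
positions `j : J`; the copy `y` belongs to the position `pos y` and lies in the bucket `hb y`.
-/

namespace Pool.Agent.H87.CNF

open Pool.Agent.H87.PMCSP

set_option linter.unusedSectionVars false

variable {B V J Y : Type} [DecidableEq B] [DecidableEq V] [DecidableEq Y]
  [Fintype B] [Fintype V] [Fintype Y]

/-- The set `σ` of copies is a correct choice for the clause `G`: the positions of chosen copies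
in the same bucket have the same good values, and every position that occurs in `G` has a chosen
copy. -/
structure Valid (pos : Y → J) (hb : Y → B) (G : J → V → Bool) (σ : Y → Bool) : Prop where
  inj : ∀ y y', σ y = true → σ y' = true → hb y = hb y' → ∀ v, G (pos y) v = G (pos y') v
  cov : ∀ j v, G j v = true → ∃ y, σ y = true ∧ pos y = j

/-- The first part of the query point of the clause `G` with the choice `σ`. -/
def tstX (pos : Y → J) (hb : Y → B) (G : J → V → Bool) (σ : Y → Bool) : B × V → Bool :=
  fun u => decide (∃ y, σ y = true ∧ hb y = u.1 ∧ G (pos y) u.2 = true)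

/-- one element -/
def sgl {X : Type} [DecidableEq X] (u : X) : X → Bool := fun v => decide (v = u)

/-- all values, bucket different from `b` -/
def otX (b : B) : B × V → Bool := fun u => !decide (u.1 = b)

/-- all values different from `v` in bucket `b`, and the value `v` in bucket `b'` -/
def cmX (b b' : B) (v : V) : B × V → Bool := fun u =>
  (decide (u.1 = b) && !decide (u.2 = v)) || (decide (u.1 = b') && decide (u.2 = v))

/-- The points at which the table is `0`. -/
inductive Zer (hb : Y → B) : (Var (B × V) Y → Bool) → Prop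
  | a : Zer hb (Sum.elim (fun _ => true) (Sum.elim (fun _ => false) (fun _ => false)))
  | b : Zer hb (Sum.elim (fun _ => false) (Sum.elim (fun _ => true) (fun _ => true)))
  | c (u v : B × V) (h : u ≠ v) : Zer hb (Sum.elim (sgl u) (Sum.elim (sgl v) (fun _ => false)))
  | d (y : Y) : Zer hb (Sum.elim (otX (hb y)) (Sum.elim (fun _ => false) (sgl y)))

/-- The points at which the table is `1`. -/
inductive One (pos : Y → J) (hb : Y → B) (𝒢 : (J → V → Bool) → Prop) :
    (Var (B × V) Y → Bool) → Prop
  | a (u : B × V) : One pos hb 𝒢 (Sum.elim (sgl u) (Sum.elim (fun _ => true) (fun _ => true)))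
  | b (u : B × V) : One pos hb 𝒢 (Sum.elim (fun _ => true) (Sum.elim (sgl u) (fun _ => false)))
  | b' (y : Y) : One pos hb 𝒢 (Sum.elim (fun _ => true) (Sum.elim (fun _ => false) (sgl y)))
  | c (u : B × V) : One pos hb 𝒢 (Sum.elim (sgl u) (Sum.elim (sgl u) (fun _ => false)))
  | e (y y' : Y) (hpos : pos y = pos y') (hne : hb y ≠ hb y') (v : V) :
      One pos hb 𝒢 (Sum.elim (cmX (hb y) (hb y') v) (Sum.elim (fun _ => false)
        (fun e => decide (e = y) || decide (e = y'))))
  | f (G : J → V → Bool) (σ : Y → Bool) (hG : 𝒢 G) (hσ : Valid pos hb G σ) :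
      One pos hb 𝒢 (Sum.elim (tstX pos hb G σ) (Sum.elim (fun _ => false) σ))

open Classical in
/-- The partial table. -/
noncomputable def tab (pos : Y → J) (hb : Y → B) (𝒢 : (J → V → Bool) → Prop)
    (z : Var (B × V) Y → Bool) : Option Bool :=
  if Zer hb z then some false else if One pos hb 𝒢 z then some true else none

/-- The types given by an assignment of values to the positions. -/
def typ (pos : Y → J) (hb : Y → B) (w : J → V) : (B × V) ⊕ Y → B × V
  | Sum.inl u => u
  | Sum.inr y => (hb y, w (pos y))

theorem elim3_surj (z : Var (B × V) Y → Bool) :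
    ∃ (S : B × V → Bool) (D : B × V → Bool) (T : Y → Bool), z = Sum.elim S (Sum.elim D T) :=
  ⟨fun u => z (Sum.inl u), fun u => z (Sum.inr (Sum.inl u)), fun y => z (Sum.inr (Sum.inr y)),
    by funext v; rcases v with v | v | v <;> rfl⟩

theorem elim3_inj {S S' : B × V → Bool} {D D' : B × V → Bool} {T T' : Y → Bool}
    (h : (Sum.elim S (Sum.elim D T) : Var (B × V) Y → Bool) = Sum.elim S' (Sum.elim D' T')) :
    S = S' ∧ D = D' ∧ T = T' :=
  ⟨funext fun u => congrFun h (Sum.inl u), funext fun u => congrFun h (Sum.inr (Sum.inl u)),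
    funext fun u => congrFun h (Sum.inr (Sum.inr u))⟩

theorem typ_zer {pos : Y → J} {hb : Y → B} (w : J → V) {S : B × V → Bool}
    {D : B × V → Bool} {T : Y → Bool} (h : Zer hb (Sum.elim S (Sum.elim D T))) :
    ¬ ∃ e, (Sum.elim D T : (B × V) ⊕ Y → Bool) e = true ∧ S (typ pos hb w e) = true := by
  generalize hz : (Sum.elim S (Sum.elim D T) : Var (B × V) Y → Bool) = z at h
  cases h with
  | a =>
    obtain ⟨rfl, rfl, rfl⟩ := elim3_inj hz
    rintro ⟨e | e, h1, -⟩ <;> simp at h1
  | b =>
    obtain ⟨rfl, rfl, rfl⟩ := elim3_inj hz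
    simp
  | c u v h =>
    obtain ⟨rfl, rfl, rfl⟩ := elim3_inj hz
    rintro ⟨e | e, h1, h2⟩
    · simp only [Sum.elim_inl, sgl, decide_eq_true_eq] at h1
      simp only [typ, sgl, decide_eq_true_eq] at h2
      exact h (h2.symm.trans h1)
    · simp at h1
  | d y =>
    obtain ⟨rfl, rfl, rfl⟩ := elim3_inj hz
    rintro ⟨e | e, h1, h2⟩
    · simp at h1
    · simp only [Sum.elim_inr, sgl, decide_eq_true_eq] at h1
      subst h1
      simp [otX, typ] at h2

theorem typ_one {pos : Y → J} {hb : Y → B} {𝒢 : (J → V → Bool) → Prop} (w : J → V)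
    {S : B × V → Bool} {D : B × V → Bool} {T : Y → Bool}
    (h : One pos hb 𝒢 (Sum.elim S (Sum.elim D T))) :
    (∃ e, (Sum.elim D T : (B × V) ⊕ Y → Bool) e = true ∧ S (typ pos hb w e) = true) ∨
      ∃ G, 𝒢 G ∧ (∃ σ, Valid pos hb G σ) ∧ (∀ j, G j (w j) = false) ∧
        (D = fun _ => false) ∧ Valid pos hb G T ∧ S = tstX pos hb G T := by
  generalize hz : (Sum.elim S (Sum.elim D T) : Var (B × V) Y → Bool) = z at h
  cases h with
  | a u =>
    obtain ⟨rfl, rfl, rfl⟩ := elim3_inj hz
    exact Or.inl ⟨Sum.inl u, rfl, by simp [sgl, typ]⟩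
  | b u =>
    obtain ⟨rfl, rfl, rfl⟩ := elim3_inj hz
    exact Or.inl ⟨Sum.inl u, by simp [sgl], rfl⟩
  | b' y =>
    obtain ⟨rfl, rfl, rfl⟩ := elim3_inj hz
    exact Or.inl ⟨Sum.inr y, by simp [sgl], rfl⟩
  | c u =>
    obtain ⟨rfl, rfl, rfl⟩ := elim3_inj hz
    exact Or.inl ⟨Sum.inl u, by simp [sgl], by simp [sgl, typ]⟩
  | e y y' hpos hne v =>
    obtain ⟨rfl, rfl, rfl⟩ := elim3_inj hz
    by_cases hw : w (pos y') = v
    · exact Or.inl ⟨Sum.inr y', by simp, by simp [cmX, typ, hw]⟩
    · exact Or.inl ⟨Sum.inr y, by simp, by simp [cmX, typ, hpos, hw]⟩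
  | f G σ hG hσ =>
    obtain ⟨rfl, rfl, rfl⟩ := elim3_inj hz
    by_cases hw : ∃ j, G j (w j) = true
    · obtain ⟨j, hj⟩ := hw
      obtain ⟨y, hy, rfl⟩ := hσ.cov _ _ hj
      exact Or.inl ⟨Sum.inr y, hy, by
        simp only [tstX, typ, decide_eq_true_eq]
        exact ⟨y, hy, rfl, hj⟩⟩
    · exact Or.inr ⟨G, hG, ⟨T, hσ⟩, fun j => by simpa using fun h => hw ⟨j, h⟩, rfl, hσ, rfl⟩

theorem not_zer_of_one [Nontrivial B] [Nonempty V] {pos : Y → J} {hb : Y → B}
    {𝒢 : (J → V → Bool) → Prop} {z : Var (B × V) Y → Bool}
    (h : One pos hb 𝒢 z) : ¬ Zer hb z := by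
  classical
  intro h0
  obtain ⟨S, D, T, rfl⟩ := elim3_surj z
  obtain ⟨v0⟩ := ‹Nonempty V›
  rcases typ_one (fun _ => v0) h with h1 | ⟨G, -, -, -, hD, hv, hS⟩
  · exact typ_zer _ h0 h1
  by_cases hG : ∃ j v, G j v = true
  · obtain ⟨j, v, hjv⟩ := hG
    rcases typ_one (Function.update (fun _ => v0) j v) h with h1 | ⟨G', -, -, h2, hD', hv', hS'⟩
    · exact typ_zer _ h0 h1
    · obtain ⟨y, hy, hyj⟩ := hv.cov _ _ hjv
      refine typ_zer (pos := pos) (Function.update (fun _ => v0) j v) h0 ⟨Sum.inr y, hy, ?_⟩
      rw [hS]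
      simp only [tstX, typ, decide_eq_true_eq]
      exact ⟨y, hy, rfl, by rw [hyj, Function.update_self]; exact hjv⟩
  · have hS0 : S = fun _ => false := by
      rw [hS]
      funext u
      simp only [tstX, decide_eq_false_iff_not]
      rintro ⟨y, -, -, h3⟩
      exact hG ⟨_, _, h3⟩
    obtain ⟨b0, b1, hb01⟩ := exists_pair_ne B
    generalize hz : (Sum.elim S (Sum.elim D T) : Var (B × V) Y → Bool) = z at h0
    cases h0 with
    | a =>
      obtain ⟨h1, -, -⟩ := elim3_inj hz
      have := congrFun (h1.symm.trans hS0) (b0, v0)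
      simp at this
    | b =>
      obtain ⟨-, h1, -⟩ := elim3_inj hz
      have := congrFun (h1.symm.trans hD) (b0, v0)
      simp at this
    | c u v h =>
      obtain ⟨h1, -, -⟩ := elim3_inj hz
      have := congrFun (h1.symm.trans hS0) u
      simp [sgl] at this
    | d y =>
      obtain ⟨h1, -, -⟩ := elim3_inj hz
      by_cases hy : b0 = hb y
      · have := congrFun (h1.symm.trans hS0) (b1, v0)
        simp only [otX, Bool.not_eq_false', decide_eq_true_eq] at this
        exact hb01 (hy.trans this.symm)
      · have := congrFun (h1.symm.trans hS0) (b0, v0)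
        simp only [otX, Bool.not_eq_false', decide_eq_true_eq] at this
        exact hy this

theorem tab_zer {pos : Y → J} {hb : Y → B} {𝒢 : (J → V → Bool) → Prop}
    {z : Var (B × V) Y → Bool} (h : Zer hb z) : tab pos hb 𝒢 z = some false := by
  simp [tab, h]

theorem tab_one [Nontrivial B] [Nonempty V] {pos : Y → J} {hb : Y → B}
    {𝒢 : (J → V → Bool) → Prop} {z : Var (B × V) Y → Bool} (h : One pos hb 𝒢 z) :
    tab pos hb 𝒢 z = some true := by
  simp [tab, h, not_zer_of_one h]

/-- **The table of a system of clauses is consistent with a circuit with fewer gates than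
variables iff there is an assignment of values that satisfies all clauses which have a correct
choice.** -/
theorem core [Nontrivial B] [Nonempty V] {n : ℕ} {pos : Y → J} {hb : Y → B}
    (hpos : Function.Surjective pos)
    (hinj : ∀ y y', pos y = pos y' → hb y = hb y' → y = y')
    (𝒢 : (J → V → Bool) → Prop) (e : Fin n ≃ Var (B × V) Y) :
    (∃ c : Circuit n, c.size + 1 ≤ n ∧ ∀ (z : Var (B × V) Y → Bool) (b : Bool),
      tab pos hb 𝒢 z = some b → c.eval (fun i => z (e i)) = b) ↔
    ∃ w : J → V, ∀ G, 𝒢 G → (∃ σ, Valid pos hb G σ) → ∃ j, G j (w j) = true := by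
  constructor
  · rintro ⟨c, hsize, hc⟩
    set f : (Var (B × V) Y → Bool) → Bool := fun z => c.eval (fun i => z (e i)) with hf
    have f0 : ∀ z, Zer hb z → f z = false := fun z hz => hc z false (tab_zer hz)
    have f1 : ∀ z, One pos hb 𝒢 z → f z = true := fun z hz => hc z true (tab_one hz)
    -- positive dependence on all variables
    have hposd : ∀ v : Var (B × V) Y, ∃ z : Var (B × V) Y → Bool, z v = false ∧ f z = false ∧
        f (Function.update z v true) = true := by
      rintro (u | u | y)
      · refine ⟨_, rfl, f0 _ Zer.b, ?_⟩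
        refine Eq.trans (congrArg f ?_) (f1 _ (One.a u))
        funext v
        rcases v with v | v | v
        · by_cases h : v = u
          · subst h; simp [sgl]
          · rw [Function.update_of_ne (by simpa using h)]
            simp [sgl, h]
        · rw [Function.update_of_ne (by simp)]
          simp
        · rw [Function.update_of_ne (by simp)]
          simp
      · refine ⟨_, rfl, f0 _ Zer.a, ?_⟩
        refine Eq.trans (congrArg f ?_) (f1 _ (One.b u))
        funext v
        rcases v with v | v | v
        · rw [Function.update_of_ne (by simp)]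
          simp
        · by_cases h : v = u
          · subst h; simp [sgl]
          · rw [Function.update_of_ne (by simpa using h)]
            simp [sgl, h]
        · rw [Function.update_of_ne (by simp)]
          simp
      · refine ⟨_, rfl, f0 _ Zer.a, ?_⟩
        refine Eq.trans (congrArg f ?_) (f1 _ (One.b' y))
        funext v
        rcases v with v | v | v
        · rw [Function.update_of_ne (by simp)]
          simp
        · rw [Function.update_of_ne (by simp)]
          simp
        · by_cases h : v = y
          · subst h; simp [sgl]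
          · rw [Function.update_of_ne (by simpa using h)]
            simp [sgl, h]
    have hdep : ∀ i : Fin n, Dep c.eval i := by
      intro i
      obtain ⟨z, h1, h2, h3⟩ := hposd (e i)
      refine ⟨fun j => z (e j), ?_⟩
      have h4 : Function.update (fun j => z (e j)) i (!(z (e i))) =
          fun j => Function.update z (e i) true (e j) := by
        funext j
        by_cases h : j = i
        · subst h; simp [h1]
        · rw [Function.update_of_ne h, Function.update_of_ne (by simpa using h)]
      rw [h4]
      simp only [hf] at h2 h3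
      rw [h2, h3]
      simp
    obtain ⟨h1, h2⟩ := circuit_dep c Finset.univ fun v _ => hdep v
    rw [Finset.card_univ, Fintype.card_fin] at h1 h2
    obtain ⟨r0, hr⟩ := h2 (by omega)
    have h3 := REx.subst hr (fun i => ({e i} : Finset (Var (B × V) Y))) (fun i z => z (e i))
      (by
        intro i _
        convert REx.lit (e i) false using 2 with z
        simp) (by
        intro i _ j _ hij
        simp only [Finset.disjoint_singleton]
        exact fun h => hij (e.injective h))
    have h4 : (Finset.univ : Finset (Fin n)).biUnion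
        (fun i => ({e i} : Finset (Var (B × V) Y))) = Finset.univ := by
      ext v
      simp only [Finset.mem_biUnion, Finset.mem_univ, true_and, Finset.mem_singleton, iff_true]
      exact ⟨e.symm v, by simp⟩
    rw [h4] at h3
    obtain ⟨r', hr'⟩ := h3
    have hM : MRO Finset.univ f := MRO.of_sign hr' hposd
    have e2 : ∀ b : Bool, (fun _ => b : (B × V) ⊕ Y → Bool) =
        Sum.elim (fun _ => b) (fun _ => b) := by
      intro b; funext v; cases v <;> rfl
    have e3 : ∀ u : B × V, (fun e' => decide (e' = Sum.inl u) : (B × V) ⊕ Y → Bool) =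
        Sum.elim (sgl u) (fun _ => false) := by
      intro u; funext v; cases v <;> simp [sgl]
    have e4 : ∀ y : Y, (fun e' => decide (e' = Sum.inr y) : (B × V) ⊕ Y → Bool) =
        Sum.elim (fun _ => false) (sgl y) := by
      intro u; funext v; cases v <;> simp [sgl]
    obtain ⟨g, hg, hgf⟩ := rigid hM (by rw [e2]; exact f0 _ Zer.a)
      (by rw [e2]; exact f0 _ Zer.b) (fun u => by rw [e2]; exact f1 _ (One.a u))
      (by
        rintro (u | y)
        · rw [e3]; exact f1 _ (One.b u)
        · rw [e4]; exact f1 _ (One.b' y)) (by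
        intro u v
        rw [e3]
        by_cases h : u = v
        · subst h
          rw [decide_eq_true rfl]
          exact f1 _ (One.c u)
        · rw [decide_eq_false h]
          exact f0 _ (Zer.c u v h))
    -- the bucket of a copy
    have hbk : ∀ y, (g (Sum.inr y)).1 = hb y := by
      intro y
      by_contra hne
      have h5 := f0 _ (Zer.d y)
      have h6 := (hgf (otX (hb y)) (Sum.elim (fun _ => false) (sgl y))).mpr
        ⟨Sum.inr y, by simp [sgl], by simp [otX, hne]⟩
      rw [h5] at h6
      cases h6
    -- copies of the same position have the same value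
    have hval : ∀ y y', pos y = pos y' → (g (Sum.inr y)).2 = (g (Sum.inr y')).2 := by
      intro y y' hp
      by_cases hyy : y = y'
      · rw [hyy]
      have hne : hb y ≠ hb y' := fun h => hyy (hinj y y' hp h)
      obtain ⟨a, h5, h6⟩ := (hgf _ _).mp (f1 _ (One.e y y' hp hne (g (Sum.inr y)).2))
      rcases a with u | a
      · simp at h5
      · simp only [Sum.elim_inr, Bool.or_eq_true, decide_eq_true_eq] at h5
        rcases h5 with rfl | rfl
        · simp only [cmX, hbk, hne, decide_false, decide_true, Bool.not_true, Bool.and_false,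
            Bool.false_and, Bool.or_self] at h6
          cases h6
        · simp only [cmX, hbk, hne.symm, decide_false, decide_true, Bool.false_and,
            Bool.true_and, Bool.false_or, decide_eq_true_eq] at h6
          exact h6.symm
    choose s hs using hpos
    refine ⟨fun j => (g (Sum.inr (s j))).2, fun G hG hσ => ?_⟩
    obtain ⟨σ, hσ⟩ := hσ
    obtain ⟨a, h5, h6⟩ := (hgf _ _).mp (f1 _ (One.f G σ hG hσ))
    rcases a with u | y
    · simp at h5
    · simp only [Sum.elim_inr] at h5
      simp only [tstX, decide_eq_true_eq] at h6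
      obtain ⟨y', h7, h8, h9⟩ := h6
      rw [hbk] at h8
      refine ⟨pos y, ?_⟩
      show G (pos y) (g (Sum.inr (s (pos y)))).2 = true
      rw [hval (s (pos y)) y (hs _), ← hσ.inj y' y h7 h5 h8]
      exact h9
  · rintro ⟨w, hw⟩
    obtain ⟨v0⟩ := ‹Nonempty V›
    obtain ⟨b0, -, -⟩ := exists_pair_ne B
    have : Nonempty (B × V) := ⟨(b0, v0)⟩
    obtain ⟨c, hc, hev⟩ := exists_typed_circuit e (typ pos hb w) (fun v => rfl)
    refine ⟨c, hc.le, fun z b hb' => ?_⟩
    obtain ⟨S, D, T, rfl⟩ := elim3_surj z
    unfold tab at hb'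
    split_ifs at hb' with h1 h2
    · cases hb'
      cases hv : c.eval (fun i => (Sum.elim S (Sum.elim D T) : Var (B × V) Y → Bool) (e i)) with
      | false => rfl
      | true => exact absurd ((hev S _).mp hv) (typ_zer w h1)
    · cases hb'
      rcases typ_one w h2 with h3 | ⟨G, h3, h4, h5, -⟩
      · exact (hev S _).mpr h3
      · obtain ⟨j, hj⟩ := hw G h3 h4
        rw [h5 j] at hj
        cases hj

end Pool.Agent.H87.CNF
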