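import Pool.Agent.H87.CNF.Prog

/-!
# The program writes the right table
-/

namespace Pool.Agent.H87.CNF

open Pool.Agent.PPS Pool.Agent.H87.PMCSP

/-- Buckets. -/
abbrev BT (q c : ℕ) : Type := Fin (8 * (q * q) * c + 12)

/-- All variables. -/
abbrev WT (q c A ℓ : ℕ) : Type := Var (BT q c × Fin A) (Fin (8 * (q ^ 3 + ℓ) + 4 * q ^ 3))

/-- number of a type -/
def xi {q c A : ℕ} (u : BT q c × Fin A) : ℕ := u.1.1 * A + u.2.1

theorem xi_lt {q c A : ℕ} (u : BT q c × Fin A) : xi u < nX q c A := by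
  unfold xi nX
  have h1 := u.1.2
  have h2 := u.2.2
  calc u.1.1 * A + u.2.1 < u.1.1 * A + A := Nat.add_lt_add_left h2 _
    _ = (u.1.1 + 1) * A := by ring
    _ ≤ (8 * (q * q) * c + 12) * A := Nat.mul_le_mul_right _ h1

theorem xi_div {q c A : ℕ} (u : BT q c × Fin A) : xi u / A = u.1.1 ∧ xi u % A = u.2.1 := by
  have h2 := u.2.2
  have hA : 0 < A := lt_of_le_of_lt (Nat.zero_le _) h2
  unfold xi
  constructor
  · rw [Nat.mul_comm, Nat.mul_add_div hA, Nat.div_eq_of_lt h2, Nat.add_zero]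
  · rw [Nat.mul_comm, Nat.mul_add_mod, Nat.mod_eq_of_lt h2]

theorem xi_inj {q c A : ℕ} {u v : BT q c × Fin A} (h : xi u = xi v) : u = v := by
  have h1 := xi_div u
  have h2 := xi_div v
  rw [h] at h1
  exact Prod.ext (Fin.ext (h1.1.symm.trans h2.1)) (Fin.ext (h1.2.symm.trans h2.2))

theorem exists_xi {q c A t : ℕ} (ht : t < nX q c A) : ∃ u : BT q c × Fin A, xi u = t := by
  unfold nX at ht
  have hA : 0 < A := by
    rcases Nat.eq_zero_or_pos A with h | h
    · subst h; simp at ht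
    · exact h
  refine ⟨(⟨t / A, (Nat.div_lt_iff_lt_mul hA).mpr ht⟩, ⟨t % A, Nat.mod_lt _ hA⟩), ?_⟩
  unfold xi
  exact Nat.div_add_mod' t A

theorem nY_eq (q ℓ : ℕ) : nY q ℓ = 8 * (q ^ 3 + ℓ) + 4 * q ^ 3 := by
  unfold nY; rw [y0_eq, q3]

/-- number of a variable -/
def wi {q c A ℓ : ℕ} : WT q c A ℓ → ℕ
  | Sum.inl u => xi u
  | Sum.inr (Sum.inl u) => nX q c A + xi u
  | Sum.inr (Sum.inr y) => nX q c A + nX q c A + y.1

theorem wi_lt {q c A ℓ : ℕ} (v : WT q c A ℓ) : wi v < nX q c A + nX q c A + nY q ℓ := by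
  rcases v with u | u | y
  · have := xi_lt u
    simp only [wi]; omega
  · have := xi_lt u
    simp only [wi]; omega
  · have := y.2
    rw [nY_eq]
    simp only [wi]; omega

theorem wi_inj {q c A ℓ : ℕ} {v v' : WT q c A ℓ} (h : wi v = wi v') : v = v' := by
  rcases v with u | u | y <;> rcases v' with u' | u' | y' <;> simp only [wi] at h
  · rw [xi_inj h]
  · have := xi_lt u; omega
  · have := xi_lt u; omega
  · have := xi_lt u'; omega
  · rw [xi_inj (Nat.add_left_cancel h)]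
  · have := xi_lt u; omega
  · have := xi_lt u'; omega
  · have := xi_lt u'; omega
  · rw [Fin.ext (Nat.add_left_cancel h)]

/-- The numbering of the variables. -/
theorem exists_numbering (q c A ℓ : ℕ) :
    ∃ e : Fin (nX q c A + nX q c A + nY q ℓ) ≃ WT q c A ℓ, ∀ v, (e.symm v).1 = wi v := by
  let f : WT q c A ℓ → Fin (nX q c A + nX q c A + nY q ℓ) := fun v => ⟨wi v, wi_lt v⟩
  have hinj : Function.Injective f := fun v v' h => wi_inj (Fin.ext_iff.mp h)
  have hbij : Function.Bijective f := by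
    rw [Fintype.bijective_iff_injective_and_card]
    refine ⟨hinj, ?_⟩
    simp only [Fintype.card_fin, Fintype.card_sum, Fintype.card_prod]
    rw [nY_eq]
    unfold nX
    ring
  exact ⟨(Equiv.ofBijective f hbij).symm, fun v => rfl⟩

section

variable {q c A ℓ : ℕ} {x : List Bool} {z : WT q c A ℓ → Bool}

theorem eqv_iff (hx : ∀ v, bitAt x (wi v) = z v) (f g h : ℕ → Bool) :
    eqv x (nX q c A) (nY q ℓ) f g h = true ↔
      z = Sum.elim (fun u => f (xi u)) (Sum.elim (fun u => g (xi u)) (fun y => h y.1)) := by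
  unfold eqv
  simp only [Bool.and_eq_true, List.all_eq_true, List.mem_range, beq_iff_eq]
  constructor
  · rintro ⟨h1, h2, h3⟩
    funext v
    rcases v with u | u | y
    · simp only [Sum.elim_inl]
      rw [← hx, ← h1 _ (xi_lt u)]
      rfl
    · simp only [Sum.elim_inr, Sum.elim_inl]
      rw [← hx, ← h2 _ (xi_lt u)]
      rfl
    · simp only [Sum.elim_inr]
      rw [← hx, ← h3 y.1 (by rw [nY_eq]; exact y.2)]
      rfl
  · rintro rfl
    refine ⟨fun t ht => ?_, fun t ht => ?_, fun t ht => ?_⟩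
    · obtain ⟨u, rfl⟩ := exists_xi ht
      exact hx (Sum.inl u)
    · obtain ⟨u, rfl⟩ := exists_xi ht
      exact hx (Sum.inr (Sum.inl u))
    · rw [nY_eq] at ht
      exact hx (Sum.inr (Sum.inr ⟨t, ht⟩))

theorem dec_xi (u v : BT q c × Fin A) : decide (xi u = xi v) = sgl v u := by
  unfold sgl
  rw [decide_eq_decide]
  exact ⟨xi_inj, fun h => by rw [h]⟩

/-- bucket of a copy -/
def hbF {Γ : List ℕ} (hΓ : ∀ k, Γ.getD k 0 < c) (y : Fin (8 * (q ^ 3 + ℓ) + 4 * q ^ 3)) : BT q c :=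
  ⟨hby q c ℓ Γ y.1, hby_lt hΓ⟩

/-- position of a copy -/
def posF {q ℓ : ℕ} (y : Fin (8 * (q ^ 3 + ℓ) + 4 * q ^ 3)) : Fin (q ^ 3 + ℓ) :=
  ⟨psx q ℓ y.1, psx_lt y.2⟩

/-- the clauses as functions -/
def GG (q A ℓ a : ℕ) (U : List (List Bool)) (C : IC) : Fin (q ^ 3 + ℓ) → Fin A → Bool :=
  fun j v => GX q a U C j v

theorem dec_y {n : ℕ} (y y' : Fin n) : decide (y.1 = y'.1) = sgl y' y := by
  unfold sgl
  rw [decide_eq_decide]
  exact ⟨fun h => Fin.ext h, fun h => by rw [h]⟩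

theorem dec_b {Γ : List ℕ} (hΓ : ∀ k, Γ.getD k 0 < c) (u : BT q c × Fin A)
    (y : Fin (8 * (q ^ 3 + ℓ) + 4 * q ^ 3)) : decide (xi u / A = hby q c ℓ Γ y.1) = decide (u.1 = hbF hΓ y) := by
  rw [decide_eq_decide, (xi_div u).1]
  exact ⟨fun h => Fin.ext h, fun h => by rw [h]; rfl⟩

theorem dec_v (u : BT q c × Fin A) (v : Fin A) :
    decide (xi u % A = v.1) = decide (u.2 = v) := by
  rw [decide_eq_decide, (xi_div u).2]
  exact ⟨fun h => Fin.ext h, fun h => by rw [h]⟩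

theorem exists_range {n : ℕ} {p : ℕ → Prop} : (∃ y ∈ List.range n, p y) ↔
    ∃ y : Fin n, p y.1 := by
  constructor
  · rintro ⟨y, h1, h2⟩
    exact ⟨⟨y, List.mem_range.mp h1⟩, h2⟩
  · rintro ⟨y, h⟩
    exact ⟨y.1, List.mem_range.mpr y.2, h⟩

theorem exists_rangeX {p : ℕ → Prop} : (∃ t ∈ List.range (nX q c A), p t) ↔
    ∃ u : BT q c × Fin A, p (xi u) := by
  constructor
  · rintro ⟨t, h1, h2⟩
    obtain ⟨u, rfl⟩ := exists_xi (List.mem_range.mp h1)
    exact ⟨u, h2⟩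
  · rintro ⟨u, h⟩
    exact ⟨xi u, List.mem_range.mpr (xi_lt u), h⟩

theorem zerB_iff {Γ : List ℕ} (hΓ : ∀ k, Γ.getD k 0 < c) (hx : ∀ v, bitAt x (wi v) = z v) :
    zerB q c A ℓ Γ x = true ↔ Zer (hbF hΓ) z := by
  unfold zerB zer3 zer4
  simp only [Bool.or_eq_true, List.any_eq_true, exists_rangeX, nY_eq q ℓ, exists_range,
    Bool.and_eq_true, Bool.not_eq_true', decide_eq_false_iff_not]
  simp only [← nY_eq q ℓ]
  simp only [eqv_iff hx, dec_xi, dec_y, dec_b hΓ]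
  constructor
  · rintro (h | h | ⟨u, v, hne, h⟩ | ⟨y, h⟩)
    · rw [h]; exact Zer.a
    · rw [h]; exact Zer.b
    · rw [h]; exact Zer.c u v (fun h' => hne (by rw [h']))
    · rw [h]; exact Zer.d y
  · intro h
    cases h with
    | a => exact Or.inl rfl
    | b => exact Or.inr (Or.inl rfl)
    | c u v h => exact Or.inr (Or.inr (Or.inl ⟨u, v, fun h' => h (xi_inj h'), rfl⟩))
    | d y => exact Or.inr (Or.inr (Or.inr ⟨y, rfl⟩))

theorem chs_eq (hx : ∀ v, bitAt x (wi v) = z v) (y : Fin (8 * (q ^ 3 + ℓ) + 4 * q ^ 3)) :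
    chs q c A x y.1 = z (Sum.inr (Sum.inr y)) := hx (Sum.inr (Sum.inr y))

theorem sme_iff {A q a j j' : ℕ} {U : List (List Bool)} {C : IC} :
    sme q A a U C j j' = true ↔ ∀ v : Fin A, GX q a U C j v = GX q a U C j' v := by
  unfold sme
  simp only [List.all_eq_true, List.mem_range, beq_iff_eq]
  exact ⟨fun h v => h v.1 v.2, fun h v hv => h ⟨v, hv⟩⟩

theorem val_iff {a : ℕ} {U : List (List Bool)} {C : IC} {Γ : List ℕ}
    (hΓ : ∀ k, Γ.getD k 0 < c) (hx : ∀ v, bitAt x (wi v) = z v) :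
    (val1 q c A ℓ a U Γ x C = true ∧ val2 q c A ℓ a U x C = true) ↔
      Valid (posF (q := q) (ℓ := ℓ)) (hbF hΓ) (GG q A ℓ a U C) (fun y => z (Sum.inr (Sum.inr y))) := by
  unfold val1 val2
  simp only [List.all_eq_true, List.mem_range, Bool.or_eq_true, Bool.not_eq_true',
    Bool.and_eq_false_iff, List.any_eq_true, Bool.and_eq_true, decide_eq_true_eq,
    decide_eq_false_iff_not]
  constructor
  · rintro ⟨h1, h2⟩
    refine ⟨?_, ?_⟩
    · intro y y' h3 h4 h5 v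
      have h6 := h1 y.1 (by rw [nY_eq]; exact y.2) y'.1 (by rw [nY_eq]; exact y'.2)
      rw [chs_eq hx, chs_eq hx, h3, h4] at h6
      rcases h6 with (h6 | h6 | h6) | h6
      · cases h6
      · cases h6
      · exact absurd (Fin.ext_iff.mp h5) h6
      · exact sme_iff.mp h6 v
    · intro j v h3
      have h4 := h2 j.1 (by have := j.2; rw [q3]; exact this) v.1 v.2
      rcases h4 with h4 | ⟨y, h5, h6, h7⟩
      · unfold GG at h3
        rw [h3] at h4
        cases h4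
      · rw [nY_eq] at h5
        refine ⟨⟨y, h5⟩, ?_, Fin.ext h7⟩
        rw [← chs_eq hx]
        exact h6
  · rintro ⟨h1, h2⟩
    refine ⟨?_, ?_⟩
    · intro y hy y' hy'
      rw [nY_eq] at hy hy'
      by_cases h3 : chs q c A x y = true
      · by_cases h4 : chs q c A x y' = true
        · by_cases h5 : hby q c ℓ Γ y = hby q c ℓ Γ y'
          · right
            have := h1 ⟨y, hy⟩ ⟨y', hy'⟩ (by rw [← chs_eq hx]; exact h3)
              (by rw [← chs_eq hx]; exact h4) (Fin.ext h5)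
            exact sme_iff.mpr this
          · exact Or.inl (Or.inr (Or.inr h5))
        · exact Or.inl (Or.inr (Or.inl (by simpa using h4)))
      · exact Or.inl (Or.inl (by simpa using h3))
    · intro j hj v hv
      have hj' : j < q ^ 3 + ℓ := by
        rw [← q3]; exact hj
      by_cases h3 : GX q a U C j v = true
      · right
        obtain ⟨y, h4, h5⟩ := h2 ⟨j, hj'⟩ ⟨v, hv⟩ h3
        refine ⟨y.1, by rw [nY_eq]; exact y.2, ?_, Fin.ext_iff.mp h5⟩
        rw [chs_eq hx]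
        exact h4
      · exact Or.inl (by simpa using h3)

theorem tst_eq {a : ℕ} {U : List (List Bool)} {C : IC} {Γ : List ℕ}
    (hΓ : ∀ k, Γ.getD k 0 < c) (hx : ∀ v, bitAt x (wi v) = z v) (u : BT q c × Fin A) :
    tst q c A ℓ a U Γ x C (xi u) = tstX (posF (q := q) (ℓ := ℓ)) (hbF hΓ) (GG q A ℓ a U C)
      (fun y => z (Sum.inr (Sum.inr y))) u := by
  rw [Bool.eq_iff_iff]
  unfold tst tstX
  simp only [List.any_eq_true, Bool.and_eq_true, decide_eq_true_eq, (xi_div u).1,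
    (xi_div u).2]
  constructor
  · rintro ⟨y, h1, h2, h3, h4⟩
    rw [List.mem_range, nY_eq] at h1
    refine ⟨⟨y, h1⟩, ?_, Fin.ext h3, h4⟩
    rw [← chs_eq hx]
    exact h2
  · rintro ⟨y, h1, h2, h3⟩
    refine ⟨y.1, by rw [List.mem_range, nY_eq]; exact y.2, ?_, Fin.ext_iff.mp h2, h3⟩
    rw [chs_eq hx]
    exact h1

theorem one6_iff {a : ℕ} {U : List (List Bool)} {C : IC} {Γ : List ℕ}
    (hΓ : ∀ k, Γ.getD k 0 < c) (hx : ∀ v, bitAt x (wi v) = z v) :
    one6 q c A ℓ a U Γ x C = true ↔ ∃ σ, Valid (posF (q := q) (ℓ := ℓ)) (hbF hΓ) (GG q A ℓ a U C) σ ∧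
      z = Sum.elim (tstX (posF (q := q) (ℓ := ℓ)) (hbF hΓ) (GG q A ℓ a U C) σ)
        (Sum.elim (fun _ => false) σ) := by
  unfold one6
  rw [Bool.and_eq_true, Bool.and_eq_true, ← and_assoc, val_iff hΓ hx, eqv_iff hx]
  have e1 : (fun u : BT q c × Fin A => tst q c A ℓ a U Γ x C (xi u)) =
      tstX (posF (q := q) (ℓ := ℓ)) (hbF hΓ) (GG q A ℓ a U C) (fun y => z (Sum.inr (Sum.inr y))) :=
    funext fun u => tst_eq hΓ hx u
  have e2 : (fun y : Fin (8 * (q ^ 3 + ℓ) + 4 * q ^ 3) => chs q c A x y.1) = fun y => z (Sum.inr (Sum.inr y)) :=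
    funext fun y => chs_eq hx y
  rw [e1, e2]
  constructor
  · rintro ⟨h1, h2⟩
    exact ⟨_, h1, h2⟩
  · rintro ⟨σ, h1, h2⟩
    have h3 : (fun y => z (Sum.inr (Sum.inr y))) = σ := by
      rw [h2]; rfl
    rw [h3]
    exact ⟨h1, h2⟩

theorem oneB_iff {a : ℕ} {U : List (List Bool)} {F : List IC} {Γ : List ℕ}
    (hΓ : ∀ k, Γ.getD k 0 < c) (hx : ∀ v, bitAt x (wi v) = z v) :
    oneB q c A ℓ a U Γ F x = true ↔
      One (posF (q := q) (ℓ := ℓ)) (hbF hΓ) (fun G => ∃ C ∈ F, G = GG q A ℓ a U C) z := by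
  unfold oneB one4 one5
  simp only [Bool.or_eq_true, List.any_eq_true, exists_rangeX, nY_eq q ℓ, exists_range,
    Bool.and_eq_true, Bool.not_eq_true', decide_eq_false_iff_not, decide_eq_true_eq]
  simp only [← nY_eq q ℓ]
  simp only [eqv_iff hx, dec_xi, dec_y, dec_b hΓ, dec_v, one6_iff hΓ hx]
  constructor
  · rintro (⟨u, h⟩ | ⟨u, h⟩ | ⟨y, h⟩ | ⟨u, h⟩ | ⟨y, y', h1, h2, v, h⟩ | ⟨C, hC, σ, h1, h⟩)
    · rw [h]; exact One.a u
    · rw [h]; exact One.b u
    · rw [h]; exact One.b' y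
    · rw [h]; exact One.c u
    · rw [h]
      exact One.e y y' (Fin.ext h1) (fun h' => h2 (Fin.ext_iff.mp h')) v
    · rw [h]; exact One.f _ σ ⟨C, hC, rfl⟩ h1
  · intro h
    cases h with
    | a u => exact Or.inl ⟨u, rfl⟩
    | b u => exact Or.inr (Or.inl ⟨u, rfl⟩)
    | b' y => exact Or.inr (Or.inr (Or.inl ⟨y, rfl⟩))
    | c u => exact Or.inr (Or.inr (Or.inr (Or.inl ⟨u, rfl⟩)))
    | e y y' h1 h2 v =>
      exact Or.inr (Or.inr (Or.inr (Or.inr (Or.inl ⟨y, y', Fin.ext_iff.mp h1,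
        fun h' => h2 (Fin.ext h'), v, rfl⟩))))
    | f G σ hG hσ =>
      obtain ⟨C, hC, rfl⟩ := hG
      exact Or.inr (Or.inr (Or.inr (Or.inr (Or.inr ⟨C, hC, σ, hσ, rfl⟩))))

theorem entB_eq {a : ℕ} {U : List (List Bool)} {F : List IC} {Γ : List ℕ}
    (hΓ : ∀ k, Γ.getD k 0 < c) (hx : ∀ v, bitAt x (wi v) = z v) :
    entB q c A ℓ a U Γ F x =
      tab (posF (q := q) (ℓ := ℓ)) (hbF hΓ) (fun G => ∃ C ∈ F, G = GG q A ℓ a U C) z := by
  unfold entB tab
  by_cases h1 : Zer (hbF hΓ) z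
  · rw [(zerB_iff hΓ hx).mpr h1, if_pos h1, cond_true]
  · have h1' : zerB q c A ℓ Γ x = false := by
      rw [← Bool.not_eq_true, zerB_iff hΓ hx]; exact h1
    rw [h1', if_neg h1, cond_false]
    by_cases h2 : One (posF (q := q) (ℓ := ℓ)) (hbF hΓ) (fun G => ∃ C ∈ F, G = GG q A ℓ a U C) z
    · rw [(oneB_iff hΓ hx).mpr h2, if_pos h2, cond_true]
    · have h2' : oneB q c A ℓ a U Γ F x = false := by
        rw [← Bool.not_eq_true, oneB_iff hΓ hx]; exact h2
      rw [h2', if_neg h2, cond_false]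

end

/-- the table -/
def tabB (q c A ℓ a : ℕ) (U : List (List Bool)) (Γ : List ℕ) (F : List IC) :
    List (Option Bool) :=
  (allBits (nX q c A + nX q c A + nY q ℓ)).map fun x => entB q c A ℓ a U Γ F x

/-- the instance -/
def insB (q c A ℓ a : ℕ) (U : List (List Bool)) (Γ : List ℕ) (F : List IC) : List Bool :=
  encodeInstance (nX q c A + nX q c A + nY q ℓ) (tabB q c A ℓ a U Γ F)
    (nX q c A + nX q c A + nY q ℓ - 1)

/-- **The instance is a yes-instance iff the clauses with a correct choice are satisfiable.** -/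
theorem insB_mem {q c A ℓ a : ℕ} {U : List (List Bool)} {Γ : List ℕ} {F : List IC}
    (hq : 0 < q) (hA : 0 < A) (hΓ : ∀ k, Γ.getD k 0 < c) :
    insB q c A ℓ a U Γ F ∈ PartialMCSP ↔ ∃ w : Fin (q ^ 3 + ℓ) → Fin A, ∀ C ∈ F,
      (∃ σ, Valid (posF (q := q) (ℓ := ℓ)) (hbF hΓ) (GG q A ℓ a U C) σ) →
        ∃ j, GX q a U C j.1 (w j).1 = true := by
  unfold insB
  rw [encodeInstance_mem (by simp [tabB])]
  obtain ⟨e, he⟩ := exists_numbering q c A ℓ
  have hpos : 0 < nX q c A + nX q c A + nY q ℓ := by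
    have : 0 < nY q ℓ := by
      rw [nY_eq]; positivity
    omega
  have : Nontrivial (BT q c) := by
    rw [Fin.nontrivial_iff_two_le]
    omega
  have : Nonempty (Fin A) := ⟨⟨0, hA⟩⟩
  have hcore := core (n := nX q c A + nX q c A + nY q ℓ) (pos := posF (q := q) (ℓ := ℓ))
    (hb := hbF hΓ) (V := Fin A) (by
      intro j
      refine ⟨⟨8 * j.1, by have := j.2; omega⟩, Fin.ext ?_⟩
      simp only [posF]
      unfold psx
      rw [y0_eq, decide_eq_true (by have := j.2; omega), cond_true]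
      omega) (by
      intro y y' h1 h2
      exact Fin.ext (hby_inj_pos hΓ (Fin.ext_iff.mp h1) (Fin.ext_iff.mp h2)))
    (fun G => ∃ C ∈ F, G = GG q A ℓ a U C) e
  have hw : ∀ (z : WT q c A ℓ → Bool) (v : WT q c A ℓ),
      bitAt (List.ofFn fun i => z (e i)) (wi v) = z v := by
    intro z v
    rw [← he v]
    unfold bitAt
    rw [List.getD_eq_getElem _ _ (by simp)]
    simp
  have htab : ∀ z : WT q c A ℓ → Bool,
      (tabB q c A ℓ a U Γ F)[lexIndex (fun i => z (e i))]? =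
        some (tab (posF (q := q) (ℓ := ℓ)) (hbF hΓ) (fun G => ∃ C ∈ F, G = GG q A ℓ a U C) z) := by
    intro z
    unfold tabB
    rw [List.getElem?_map, allBits_lexIndex, ← entB_eq hΓ (hw z)]
    rfl
  have key : (∃ C : Circuit (nX q c A + nX q c A + nY q ℓ),
      C.size ≤ nX q c A + nX q c A + nY q ℓ - 1 ∧ C.Consistent (tabB q c A ℓ a U Γ F)) ↔
      (∃ C : Circuit (nX q c A + nX q c A + nY q ℓ), C.size + 1 ≤ nX q c A + nX q c A + nY q ℓ ∧
        ∀ (z : WT q c A ℓ → Bool) (b : Bool),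
        tab (posF (q := q) (ℓ := ℓ)) (hbF hΓ) (fun G => ∃ C ∈ F, G = GG q A ℓ a U C) z = some b →
          C.eval (fun i => z (e i)) = b) := by
    constructor
    · rintro ⟨C, h1, h2⟩
      refine ⟨C, by omega, fun z b hb => h2 _ b ?_⟩
      rw [htab z, hb]
    · rintro ⟨C, h1, h2⟩
      refine ⟨C, by omega, fun x b hb => ?_⟩
      have h3 := htab (fun v => x (e.symm v))
      simp only [Equiv.symm_apply_apply] at h3
      have h4 := h2 (fun v => x (e.symm v)) b (by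
        rw [h3] at hb
        exact Option.some.inj hb)
      simpa using h4
  rw [key, hcore]
  constructor
  · rintro ⟨w, hw⟩
    exact ⟨w, fun C hC hσ => hw _ ⟨C, hC, rfl⟩ hσ⟩
  · rintro ⟨w, hw⟩
    refine ⟨w, ?_⟩
    rintro G ⟨C, hC, rfl⟩ hσ
    exact hw C hC hσ

end Pool.Agent.H87.CNF
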