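import Pool.Agent.H87.PMCSP.Defs

/-!
# Constraint satisfaction problems
-/

namespace Pool.Agent.H87.CNF

open Pool.Agent.H87.PMCSP

/-- Clauses in the variables `x_0, …, x_{n-1}`: the literal `x_v = b` occurs in the clause `c`
iff `c v b = true`. -/
abbrev Clause (n : ℕ) : Type := Fin n → Bool → Bool

/-- The assignment `x` satisfies all clauses of the list `F`. -/
def Satisfies {n : ℕ} (x : Fin n → Bool) (F : List (Clause n)) : Prop :=
  ∀ c ∈ F, ∃ v, c v (x v) = true

/-- Branching programs in the variables `x_0, …, x_{n-1}`. The nodes are the positions
`0, 1, …` in the list, and the node `(v, a, b)` reads `x_v`; its successor is `a` if `x_v = 0`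
and `b` if `x_v = 1`. A successor may be any number; a number that is not a node is an
output. -/
abbrev Program (n : ℕ) : Type := List (Fin n × ℕ × ℕ)

/-- One step of the computation on the input `x`, from the node `u`; an output is not left. -/
def Program.next {n : ℕ} (P : Program n) (x : Fin n → Bool) (u : ℕ) : ℕ :=
  match P[u]? with
  | some (v, a, b) => bif x v then b else a
  | none => u

/-- The computation that starts at the node `0` is at the output `P.length` after `T` steps
(so it has reached this output after at most `T` steps). -/
def Program.Accepts {n : ℕ} (P : Program n) (x : Fin n → Bool) (T : ℕ) : Prop :=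
  (P.next x)^[T] 0 = P.length

/-- The variables form an array with `k` rows and `m` columns, row by row; this is the number
of the row `i`, that is, its position in the lexicographic order of `{0,1}^m`. -/
def row {k m : ℕ} (x : Fin (k * m) → Bool) (i : Fin k) : ℕ :=
  lexIndex fun t : Fin m => x (finProdFinEquiv (i, t))

/-- The rows `i < j` of `x` are related by `R i j`, the assignment `x` satisfies all clauses of
`F`, and the branching program `P` accepts `x` in at most `T` steps. -/
def Solves {k m : ℕ} (R : ℕ → ℕ → ℕ → ℕ → Bool) (F : List (Clause (k * m)))
    (P : Program (k * m)) (T : ℕ) (x : Fin (k * m) → Bool) : Prop :=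
  (∀ i j : Fin k, i < j → R i j (row x i) (row x j) = true) ∧ Satisfies x F ∧ P.Accepts x T

/-- A list of numbers in unary, each followed by a separator. -/
def unary (l : List ℕ) : List Bool := l.flatMap fun k => List.replicate k true ++ [false]

/-- The word that encodes `K`, `k`, `m`, `T`, the number of nodes of `P` and, node by node, the
three numbers of the node, in unary, and then the values `R i j u v` for `i, j < k` and
`u, v < 2 ^ m`, and then, clause by clause of `F` and variable by variable, two letters that
tell whether the literals `x_v = 0` and `x_v = 1` occur in the clause. -/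
def encodeCSP (K k m T : ℕ) (R : ℕ → ℕ → ℕ → ℕ → Bool) (F : List (Clause (k * m)))
    (P : Program (k * m)) : List Bool :=
  unary (K :: k :: m :: T :: P.length :: P.flatMap fun e => [e.1.1, e.2.1, e.2.2]) ++
    (((List.range k).flatMap fun i => (List.range k).flatMap fun j =>
      (List.range (2 ^ m)).flatMap fun u => (List.range (2 ^ m)).map fun v => R i j u v) ++
    F.flatMap fun c => (List.finRange (k * m)).flatMap fun v => [c v false, c v true])

end Pool.Agent.H87.CNF
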