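import Pool.Agent.H87.CNF.Algo
import Pool.Agent.H87.CNF.Defs

/-!
# Correctness of the reduction
-/

namespace Pool.Agent.H87.CNF

open Pool.Agent.PPS Pool.Agent.H87.PMCSP

/-! ### Decoding -/

/-- the matrix of a conjunctive normal form -/
def mat {n : ℕ} (F : List (Clause n)) : List Bool :=
  F.flatMap fun c => (List.finRange n).flatMap fun v => [c v false, c v true]

theorem nxt_enc (k : ℕ) (l : List Bool) :
    nxt (List.replicate k true ++ false :: l) = l := by
  unfold nxt
  rw [lead_append, List.drop_append]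
  simp

theorem length_flatMap_const {β : Type} {l : List β} {f : β → List Bool} {L : ℕ}
    (h : ∀ c ∈ l, (f c).length = L) : (l.flatMap f).length = l.length * L := by
  induction l with
  | nil => simp
  | cons c l ih =>
    rw [List.flatMap_cons, List.length_append, h c (by simp), ih (fun c hc => h c (by simp [hc])),
      List.length_cons]
    ring

theorem bitAt_flatMap {β : Type} {l : List β} {f : β → List Bool} {L : ℕ}
    (h : ∀ c ∈ l, (f c).length = L) {i : ℕ} (hi : i < l.length) {j : ℕ} (hj : j < L) :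
    bitAt (l.flatMap f) (i * L + j) = bitAt (f l[i]) j := by
  induction l generalizing i with
  | nil => simp at hi
  | cons c l ih =>
    rw [List.flatMap_cons, bitAt_append, h c (by simp)]
    cases i with
    | zero => simp [hj]
    | succ i =>
      have h1 : ¬ (i + 1) * L + j < L := by
        rw [Nat.add_mul]; omega
      rw [decide_eq_false h1, cond_false]
      have h2 : (i + 1) * L + j - L = i * L + j := by
        rw [Nat.add_mul]; omega
      rw [h2, ih (fun c hc => h c (by simp [hc])) (by simpa using hi)]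
      rfl

theorem length_row {n : ℕ} (c : Clause n) :
    ((List.finRange n).flatMap fun v => [c v false, c v true]).length = 2 * n := by
  rw [length_flatMap_const (L := 2) (fun _ _ => rfl), List.length_finRange]
  ring

theorem length_mat {n : ℕ} (F : List (Clause n)) : (mat F).length = F.length * (2 * n) :=
  length_flatMap_const fun c _ => length_row c

theorem bitAt_mat {n : ℕ} (F : List (Clause n)) {c : ℕ} (hc : c < F.length) (v : Fin n)
    (b : Bool) : bitAt (mat F) ((c * n + v.1) * 2 + b.toNat) = F[c] v b := by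
  have h1 : b.toNat < 2 := Bool.toNat_lt b
  have h2 : v.1 * 2 + b.toNat < 2 * n := by have := v.2; omega
  have h3 : (c * n + v.1) * 2 + b.toNat = c * (2 * n) + (v.1 * 2 + b.toNat) := by ring
  unfold mat
  rw [h3, bitAt_flatMap (fun c _ => length_row c) hc h2,
    bitAt_flatMap (L := 2) (fun _ _ => rfl) (by simp) h1]
  simp only [List.getElem_finRange]
  cases b <;> rfl

theorem mem_lits {n : ℕ} {M : List Bool} {c : ℕ} {l : Lit} : l ∈ lits n M c ↔
    l.1 < n ∧ bitAt M ((c * n + l.1) * 2 + l.2.toNat) = true := by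
  obtain ⟨v, b⟩ := l
  unfold lits
  simp only [List.mem_flatMap, List.mem_range, List.mem_append]
  constructor
  · rintro ⟨v', hv', h | h⟩
    · cases hb : bitAt M ((c * n + v') * 2) with
      | false => rw [hb, cond_false] at h; cases h
      | true =>
        rw [hb, cond_true, List.mem_singleton, Prod.mk.injEq] at h
        obtain ⟨rfl, rfl⟩ := h
        exact ⟨hv', hb⟩
    · cases hb : bitAt M ((c * n + v') * 2 + 1) with
      | false => rw [hb, cond_false] at h; cases h
      | true =>
        rw [hb, cond_true, List.mem_singleton, Prod.mk.injEq] at h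
        obtain ⟨rfl, rfl⟩ := h
        exact ⟨hv', hb⟩
  · rintro ⟨hv, hb⟩
    refine ⟨v, hv, ?_⟩
    cases b with
    | false =>
      left
      have : bitAt M ((c * n + v) * 2) = true := hb
      rw [this, cond_true]
      exact List.mem_singleton.mpr rfl
    | true =>
      right
      have : bitAt M ((c * n + v) * 2 + 1) = true := hb
      rw [this, cond_true]
      exact List.mem_singleton.mpr rfl

theorem nodup_lits {n : ℕ} {M : List Bool} {c : ℕ} : (lits n M c).Nodup := by
  unfold lits
  rw [List.nodup_flatMap]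
  constructor
  · intro v _
    cases bitAt M ((c * n + v) * 2) <;> cases bitAt M ((c * n + v) * 2 + 1) <;> simp
  · refine (List.nodup_range (n := n)).imp fun {v v'} hne => ?_
    intro l h1 h2
    have e1 : l.1 = v := by
      rw [List.mem_append] at h1
      rcases h1 with h | h
      · cases hb : bitAt M ((c * n + v) * 2) with
        | false => rw [hb, cond_false] at h; cases h
        | true => rw [hb, cond_true, List.mem_singleton] at h; rw [h]
      · cases hb : bitAt M ((c * n + v) * 2 + 1) with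
        | false => rw [hb, cond_false] at h; cases h
        | true => rw [hb, cond_true, List.mem_singleton] at h; rw [h]
    have e2 : l.1 = v' := by
      rw [List.mem_append] at h2
      rcases h2 with h | h
      · cases hb : bitAt M ((c * n + v') * 2) with
        | false => rw [hb, cond_false] at h; cases h
        | true => rw [hb, cond_true, List.mem_singleton] at h; rw [h]
      · cases hb : bitAt M ((c * n + v') * 2 + 1) with
        | false => rw [hb, cond_false] at h; cases h
        | true => rw [hb, cond_true, List.mem_singleton] at h; rw [h]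
    exact hne (e1.symm.trans e2)

theorem FL_eq {n : ℕ} (hn : 0 < n) (F : List (Clause n)) :
    FL n (mat F) = (List.range F.length).map fun c => lits n (mat F) c := by
  unfold FL
  rw [length_mat, Nat.mul_div_cancel _ (by omega)]

theorem length_FL {n : ℕ} (hn : 0 < n) (F : List (Clause n)) :
    (FL n (mat F)).length = F.length := by
  rw [FL_eq hn]; simp

theorem satL_FL {n : ℕ} (hn : 0 < n) (F : List (Clause n)) (x : ℕ → Bool) :
    SatL x (FL n (mat F)) ↔ Satisfies (fun v : Fin n => x v.1) F := by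
  rw [FL_eq hn]
  unfold SatL Satisfies
  simp only [List.mem_map, List.mem_range, forall_exists_index, and_imp,
    forall_apply_eq_imp_iff₂]
  constructor
  · intro h c hc
    obtain ⟨k, hk, rfl⟩ := List.mem_iff_getElem.mp hc
    obtain ⟨l, hl, hlx⟩ := h k hk
    rw [mem_lits] at hl
    obtain ⟨h1, h2⟩ := hl
    refine ⟨⟨l.1, h1⟩, ?_⟩
    rw [bitAt_mat F hk ⟨l.1, h1⟩ l.2] at h2
    simp only
    rw [hlx]
    exact h2
  · intro h k hk
    obtain ⟨v, hv⟩ := h F[k] (List.getElem_mem hk)
    refine ⟨(v.1, x v.1), ?_, rfl⟩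
    rw [mem_lits]
    refine ⟨v.2, ?_⟩
    rw [bitAt_mat F hk v (x v.1)]
    exact hv

theorem FL_lt {n : ℕ} {M : List Bool} : ∀ C ∈ FL n M, ∀ l ∈ C, l.1 < n := by
  intro C hC l hl
  unfold FL at hC
  obtain ⟨c, -, rfl⟩ := List.mem_map.mp hC
  exact (mem_lits.mp hl).1

theorem FL_nodup {n : ℕ} {M : List Bool} : ∀ C ∈ FL n M, C.Nodup := by
  intro C hC
  unfold FL at hC
  obtain ⟨c, -, rfl⟩ := List.mem_map.mp hC
  exact nodup_lits

/-! ### The parameters -/

theorem gdt_iff {q c w : ℕ} {Γ : List ℕ} (hΓ : ∀ k, Γ.getD k 0 < c) :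
    gdt q c w Γ (allBits q) = true ↔ ∃ h, h ≤ q ∧ 4 ≤ h ∧ 8 * w ≤ h ^ 3 ∧
      ∀ R : Finset (Fin q), R.card ≤ h → 2 * R.card ≤ (R.biUnion fun l =>
        Finset.univ.image fun i : Fin 4 => (⟨Γ.getD (l * 4 + i) 0, hΓ _⟩ : Fin c)).card := by
  unfold gdt
  simp only [List.any_eq_true, List.mem_range, Bool.and_eq_true, decide_eq_true_eq,
    good_iff hΓ, q3, Nat.lt_succ_iff]

theorem getD_lt {c k : ℕ} {Γ : List ℕ} (hc : 0 < c) (h : Γ ∈ wordsN c k) (i : ℕ) :
    Γ.getD i 0 < c := by
  rw [mem_wordsN] at h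
  by_cases hi : i < Γ.length
  · rw [List.getD_eq_getElem _ _ hi]
    exact h.2 _ (List.getElem_mem hi)
  · rw [List.getD_eq_default _ _ (by omega)]
    exact hc

theorem mem_params {K k m n w q s a : ℕ} {Γ : List ℕ} :
    (q, s, a, Γ) ∈ params K k m n w ↔
    q < Nat.size K ∧ s ≤ q ∧ a ≤ q ∧ okP K q s a = true ∧ 1 ≤ a ∧
      (k / a + 1) * m * a + (n - k * m) ≤ a * q ^ 3 ∧ q.Prime ∧
      Γ ∈ wordsN (2 ^ s) (4 * q) ∧ gdt q (2 ^ s) w Γ (allBits q) = true := by
  have e3 : q * (q * q) = q ^ 3 := by ring
  unfold params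
  simp only [List.mem_flatMap, List.mem_range]
  constructor
  · rintro ⟨q', hq', s', hs', a', ha', h⟩
    unfold parS at h
    cases hb : okP K q' s' a' with
    | false => rw [hb, Bool.false_and, cond_false] at h; cases h
    | true =>
      by_cases h1 : 1 ≤ a'
      · by_cases h2 : (k / a' + 1) * m * a' + (n - k * m) ≤ a' * (q' * (q' * q'))
        · cases h3 : prm q' with
          | false => rw [h3] at h; simp at h
          | true =>
            rw [hb, decide_eq_true h1, decide_eq_true h2, h3] at h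
            simp only [Bool.and_self, cond_true, cl, List.mem_map, List.mem_filter,
              Prod.mk.injEq] at h
            obtain ⟨Γ', ⟨hΓ', hg⟩, rfl, rfl, rfl, rfl⟩ := h
            refine ⟨hq', by omega, by omega, hb, h1, ?_, prm_iff.mp h3, hΓ', hg⟩
            rw [← e3]; exact h2
        · rw [decide_eq_false h2] at h; simp at h
      · rw [decide_eq_false h1] at h; simp at h
  · rintro ⟨h1, h2, h3, h4, h5, h6, h7, h8, h9⟩
    refine ⟨q, h1, s, by omega, a, by omega, ?_⟩
    unfold parS
    rw [← e3] at h6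
    rw [h4, decide_eq_true h5, decide_eq_true h6, prm_iff.mpr h7]
    simp only [Bool.and_self, cond_true, cl, List.mem_map, List.mem_filter]
    exact ⟨Γ, ⟨h8, h9⟩, rfl⟩

theorem insP_eq {K q s a : ℕ} {Γ : List ℕ} (h : okP K q s a = true) (I : List IC) :
    insP K (q, s, a, Γ) I =
      insB q (2 ^ s) (2 ^ a) ((Nat.size K - 1) / 16) a (allBits a) Γ I := by
  unfold insP cl
  simp only [h, cond_true]

/-! ### Special instances -/

theorem yesW_mem : yesW ∈ PartialMCSP := by
  refine ⟨1, 0, [none, none], rfl, rfl, Circuit.out 0 false, le_rfl, ?_⟩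
  intro x b h
  have : lexIndex x = 0 ∨ lexIndex x = 1 := by
    have := lexIndex_lt x
    omega
  rcases this with h1 | h1 <;> rw [h1] at h <;> simp at h

theorem noW_not_mem : noW ∉ PartialMCSP := by
  unfold noW
  rw [encodeInstance_mem (by simp)]
  rintro ⟨c, hc, h⟩
  cases c with
  | out w neg =>
    have e0 : lexIndex (fun _ : Fin 1 => false) = 0 := by simp [lexIndex]
    have e1 : lexIndex (fun _ : Fin 1 => true) = 1 := by simp [lexIndex]
    have h0 := h (fun _ => false) false (by rw [e0]; rfl)
    have h1 := h (fun _ => true) false (by rw [e1]; rfl)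
    simp only [Circuit.eval] at h0 h1
    cases neg <;> simp at h0 h1
  | gate _ _ _ _ _ rest => simp [Circuit.size] at hc

theorem brute_iff {K n : ℕ} {F : List (List Lit)} (hn : n ≤ Nat.size K - 1)
    (hF : ∀ C ∈ F, ∀ l ∈ C, l.1 < n) : brute K n F = true ↔ ∃ x : ℕ → Bool, SatL x F := by
  unfold brute cl SatL
  rw [decide_eq_true hn, cond_true]
  simp only [List.any_eq_true, List.all_eq_true, beq_iff_eq]
  constructor
  · rintro ⟨w, -, h⟩
    exact ⟨fun i => bitAt w i, h⟩
  · rintro ⟨x, h⟩
    refine ⟨List.ofFn fun i : Fin n => x i, by rw [mem_allBits]; simp, fun C hC => ?_⟩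
    obtain ⟨l, hl, hlx⟩ := h C hC
    refine ⟨l, hl, ?_⟩
    unfold bitAt
    rw [List.getD_eq_getElem _ _ (by simpa using hF C hC l hl)]
    simpa using hlx

/-! ### Correctness -/

theorem clsB_eq {w i : ℕ} {Z F : List (List Lit)} {ζ : List Lit} (hi : i < Z.length)
    (hζ : Z.getD i [] = ζ) (hc : cons? ζ = true) :
    clsB w Z F i = unitC ζ ++ short w ζ F := by
  unfold clsB
  rw [hζ, hc, decide_eq_true hi]
  rfl

/-- The clauses number `i` are those of a partial assignment, or unsatisfiable. -/
theorem clsB_cases {w i : ℕ} {Z F : List (List Lit)} :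
    clsB w Z F i = [[]] ∨ ∃ ζ, ζ ∈ Z ∧ cons? ζ = true ∧
      clsB w Z F i = unitC ζ ++ short w ζ F := by
  unfold clsB
  cases h : decide (i < Z.length) && cons? (Z.getD i []) with
  | false => exact Or.inl rfl
  | true =>
    rw [Bool.and_eq_true, decide_eq_true_eq] at h
    refine Or.inr ⟨_, ?_, h.2, rfl⟩
    rw [List.getD_eq_getElem _ _ h.1]
    exact List.getElem_mem h.1

theorem sat_unitC {ζ : List Lit} {x : ℕ → Bool} : SatL x (unitC ζ) ↔ ∀ l ∈ ζ, x l.1 = l.2 := by
  unfold SatL unitC
  constructor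
  · intro h l hl
    obtain ⟨l', hl', h'⟩ := h [l] (List.mem_map.mpr ⟨l, hl, rfl⟩)
    rw [List.mem_singleton] at hl'
    rw [← hl']
    exact h'
  · intro h C hC
    obtain ⟨l, hl, rfl⟩ := List.mem_map.mp hC
    exact ⟨l, List.mem_singleton.mpr rfl, h l hl⟩

theorem sat_of_short' {w : ℕ} {ζ : List Lit} {F : List (List Lit)} {x : ℕ → Bool}
    (hζ : ∀ l ∈ ζ, x l.1 = l.2) (h : SatL x (short w ζ F)) : SatL x F := by
  intro C hC
  cases hs : satd ζ C with
  | true =>
    unfold satd at hs
    rw [List.any_eq_true] at hs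
    obtain ⟨l, hl, hl'⟩ := hs
    rw [decide_eq_true_eq] at hl'
    exact ⟨l, hl, hζ l hl'⟩
  | false =>
    obtain ⟨l, hl, hlx⟩ := h ((rem ζ C).take w) (by
      unfold short
      exact List.mem_map.mpr ⟨C, List.mem_filter.mpr ⟨hC, by rw [hs]; rfl⟩, rfl⟩)
    exact ⟨l, (List.mem_filter.mp (List.mem_of_mem_take hl)).1, hlx⟩

theorem satL_append {x : ℕ → Bool} {F G : List (List Lit)} :
    SatL x (F ++ G) ↔ SatL x F ∧ SatL x G := by
  unfold SatL
  simp only [List.mem_append]
  exact ⟨fun h => ⟨fun C hC => h C (Or.inl hC), fun C hC => h C (Or.inr hC)⟩,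
    fun h C hC => hC.elim (h.1 C) (h.2 C)⟩

theorem redF_small {n K k m : ℕ} {F W : List (List Lit)} (hn : n ≤ Nat.size K - 1)
    (hF : ∀ C ∈ F, ∀ l ∈ C, l.1 < n) (hW : ∀ C ∈ W, ∀ l ∈ C, l.1 < n) :
    (∃ x : ℕ → Bool, SatL x F ∧ SatL x W) ↔ redF K k m n F W ∈ PartialMCSP := by
  have h0 : (∃ x : ℕ → Bool, SatL x F ∧ SatL x W) ↔ ∃ x : ℕ → Bool, SatL x (F ++ W) := by
    simp only [satL_append]
  rw [h0, ← brute_iff hn (fun C hC => (List.mem_append.mp hC).elim (hF C) (hW C))]
  unfold redF
  rw [decide_eq_true hn, cond_true]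
  cases brute K n (F ++ W) with
  | true =>
    rw [cond_true]
    exact ⟨fun _ => yesW_mem, fun _ => rfl⟩
  | false =>
    rw [cond_false]
    exact ⟨fun h => absurd h (by simp), fun h => absurd h noW_not_mem⟩

theorem redF_correct {n m k g K : ℕ} {F W : List (List Lit)} (hg : 2 ≤ g) (hgn : g ≤ n)
    (hm : 0 < m) (hkm : k * m ≤ n) (hmK : 16384 * m ≤ Nat.size K - 1)
    (hμ : F.length ^ g ≤ 2 ^ n) (hK : 2 ^ (CC * n) ≤ K ^ Nat.log 2 g)
    (hF : ∀ C ∈ F, ∀ l ∈ C, l.1 < n) (hnd : ∀ C ∈ F, C.Nodup)
    (hW : ∀ C ∈ W, ∀ l ∈ C, l.1 < n)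
    (hWide : ∀ a, 0 < a → ∀ q, ∀ C ∈ W, Wide q a (rixC k m a C)) :
    (∃ x : ℕ → Bool, SatL x F ∧ SatL x W) ↔ redF K k m n F W ∈ PartialMCSP := by
  by_cases hn : n ≤ Nat.size K - 1
  · exact redF_small hn hF hW
  · obtain ⟨hkw, q₀, s₀, a₀, h₀, hq₀, h80, ha₀, hsa₀, hna₀, hh₀, hhq₀, hwh₀, hm₀⟩ :=
      exists_params hg hgn hμ hK hmK hn
    have hkp : kp K F.length = (Nat.size K - 1) / 16 / (Nat.size F.length + 1) := rfl
    rw [← hkp] at hkw hwh₀
    have hwd' : wd K n F.length = n / kp K F.length + 1 := rfl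
    rw [← hwd'] at hkw hwh₀
    -- there are parameters
    have hne : 0 < (params K k m n (wd K n F.length)).length := by
      have hc : 0 < 2 ^ s₀ := by positivity
      obtain ⟨Γ, hΓ, hΓm, hgad⟩ := exists_gad_list (q := q₀) (h := h₀) hc hm₀
      have hok : okP K q₀ s₀ a₀ = true := okP_iff.mpr ⟨h80, hsa₀⟩
      have hmem : (q₀, s₀, a₀, Γ) ∈ params K k m n (wd K n F.length) := by
        rw [mem_params]
        have hs1 : s₀ < 2 ^ s₀ := Nat.lt_two_pow_self
        have hs2 : 2 ^ s₀ ≤ 2 ^ (s₀ + a₀) := Nat.pow_le_pow_right (by norm_num) (by omega)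
        have ha1 : a₀ < 2 ^ a₀ := Nat.lt_two_pow_self
        have ha2 : 2 ^ a₀ ≤ 2 ^ (s₀ + a₀) := Nat.pow_le_pow_right (by norm_num) (by omega)
        have hq3 : q₀ ≤ q₀ ^ 3 := Nat.le_self_pow (by norm_num) q₀
        have := hq₀.pos
        have hbd : (k / a₀ + 1) * m * a₀ + (n - k * m) ≤ a₀ * q₀ ^ 3 := by
          refine le_trans ?_ hna₀
          have e1 : k / a₀ * a₀ ≤ k := Nat.div_mul_le_self _ _
          have e2 : (k / a₀ + 1) * m * a₀ = (k / a₀ * a₀) * m + a₀ * m := by ring
          have e3 : (k / a₀ * a₀) * m ≤ k * m := Nat.mul_le_mul_right _ e1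
          omega
        exact ⟨by omega, by omega, by omega, hok, ha₀, hbd, hq₀, hΓm,
          (gdt_iff hΓ).mpr ⟨h₀, hhq₀, hh₀, hwh₀, hgad⟩⟩
      exact List.length_pos_of_mem hmem
    unfold redF
    rw [decide_eq_false hn, cond_false, decide_eq_true hne, cond_true,
      List.getD_eq_getElem _ _ hne]
    have hmem := List.getElem_mem hne
    generalize (params K k m n (wd K n F.length))[0] = p at hmem
    obtain ⟨q, s, a, Γ⟩ := p
    rw [mem_params] at hmem
    obtain ⟨-, -, -, hok, ha, hna, hq, hΓm, hgd⟩ := hmem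
    rw [insP_eq hok]
    simp only
    have hΓ : ∀ k, Γ.getD k 0 < 2 ^ s := getD_lt (by positivity) hΓm
    obtain ⟨h, -, hh, hwh, hgad⟩ := (gdt_iff hΓ).mp hgd
    have hlen : (sts K n F).length ≤ 2 ^ ((Nat.size K - 1) / 16) := by
      refine (length_states_le _ _ _).trans ?_
      have h1 : F.length + 1 ≤ 2 ^ (Nat.size F.length + 1) := by
        have := Nat.lt_size_self F.length
        rw [pow_succ]; omega
      calc (F.length + 1) ^ kp K F.length ≤ (2 ^ (Nat.size F.length + 1)) ^ kp K F.length :=
            Nat.pow_le_pow_left h1 _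
        _ = 2 ^ ((Nat.size F.length + 1) * kp K F.length) := by rw [← pow_mul]
        _ ≤ 2 ^ ((Nat.size K - 1) / 16) :=
            Nat.pow_le_pow_right (by norm_num) (Nat.mul_div_le _ _)
    unfold icB
    constructor
    · rintro ⟨x, hx, hxW⟩
      obtain ⟨ζ, hζ, hagr, hsat⟩ := exists_state hF hnd hx hkw
      obtain ⟨i, hi, hiζ⟩ := List.mem_iff_getElem.mp hζ
      have hcls : clsB (wd K n F.length) (sts K n F) F i =
          unitC ζ ++ short (wd K n F.length) ζ F :=
        clsB_eq hi (by
          unfold sts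
          rw [List.getD_eq_getElem _ _ hi, hiζ]) (cons_of_agr hagr)
      have hζlt : ∀ l ∈ ζ, l.1 < n := by
        intro l hl
        obtain ⟨C, hC, l', hl', rfl⟩ := state_lit ζ hζ l hl
        exact hF C hC l' hl'
      refine insB_of_sat (i := i) (x := fun z => x (ry k m a z)) hq.pos ha hΓ
        (lt_of_lt_of_le hi hlen) ?_ ?_ ?_ ?_
      · rw [hcls]
        refine rix_lt hm ha hkm hna fun C hC l hl => ?_
        rcases List.mem_append.mp hC with hC | hC
        · unfold unitC at hC
          obtain ⟨l', hl', rfl⟩ := List.mem_map.mp hC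
          rw [List.mem_singleton.mp hl]
          exact hζlt l' hl'
        · obtain ⟨D, hD, hDl⟩ := short_sub hC
          exact hF D hD l (hDl l hl)
      · exact rix_lt hm ha hkm hna hW
      · rw [hcls]
        exact satL_rix' hm ha (satL_append.mpr ⟨sat_unitC.mpr hagr, hsat⟩)
      · exact satL_rix' hm ha hxW
    · intro hmem
      obtain ⟨i, -, x, hx, hxW⟩ := sat_of_insB (w := wd K n F.length) hq hΓ hh hwh hgad (by
        intro i _
        refine rix_width fun C hC => ?_
        rcases clsB_cases (w := wd K n F.length) (Z := sts K n F) (F := F) (i := i) with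
          h1 | ⟨ζ, -, -, h1⟩
        · rw [h1, List.mem_singleton] at hC
          rw [hC]
          exact Nat.zero_le _
        · rw [h1] at hC
          rcases List.mem_append.mp hC with hC | hC
          · unfold unitC at hC
            obtain ⟨l', hl', rfl⟩ := List.mem_map.mp hC
            exact Nat.succ_le_succ (Nat.zero_le _)
          · exact short_width hC) (by
        intro C hC
        unfold rix at hC
        obtain ⟨C', hC', rfl⟩ := List.mem_map.mp hC
        exact hWide a ha q C' hC') hmem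
      rw [satL_rix] at hx hxW
      rcases clsB_cases (w := wd K n F.length) (Z := sts K n F) (F := F) (i := i) with
        h1 | ⟨ζ, -, hc, h1⟩
      · rw [h1] at hx
        obtain ⟨l, hl, -⟩ := hx [] (by simp)
        cases hl
      · rw [h1, satL_append, sat_unitC] at hx
        exact ⟨_, sat_of_short' hx.1 hx.2, hxW⟩

/-- All values of the reduction are instances with the size bound `n - 1`. -/
theorem redF_form (K k m n : ℕ) (F W : List (List Lit)) :
    ∃ (r : ℕ) (T : List (Option Bool)), redF K k m n F W = encodeInstance r T (r - 1) := by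
  unfold redF
  cases decide (n ≤ Nat.size K - 1) with
  | true =>
    rw [cond_true]
    cases brute K n (F ++ W) with
    | true => exact ⟨1, [none, none], rfl⟩
    | false => exact ⟨1, [some false, some false], rfl⟩
  | false =>
    rw [cond_false]
    cases decide (0 < (params K k m n (wd K n F.length)).length) with
    | true => exact ⟨_, _, rfl⟩
    | false => exact ⟨1, [some false, some false], rfl⟩

end Pool.Agent.H87.CNF
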