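import Pool.Agent.H87.CNF.Param

/-!
# The choice of the parameters, for branching programs
-/

namespace Pool.Agent.H87.CNF

/-- The constant of the theorem. -/
def C2 : ℕ := 40 * CC

theorem size_mul_le {μ g n : ℕ} (hgn : g ≤ n) (hμ : μ ^ g ≤ 2 ^ n) :
    g * Nat.size μ ≤ 2 * n := by
  rcases Nat.eq_zero_or_pos μ with h | h
  · subst h; simp
  · have h4 : 0 < Nat.size μ := Nat.size_pos.mpr h
    have h5 : 2 ^ (Nat.size μ - 1) ≤ μ := Nat.lt_size.mp (by omega)
    have h6 : (2 ^ (Nat.size μ - 1)) ^ g ≤ 2 ^ n := (Nat.pow_le_pow_left h5 g).trans hμ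
    rw [← pow_mul] at h6
    have h7 := (Nat.pow_le_pow_iff_right (by norm_num : 1 < 2)).mp h6
    obtain ⟨s, hs⟩ : ∃ s, Nat.size μ = s + 1 := ⟨Nat.size μ - 1, by omega⟩
    rw [hs, Nat.add_sub_cancel] at h7
    rw [hs]
    calc g * (s + 1) = s * g + g := by ring
      _ ≤ 2 * n := by omega

theorem size_succ_mul_le {S g n : ℕ} (hgn : g ≤ n) (hS : S ^ g ≤ 2 ^ n) :
    g * Nat.size (S + 1) ≤ 3 * n := by
  have h1 := size_mul_le hgn hS
  have h2 : Nat.size (S + 1) ≤ Nat.size S + 1 := by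
    rw [Nat.size_le, pow_succ]
    have := Nat.lt_size_self S
    omega
  calc g * Nat.size (S + 1) ≤ g * (Nat.size S + 1) := Nat.mul_le_mul_left _ h2
    _ = g * Nat.size S + g := by ring
    _ ≤ 3 * n := by omega

theorem exists_params2 {n g μ S T K r ℓ q n' : ℕ} (hg : 2 ≤ g) (hgn : g ≤ n)
    (hμ : μ ^ g ≤ 2 ^ n) (hS : S ^ g ≤ 2 ^ n) (hr : r = Nat.size (S + 1))
    (hT : T * r * g ≤ 2 * n ^ 2) (hℓ : ℓ = T * r / n + 1) (hq : q = T / ℓ + 1)
    (hn' : n' = n + (q + 1) * r) (hK : 2 ^ (C2 * n) ≤ K ^ Nat.log 2 g) :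
    ℓ ≤ Nat.size K - 1 ∧ (¬ n' ≤ Nat.size K - 1 → ∃ g', 2 ≤ g' ∧ g' ≤ n' ∧
      (μ + (r + (r + q * ((S + 2) * (2 ^ ℓ * r))))) ^ g' ≤ 2 ^ n' ∧
      2 ^ (CC * n') ≤ K ^ Nat.log 2 g') := by
  set l := Nat.log 2 g with hl
  have hn0 : 0 < n := by omega
  have hl1 : 1 ≤ l := Nat.log_pos (by norm_num) hg
  have hgl : 2 ^ l ≤ g := Nat.pow_log_le_self 2 (by omega)
  have hlg : l ≤ g := (Nat.lt_two_pow_self.le).trans hgl
  have hKpos : 0 < K := by
    rcases Nat.eq_zero_or_pos K with h | h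
    · rw [h, zero_pow (by omega)] at hK
      have : 0 < 2 ^ (C2 * n) := pow_pos (by norm_num) _
      omega
    · exact h
  have hsK : 0 < Nat.size K := Nat.size_pos.mpr hKpos
  obtain ⟨L, hL⟩ : ∃ L, Nat.size K = L + 1 := ⟨Nat.size K - 1, by omega⟩
  have hKlt : K < 2 ^ (L + 1) := by rw [← hL]; exact Nat.lt_size_self K
  have hL' : Nat.size K - 1 = L := by omega
  rw [hL']
  have h1 : C2 * n < (L + 1) * l := by
    have h2 : K ^ l < (2 ^ (L + 1)) ^ l := Nat.pow_lt_pow_left hKlt (by omega)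
    rw [← pow_mul] at h2
    exact (Nat.pow_lt_pow_iff_right (by norm_num)).mp (lt_of_le_of_lt hK h2)
  have hC2 : C2 = 83886080 := rfl
  have hr1 : 1 ≤ r := by rw [hr]; exact Nat.size_pos.mpr (by omega)
  have hrg : g * r ≤ 3 * n := by rw [hr]; exact size_succ_mul_le hgn hS
  have hSr : S + 2 ≤ 2 ^ r := by
    have := Nat.lt_size_self (S + 1)
    rw [← hr] at this
    omega
  have hℓpos : 0 < ℓ := by rw [hℓ]; exact Nat.succ_pos _
  -- number of segments
  have hqr : (T / ℓ) * r ≤ n := by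
    have e1 : T * r < ℓ * n := by
      have := Nat.lt_div_mul_add (a := T * r) hn0
      rw [hℓ, Nat.add_mul, Nat.one_mul]
      exact this
    have e2 : (T / ℓ) * ℓ * r ≤ T * r := Nat.mul_le_mul_right _ (Nat.div_mul_le_self T ℓ)
    have e3 : ℓ * ((T / ℓ) * r) ≤ ℓ * n := by
      calc ℓ * ((T / ℓ) * r) = (T / ℓ) * ℓ * r := by ring
        _ ≤ ℓ * n := e2.trans e1.le
    exact Nat.le_of_mul_le_mul_left e3 hℓpos
  have hn'5 : n' ≤ 5 * n := by
    have e1 : (q + 1) * r = (T / ℓ) * r + 2 * r := by rw [hq]; ring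
    have e2 : 2 * r ≤ g * r := Nat.mul_le_mul_right _ hg
    rw [hn', e1]
    omega
  have hℓg : ℓ * g ≤ 3 * n := by
    have e1 : T * r / n * n ≤ T * r := Nat.div_mul_le_self _ _
    have e2 : n * (T * r / n * g) ≤ n * (2 * n) := by
      calc n * (T * r / n * g) = (T * r / n * n) * g := by ring
        _ ≤ T * r * g := Nat.mul_le_mul_right _ e1
        _ ≤ 2 * n ^ 2 := hT
        _ = n * (2 * n) := by ring
    have e3 := Nat.le_of_mul_le_mul_left e2 hn0
    rw [hℓ, Nat.add_mul, Nat.one_mul]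
    omega
  refine ⟨?_, ?_⟩
  · by_contra hcon
    have e0 : L + 1 ≤ ℓ := by omega
    have e1 : g * (C2 * n) < g * (ℓ * g) := by
      apply Nat.mul_lt_mul_of_pos_left _ (by omega)
      calc C2 * n < (L + 1) * l := h1
        _ ≤ ℓ * g := Nat.mul_le_mul e0 hlg
    have e2 : g * (ℓ * g) ≤ g * (3 * n) := Nat.mul_le_mul_left _ hℓg
    have e3 : C2 * n < 3 * n := Nat.lt_of_mul_lt_mul_left (lt_of_lt_of_le e1 e2)
    rw [hC2] at e3
    omega
  · intro hcon
    have hL5 : L + 1 ≤ 5 * n := by omega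
    have hl5 : C2 < 5 * l := by
      have e1 : n * C2 < n * (5 * l) := by
        calc n * C2 = C2 * n := by ring
          _ < (L + 1) * l := h1
          _ ≤ 5 * n * l := Nat.mul_le_mul_right _ hL5
          _ = n * (5 * l) := by ring
      exact Nat.lt_of_mul_lt_mul_left e1
    rw [hC2] at hl5
    obtain ⟨b, hb⟩ : ∃ b, b = l / 4 := ⟨_, rfl⟩
    have hb1 : 1000 ≤ b := by omega
    have hb4 : 4 * b ≤ l := by omega
    have hb8 : l ≤ 8 * b := by omega
    have hg'g : (2 ^ b) ^ 4 ≤ g := by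
      rw [← pow_mul]
      exact (Nat.pow_le_pow_right (by norm_num) (by omega)).trans hgl
    have hb2 : b < 2 ^ b := Nat.lt_two_pow_self
    refine ⟨2 ^ b, by omega, ?_, ?_, ?_⟩
    · have : 2 ^ b ≤ (2 ^ b) ^ 4 := Nat.le_self_pow (by norm_num) _
      omega
    · -- the bound for the number of clauses
      have hα := size_mul_le hgn hμ
      have hμα : μ ≤ 2 ^ Nat.size μ := (Nat.lt_size_self μ).le
      set α := Nat.size μ with hαd
      have hq2 : q ≤ 2 * n := by
        have : T / ℓ ≤ T / ℓ * r := Nat.le_mul_of_pos_right _ hr1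
        omega
      have hr2 : r ≤ 2 ^ r := Nat.lt_two_pow_self.le
      set X := 2 ^ (α + 2 * r + ℓ + 1) * n with hX
      have t1 : μ ≤ X := by
        calc μ ≤ 2 ^ α := hμα
          _ ≤ 2 ^ (α + 2 * r + ℓ + 1) := Nat.pow_le_pow_right (by norm_num) (by omega)
          _ ≤ X := Nat.le_mul_of_pos_right _ hn0
      have t2 : 2 * r ≤ X := by
        calc 2 * r ≤ 2 * 2 ^ r := Nat.mul_le_mul_left _ hr2
          _ = 2 ^ (r + 1) := by rw [pow_succ]; ring
          _ ≤ 2 ^ (α + 2 * r + ℓ + 1) := Nat.pow_le_pow_right (by norm_num) (by omega)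
          _ ≤ X := Nat.le_mul_of_pos_right _ hn0
      have t3 : q * ((S + 2) * (2 ^ ℓ * r)) ≤ X := by
        calc q * ((S + 2) * (2 ^ ℓ * r)) ≤ (2 * n) * (2 ^ r * (2 ^ ℓ * 2 ^ r)) := by
              gcongr
          _ = 2 ^ (2 * r + ℓ + 1) * n := by
              rw [show 2 * r + ℓ + 1 = r + (ℓ + r) + 1 by ring, pow_succ, pow_add, pow_add]
              ring
          _ ≤ X := Nat.mul_le_mul_right _ (Nat.pow_le_pow_right (by norm_num) (by omega))
      have t4 : μ + (r + (r + q * ((S + 2) * (2 ^ ℓ * r)))) ≤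
          2 ^ (α + 2 * r + ℓ + 3) * 2 ^ Nat.size n := by
        calc μ + (r + (r + q * ((S + 2) * (2 ^ ℓ * r)))) ≤ 4 * X := by omega
          _ = 2 ^ (α + 2 * r + ℓ + 3) * n := by
              rw [hX, show α + 2 * r + ℓ + 3 = (α + 2 * r + ℓ + 1) + 2 by ring, pow_add _ _ 2]
              ring
          _ ≤ _ := Nat.mul_le_mul_left _ (Nat.lt_size_self n).le
      refine (Nat.pow_le_pow_left t4 _).trans ?_
      rw [← pow_add, ← pow_mul]
      apply Nat.pow_le_pow_right (by norm_num)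
      -- exponents
      set e := α + 2 * r + ℓ + 3 with he
      have heg : e * g ≤ 14 * n := by
        calc e * g = g * α + 2 * (g * r) + ℓ * g + 3 * g := by rw [he]; ring
          _ ≤ 14 * n := by omega
      have he2 : 2 * (e * 2 ^ b) ≤ n := by
        have f1 : 28 ≤ (2 ^ b) ^ 3 := by
          have : 28 ≤ 2 ^ b := by omega
          exact this.trans (Nat.le_self_pow (by norm_num) _)
        have f2 : 14 * (2 * (e * 2 ^ b)) ≤ 14 * n := by
          calc 14 * (2 * (e * 2 ^ b)) = (e * 2 ^ b) * 28 := by ring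
            _ ≤ (e * 2 ^ b) * (2 ^ b) ^ 3 := Nat.mul_le_mul_left _ f1
            _ = e * (2 ^ b) ^ 4 := by ring
            _ ≤ e * g := Nat.mul_le_mul_left _ hg'g
            _ ≤ 14 * n := heg
        omega
      have hn2 : 2 * (Nat.size n * 2 ^ b) ≤ n := by
        obtain ⟨z, hz⟩ : ∃ z, Nat.size n = z + 1 :=
          ⟨Nat.size n - 1, by have := Nat.size_pos.mpr hn0; omega⟩
        have f1 : 2 ^ z ≤ n := Nat.lt_size.mp (by omega)
        have f2 : l ≤ z := by
          have : l < Nat.size n := Nat.lt_size.mpr (hgl.trans hgn)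
          omega
        have f3 : z + 1 ≤ 2 ^ (z / 2) := by
          have g1 : ∀ k : ℕ, 5 ≤ k → 2 * k + 2 ≤ 2 ^ k := by
            intro k hk
            induction k, hk using Nat.le_induction with
            | base => norm_num
            | succ k _ ih => rw [pow_succ]; omega
          have := g1 (z / 2) (by omega)
          omega
        rw [hz]
        calc 2 * ((z + 1) * 2 ^ b) ≤ 2 * (2 ^ (z / 2) * 2 ^ b) := by gcongr
          _ = 2 ^ (z / 2 + b + 1) := by rw [pow_succ, pow_add]; ring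
          _ ≤ 2 ^ z := Nat.pow_le_pow_right (by norm_num) (by omega)
          _ ≤ n := f1
      have : (e + Nat.size n) * 2 ^ b = e * 2 ^ b + Nat.size n * 2 ^ b := by ring
      rw [this]
      omega
    · have hlog : Nat.log 2 (2 ^ b) = b := Nat.log_pow (by norm_num) b
      rw [hlog]
      have f1 : (2 ^ (5 * (CC * n))) ^ 8 ≤ (K ^ b) ^ 8 := by
        calc (2 ^ (5 * (CC * n))) ^ 8 = 2 ^ (C2 * n) := by
              rw [← pow_mul]
              congr 1
              unfold C2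
              ring
          _ ≤ K ^ l := hK
          _ ≤ K ^ (b * 8) := Nat.pow_le_pow_right hKpos (by omega)
          _ = (K ^ b) ^ 8 := by rw [pow_mul]
      have f2 := (Nat.pow_le_pow_iff_left (by norm_num)).mp f1
      refine le_trans (Nat.pow_le_pow_right (by norm_num) ?_) f2
      calc CC * n' ≤ CC * (5 * n) := Nat.mul_le_mul_left _ hn'5
        _ = 5 * (CC * n) := by ring

end Pool.Agent.H87.CNF
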