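import Pool.Agent.H87.CNF.Algo2
import Pool.Agent.H87.CNF.Param2

/-!
# Correctness of the reduction for branching programs
-/

namespace Pool.Agent.H87.CNF

open Pool.Agent.PPS Pool.Agent.H87.PMCSP

/-! ### Decoding -/

theorem unary_cons (k : ℕ) (l : List ℕ) :
    unary (k :: l) = List.replicate k true ++ false :: unary l := by
  unfold unary
  rw [List.flatMap_cons]
  simp

theorem nxt_unary (k : ℕ) (l : List ℕ) (M : List Bool) :
    nxt (unary (k :: l) ++ M) = unary l ++ M := by
  rw [unary_cons, List.append_assoc, List.cons_append]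
  exact nxt_enc k _

theorem rst_unary (l : List ℕ) (M : List Bool) {i : ℕ} (hi : i ≤ l.length) :
    rst (unary l ++ M) i = unary (l.drop i) ++ M := by
  induction i with
  | zero => rfl
  | succ i ih =>
    unfold rst at ih ⊢
    rw [Function.iterate_succ_apply', ih (by omega),
      List.drop_eq_getElem_cons (show i < l.length by omega), nxt_unary]

theorem fld_unary (l : List ℕ) (M : List Bool) {i : ℕ} (hi : i < l.length) :
    fld (unary l ++ M) i = l.getD i 0 := by
  unfold fld
  rw [rst_unary l M hi.le, List.drop_eq_getElem_cons hi, unary_cons, List.append_assoc,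
    List.cons_append, lead_append, List.getD_eq_getElem _ _ hi]

theorem length_flatMap_const' {β γ : Type} {l : List β} {f : β → List γ} {L : ℕ}
    (h : ∀ c ∈ l, (f c).length = L) : (l.flatMap f).length = l.length * L := by
  induction l with
  | nil => simp
  | cons c l ih =>
    rw [List.flatMap_cons, List.length_append, h c (by simp), ih (fun c hc => h c (by simp [hc])),
      List.length_cons]
    ring

theorem getD_flatMap {β γ : Type} {l : List β} {f : β → List γ} {L : ℕ} (d : γ)
    (h : ∀ c ∈ l, (f c).length = L) {i : ℕ} (hi : i < l.length) {j : ℕ} (hj : j < L) :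
    (l.flatMap f).getD (i * L + j) d = (f l[i]).getD j d := by
  induction l generalizing i with
  | nil => simp at hi
  | cons c l ih =>
    rw [List.flatMap_cons]
    cases i with
    | zero =>
      rw [List.getD_append _ _ _ _ (by rw [h c (by simp)]; omega)]
      simp
    | succ i =>
      have h1 : (i + 1) * L + j = (f c).length + (i * L + j) := by
        rw [h c (by simp)]; ring
      rw [h1, List.getD_append_right _ _ _ _ (by omega), Nat.add_sub_cancel_left,
        ih (fun c hc => h c (by simp [hc])) (by simpa using hi)]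
      rfl

/-- the numbers in the code -/
def nums (K k m T : ℕ) {n : ℕ} (P : Program n) : List ℕ :=
  K :: k :: m :: T :: P.length :: P.flatMap fun e => [e.1.1, e.2.1, e.2.2]

theorem length_nums (K k m T : ℕ) {n : ℕ} (P : Program n) :
    (nums K k m T P).length = 5 + 3 * P.length := by
  unfold nums
  simp only [List.length_cons]
  rw [length_flatMap_const' (L := 3) (fun _ _ => rfl)]
  ring

/-- the values of the relations -/
def rel (k m : ℕ) (R : ℕ → ℕ → ℕ → ℕ → Bool) : List Bool :=
  (List.range k).flatMap fun i => (List.range k).flatMap fun j =>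
      (List.range (2 ^ m)).flatMap fun u => (List.range (2 ^ m)).map fun v => R i j u v

theorem encodeCSP_eq (K k m T : ℕ) (R : ℕ → ℕ → ℕ → ℕ → Bool) (F : List (Clause (k * m)))
    (P : Program (k * m)) :
    encodeCSP K k m T R F P = unary (nums K k m T P) ++ (rel k m R ++ mat F) := rfl

theorem length_rel1 (V : ℕ) (f : ℕ → ℕ → Bool) :
    ((List.range V).flatMap fun u => (List.range V).map fun v => f u v).length = V * V := by
  rw [length_flatMap_const (L := V) (fun _ _ => by simp), List.length_range]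

theorem length_rel2 (k V : ℕ) (f : ℕ → ℕ → ℕ → Bool) :
    ((List.range k).flatMap fun j => (List.range V).flatMap fun u =>
      (List.range V).map fun v => f j u v).length = k * (V * V) := by
  rw [length_flatMap_const (L := V * V) (fun j _ => length_rel1 V (f j)), List.length_range]

theorem length_rel (k m : ℕ) (R : ℕ → ℕ → ℕ → ℕ → Bool) :
    (rel k m R).length = k * k * 2 ^ m * 2 ^ m := by
  unfold rel
  rw [length_flatMap_const (L := k * (2 ^ m * 2 ^ m)) (fun i _ => length_rel2 k _ (R i)),
    List.length_range]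
  ring

theorem bitAt_rel {k m i j u v : ℕ} (R : ℕ → ℕ → ℕ → ℕ → Bool) (X : List Bool) (hi : i < k)
    (hj : j < k) (hu : u < 2 ^ m) (hv : v < 2 ^ m) :
    bitAt (rel k m R ++ X) (((i * k + j) * 2 ^ m + u) * 2 ^ m + v) = R i j u v := by
  have h1 : u * 2 ^ m + v < 2 ^ m * 2 ^ m := by
    calc u * 2 ^ m + v < u * 2 ^ m + 2 ^ m := by omega
      _ = (u + 1) * 2 ^ m := by ring
      _ ≤ 2 ^ m * 2 ^ m := Nat.mul_le_mul_right _ hu
  have h2 : j * (2 ^ m * 2 ^ m) + (u * 2 ^ m + v) < k * (2 ^ m * 2 ^ m) := by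
    calc j * (2 ^ m * 2 ^ m) + (u * 2 ^ m + v) < j * (2 ^ m * 2 ^ m) + 2 ^ m * 2 ^ m := by
          omega
      _ = (j + 1) * (2 ^ m * 2 ^ m) := by ring
      _ ≤ k * (2 ^ m * 2 ^ m) := Nat.mul_le_mul_right _ hj
  have h3 : ((i * k + j) * 2 ^ m + u) * 2 ^ m + v =
      i * (k * (2 ^ m * 2 ^ m)) + (j * (2 ^ m * 2 ^ m) + (u * 2 ^ m + v)) := by ring
  have h4 : i * (k * (2 ^ m * 2 ^ m)) + (j * (2 ^ m * 2 ^ m) + (u * 2 ^ m + v)) <
      (rel k m R).length := by
    rw [length_rel]
    calc _ < i * (k * (2 ^ m * 2 ^ m)) + k * (2 ^ m * 2 ^ m) := by omega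
      _ = (i + 1) * (k * (2 ^ m * 2 ^ m)) := by ring
      _ ≤ k * (k * (2 ^ m * 2 ^ m)) := Nat.mul_le_mul_right _ hi
      _ = k * k * 2 ^ m * 2 ^ m := by ring
  rw [h3, bitAt_append, decide_eq_true h4, cond_true]
  unfold rel
  rw [bitAt_flatMap (L := k * (2 ^ m * 2 ^ m)) (fun i _ => length_rel2 k _ (R i))
      (by simpa using hi) h2,
    bitAt_flatMap (L := 2 ^ m * 2 ^ m) (fun j _ => length_rel1 _ _) (by simpa using hj) h1,
    bitAt_flatMap (L := 2 ^ m) (fun _ _ => by simp) (by simpa using hu) hv]
  simp only [List.getElem_range]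
  unfold bitAt
  rw [List.getD_eq_getElem _ _ (by simpa using hv)]
  simp

/-- the nodes as triples of numbers -/
def nds {n : ℕ} (P : Program n) : List Nd := P.map fun e => (e.1.1, e.2.1, e.2.2)

theorem progL_eq (K k m T : ℕ) {n : ℕ} (P : Program n) (M : List Bool) :
    progL (unary (nums K k m T P) ++ M) P.length = nds P := by
  unfold progL nds
  refine List.ext_getElem (by simp) fun u h1 h2 => ?_
  simp only [List.length_map, List.length_range] at h1 h2
  simp only [List.getElem_map, List.getElem_range]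
  have hl := length_nums K k m T P
  have key : ∀ j < 3, fld (unary (nums K k m T P) ++ M) (5 + 3 * u + j) =
      ([P[u].1.1, P[u].2.1, P[u].2.2] : List ℕ).getD j 0 := by
    intro j hj
    rw [fld_unary _ _ (by omega)]
    have e1 : 5 + 3 * u + j = (u * 3 + j) + 1 + 1 + 1 + 1 + 1 := by ring
    rw [e1]
    unfold nums
    simp only [List.getD_cons_succ]
    rw [getD_flatMap 0 (L := 3) (fun _ _ => rfl) h2 hj]
  have k0 := key 0 (by norm_num)
  have k1 := key 1 (by norm_num)
  have k2 := key 2 (by norm_num)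
  rw [show 5 + 3 * u = 5 + 3 * u + 0 by ring, show 6 + 3 * u = 5 + 3 * u + 1 by ring,
    show 7 + 3 * u = 5 + 3 * u + 2 by ring, k0, k1, k2]
  rfl

theorem red2_enc {K k m T : ℕ} (R : ℕ → ℕ → ℕ → ℕ → Bool) (F : List (Clause (k * m)))
    (P : Program (k * m)) (hm : m ≤ Nat.size K - 1) :
    red2 (encodeCSP K k m T R F P) = redH K k m T P.length (nds P) (FL (k * m) (mat F))
      (ngs k m (2 ^ m) (allBits m) (rel k m R ++ mat F)) := by
  have hl := length_nums K k m T P
  unfold red2
  rw [encodeCSP_eq]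
  generalize hM : rel k m R ++ mat F = M
  have f0 : fld (unary (nums K k m T P) ++ M) 0 = K := by
    rw [fld_unary _ _ (by omega)]; rfl
  have f1 : fld (unary (nums K k m T P) ++ M) 1 = k := by
    rw [fld_unary _ _ (by omega)]; rfl
  have f2 : fld (unary (nums K k m T P) ++ M) 2 = m := by
    rw [fld_unary _ _ (by omega)]; rfl
  have f3 : fld (unary (nums K k m T P) ++ M) 3 = T := by
    rw [fld_unary _ _ (by omega)]; rfl
  have f4 : fld (unary (nums K k m T P) ++ M) 4 = P.length := by
    rw [fld_unary _ _ (by omega)]; rfl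
  have hgm : gm K m = m := by
    unfold gm cl
    rw [decide_eq_true hm, cond_true]
  rw [f0, f1, f2, f3, f4]
  unfold redN
  have e0 : (nums K k m T P).drop (5 + 3 * P.length) = [] :=
    List.drop_eq_nil_of_le (by omega)
  rw [progL_eq, rst_unary _ _ (by omega), e0, hgm]
  have e1 : (unary [] ++ M).drop (k * k * 2 ^ m * 2 ^ m) = mat F := by
    rw [← hM, ← length_rel k m R]
    exact List.drop_left' rfl
  rw [e1]
  rfl

/-! ### Computations -/

theorem getD_nds {n : ℕ} (P : Program n) {u : ℕ} (hu : u < P.length) :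
    (nds P).getD u (0, 0, 0) = (P[u].1.1, P[u].2.1, P[u].2.2) := by
  unfold nds
  rw [List.getD_eq_getElem _ _ (by simpa using hu)]
  simp

theorem run_eq {n : ℕ} (P : Program n) (x : Fin n → Bool) (x' : ℕ → Bool)
    (hx : ∀ v : Fin n, x' v.1 = x v) (t : ℕ) :
    (nxx P.length (nds P) x')^[t] 0 = min ((P.next x)^[t] 0) (P.length + 1) := by
  induction t with
  | zero => simp
  | succ t ih =>
    rw [Function.iterate_succ_apply', Function.iterate_succ_apply', ih]
    generalize (P.next x)^[t] 0 = u
    by_cases hu : u < P.length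
    · have h1 : min u (P.length + 1) = u := by omega
      rw [h1]
      unfold nxx nx Program.next
      rw [getD_nds P hu, decide_eq_true hu, cond_true, List.getElem?_eq_getElem hu]
      simp only
      rw [hx]
    · have h1 : ¬ min u (P.length + 1) < P.length := by omega
      rw [nxx_ge h1]
      unfold Program.next
      rw [List.getElem?_eq_none (by omega)]

/-! ### The relations -/

/-- the number of the row `i` -/
def rowN (m : ℕ) (x : ℕ → Bool) (i : ℕ) : ℕ := lexIndex fun t : Fin m => x (i * m + t.1)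

theorem cw_rowN (m : ℕ) (x : ℕ → Bool) (i : ℕ) {t : ℕ} (ht : t < m) :
    bitAt (cw (allBits m) (rowN m x i)) t = x (i * m + t) := by
  have h1 := allBits_lexIndex (fun t : Fin m => x (i * m + t.1))
  unfold cw rowN
  rw [List.getD_eq_getElem?_getD, h1]
  simp only [Option.getD_some]
  exact bitAt_ofFn (fun t : Fin m => x (i * m + t.1)) ⟨t, ht⟩

theorem sat_ngs {k m : ℕ} (R : ℕ → ℕ → ℕ → ℕ → Bool) (X : List Bool) (x : ℕ → Bool) :
    SatL x (ngs k m (2 ^ m) (allBits m) (rel k m R ++ X)) ↔
      ∀ i j : ℕ, i < j → j < k → R i j (rowN m x i) (rowN m x j) = true := by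
  have hrow : ∀ i, rowN m x i < 2 ^ m := fun i => lexIndex_lt _
  constructor
  · intro h i j hij hj
    by_contra hR
    rw [Bool.not_eq_true] at hR
    obtain ⟨l, hl, hlx⟩ := h (nog m i j (cw (allBits m) (rowN m x i))
        (cw (allBits m) (rowN m x j))) (by
      unfold ngs
      simp only [List.mem_flatMap, List.mem_range]
      refine ⟨i, by omega, j, hj, rowN m x i, hrow i, rowN m x j, hrow j, ?_⟩
      unfold ngC
      rw [bitAt_rel R X (by omega) hj (hrow i) (hrow j), hR, decide_eq_true hij]
      exact List.mem_singleton.mpr rfl)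
    obtain ⟨t, ht, h1 | h1⟩ := sat_nog.mp ⟨l, hl, hlx⟩
    · exact h1 (cw_rowN m x i ht).symm
    · exact h1 (cw_rowN m x j ht).symm
  · intro h C hC
    unfold ngs at hC
    simp only [List.mem_flatMap, List.mem_range] at hC
    obtain ⟨i, hi, j, hj, u, hu, v, hv, hC⟩ := hC
    unfold ngC at hC
    rw [bitAt_rel R X hi hj hu hv] at hC
    by_cases hij : i < j
    · cases hR : R i j u v with
      | true => rw [hR] at hC; simp at hC
      | false =>
        rw [hR, decide_eq_true hij] at hC
        simp only [Bool.not_false, Bool.and_self, cond_true, List.mem_singleton] at hC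
        rw [hC]
        rw [sat_nog]
        by_contra hcon
        push Not at hcon
        have e1 : rowN m x i = u := bits_eq (hrow i) hu fun t ht => by
          rw [cw_rowN m x i ht]; exact (hcon t ht).1
        have e2 : rowN m x j = v := bits_eq (hrow j) hv fun t ht => by
          rw [cw_rowN m x j ht]; exact (hcon t ht).2
        have := h i j hij hj
        rw [e1, e2, hR] at this
        cases this
    · rw [decide_eq_false hij] at hC
      simp at hC

theorem ngs_lt {k m V n : ℕ} {U : List (List Bool)} {M : List Bool} (hkm : k * m ≤ n) :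
    ∀ C ∈ ngs k m V U M, ∀ l ∈ C, l.1 < n := by
  intro C hC
  unfold ngs at hC
  simp only [List.mem_flatMap, List.mem_range] at hC
  obtain ⟨i, hi, j, hj, u, hu, v, hv, hC⟩ := hC
  unfold ngC at hC
  cases h : (decide (i < j) && !(bitAt M (((i * k + j) * V + u) * V + v))) with
  | false => rw [h] at hC; simp at hC
  | true =>
    rw [h, cond_true, List.mem_singleton] at hC
    rw [hC]
    exact nog_lt hi hj hkm

theorem ngs_wide {k m V : ℕ} {U : List (List Bool)} {M : List Bool} (hm : 0 < m) :
    ∀ a, 0 < a → ∀ q, ∀ C ∈ ngs k m V U M, Wide q a (rixC k m a C) := by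
  intro a ha q C hC
  unfold ngs at hC
  simp only [List.mem_flatMap, List.mem_range] at hC
  obtain ⟨i, hi, j, hj, u, hu, v, hv, hC⟩ := hC
  unfold ngC at hC
  cases h : (decide (i < j) && !(bitAt M (((i * k + j) * V + u) * V + v))) with
  | false => rw [h] at hC; simp at hC
  | true =>
    rw [h, cond_true, List.mem_singleton] at hC
    rw [hC]
    exact wide_nog ha hm hi hj

theorem row_eq {k m : ℕ} (x : Fin (k * m) → Bool) (x' : ℕ → Bool)
    (hx : ∀ v : Fin (k * m), x' v.1 = x v) (i : Fin k) : row x i = rowN m x' i.1 := by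
  unfold row rowN
  congr 1
  funext t
  rw [← hx]
  congr 1
  simp only [finProdFinEquiv_apply_val]
  ring

theorem solves_iff {k m T : ℕ} (hn : 0 < k * m) (R : ℕ → ℕ → ℕ → ℕ → Bool)
    (F : List (Clause (k * m))) (P : Program (k * m)) (X : List Bool) :
    (∃ x, Solves R F P T x) ↔
      ∃ x : ℕ → Bool, (SatL x (FL (k * m) (mat F)) ∧
        (nxx P.length (nds P) x)^[T] 0 = P.length) ∧
        SatL x (ngs k m (2 ^ m) (allBits m) (rel k m R ++ X)) := by
  simp only [sat_ngs]
  constructor
  · rintro ⟨x, h1, hx, hacc⟩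
    set x' : ℕ → Bool := fun i => if h : i < k * m then x ⟨i, h⟩ else false with hx'
    have hxx : ∀ v : Fin (k * m), x' v.1 = x v := fun v => by simp [hx']
    refine ⟨x', ⟨?_, ?_⟩, ?_⟩
    · rw [satL_FL hn]
      convert hx using 1
      funext v
      exact hxx v
    · rw [run_eq P x _ hxx]
      unfold Program.Accepts at hacc
      omega
    · intro i j hij hj
      have := h1 ⟨i, by omega⟩ ⟨j, hj⟩ hij
      rw [row_eq x x' hxx, row_eq x x' hxx] at this
      exact this
  · rintro ⟨x, ⟨hx, hacc⟩, h1⟩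
    refine ⟨fun v => x v.1, ?_, (satL_FL hn F x).mp hx, ?_⟩
    · intro i j hij
      rw [row_eq (fun v => x v.1) x (fun v => rfl), row_eq (fun v => x v.1) x (fun v => rfl)]
      exact h1 i.1 j.1 hij j.2
    · rw [run_eq P (fun v => x v.1) x (fun v => rfl)] at hacc
      unfold Program.Accepts
      omega

/-! ### Correctness -/

/-- **Correctness of the reduction.** -/
theorem red2_correct {k m g K T : ℕ} (R : ℕ → ℕ → ℕ → ℕ → Bool) (F : List (Clause (k * m)))
    (P : Program (k * m)) (hg : 2 ≤ g) (hgn : g ≤ k * m) (hμ : F.length ^ g ≤ 2 ^ (k * m))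
    (hS : P.length ^ g ≤ 2 ^ (k * m))
    (hT : T * Nat.size (P.length + 1) * g ≤ 2 * (k * m) ^ 2)
    (hKm : 2 ^ (16384 * m) ≤ K) (hK : 2 ^ (C2 * (k * m)) ≤ K ^ Nat.log 2 g) :
    (∃ x, Solves R F P T x) ↔ red2 (encodeCSP K k m T R F P) ∈ PartialMCSP := by
  have hn : 0 < k * m := by omega
  have hm : 0 < m := Nat.pos_of_ne_zero (by rintro rfl; simp at hn)
  have hmK : 16384 * m ≤ Nat.size K - 1 := by
    have := Nat.lt_size.mpr hKm
    omega
  rw [red2_enc R F P (by omega), solves_iff hn R F P (mat F)]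
  set S := P.length with hSd
  set p := nds P with hp
  set G := FL (k * m) (mat F) with hG
  set W := ngs k m (2 ^ m) (allBits m) (rel k m R ++ mat F) with hWd
  have hGl : G.length = F.length := length_FL hn F
  have hGlt : ∀ C ∈ G, ∀ l ∈ C, l.1 < k * m := FL_lt
  have hGnd : ∀ C ∈ G, C.Nodup := FL_nodup
  have hWlt : ∀ C ∈ W, ∀ l ∈ C, l.1 < k * m := ngs_lt le_rfl
  obtain ⟨hℓ, hrest⟩ := exists_params2 (μ := G.length) (T := T) (r := rr S)
    (ℓ := ll (k * m) T S) (q := qq (k * m) T S) (n' := nn (k * m) T S) hg hgn (by rw [hGl]; exact hμ) hS rfl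
    hT rfl rfl rfl hK
  have hr : S + 2 ≤ 2 ^ rr S := by
    have := Nat.lt_size_self (S + 1)
    unfold rr
    omega
  have hq : T ≤ qq (k * m) T S * ll (k * m) T S := by
    have h0 : 0 < ll (k * m) T S := Nat.succ_pos _
    have := Nat.lt_div_mul_add (a := T) h0
    unfold qq
    rw [Nat.add_mul, Nat.one_mul]
    exact this.le
  have hpn : ∀ v < S, (p.getD v (0, 0, 0)).1 < k * m := by
    intro v hv
    rw [hp, getD_nds P hv]
    exact P[v].1.2
  have hcls : cls2 K (k * m) T S p G = allC (k * m + (qq (k * m) T S + 1) * rr S) (k * m) (rr S) S T (ll (k * m) T S)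
      (qq (k * m) T S) (allBits (rr S)) (allBits (ll (k * m) T S)) p G := by
    unfold cls2 cl nn
    rw [decide_eq_true hℓ, cond_true]
  rw [← allC_sat hr hq hGlt hWlt hpn, ← hcls]
  unfold redH
  have hlt : ∀ C ∈ cls2 K (k * m) T S p G, ∀ l ∈ C, l.1 < nn (k * m) T S := by
    rw [hcls]
    exact allC_lt hGlt
  have hndp : ∀ C ∈ cls2 K (k * m) T S p G, C.Nodup := by
    rw [hcls]
    exact allC_nodup hGnd
  have hnn : k * m ≤ nn (k * m) T S := Nat.le_add_right _ _
  have hWlt' : ∀ C ∈ W, ∀ l ∈ C, l.1 < nn (k * m) T S := fun C hC l hl =>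
    lt_of_lt_of_le (hWlt C hC l hl) hnn
  by_cases hsm : nn (k * m) T S ≤ Nat.size K - 1
  · exact redF_small hsm hlt hWlt'
  · obtain ⟨g', hg', hg'n, hμ', hK'⟩ := hrest hsm
    refine redF_correct hg' hg'n hm hnn hmK (le_trans (Nat.pow_le_pow_left ?_ _) hμ') hK' hlt
      hndp hWlt' (ngs_wide hm)
    rw [hcls]
    exact length_allC

theorem red2_form (w : List Bool) :
    ∃ (r : ℕ) (tab : List (Option Bool)), red2 w = encodeInstance r tab (r - 1) :=
  redF_form _ _ _ _ _ _

end Pool.Agent.H87.CNF
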