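import Pool.Agent.H87.CNF.Sem

/-!
# Search for the gadget
-/

namespace Pool.Agent.H87.CNF

open Pool.Agent.PPS Pool.Agent.H87.PMCSP H87.HC Finset

/-- number of elements of the set coded by `R` -/
def cnt (q : ℕ) (R : List Bool) : ℕ := ((List.range q).filter fun l => bitAt R l).length

/-- number of points that are hit by `R` -/
def hit (q c : ℕ) (Γ : List ℕ) (R : List Bool) : ℕ :=
  ((List.range c).filter fun v => (List.range q).any fun l => bitAt R l &&
    (List.range 4).any fun i => decide (Γ.getD (l * 4 + i) 0 = v)).length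

/-- the expansion of the gadget, tested on the sets of the list `Rs` -/
def good (q c h : ℕ) (Γ : List ℕ) (Rs : List (List Bool)) : Bool :=
  Rs.all fun R => !(decide (cnt q R ≤ h)) || decide (2 * cnt q R ≤ hit q c Γ R)

/-- test of primality -/
def prm (q : ℕ) : Bool :=
  decide (2 ≤ q) && (List.range q).all fun d => !(decide (2 ≤ d) && decide (q % d = 0))

theorem prm_iff {q : ℕ} : prm q = true ↔ q.Prime := by
  unfold prm
  rw [Nat.prime_def_lt']
  simp only [Bool.and_eq_true, decide_eq_true_eq, List.all_eq_true, List.mem_range,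
    Bool.not_eq_true', Bool.and_eq_false_iff, decide_eq_false_iff_not]
  refine and_congr_right fun _ => ⟨fun h m h1 h2 h3 => ?_, fun h d hd => ?_⟩
  · rcases h m h2 with h4 | h4
    · exact h4 h1
    · exact h4 (Nat.mod_eq_zero_of_dvd h3)
  · by_cases h1 : 2 ≤ d
    · right
      intro h2
      exact h d h1 hd (Nat.dvd_of_mod_eq_zero h2)
    · exact Or.inl h1

theorem length_filter_range (q : ℕ) (p : ℕ → Bool) :
    ((List.range q).filter p).length =
      (Finset.univ.filter fun l : Fin q => p l.1 = true).card := by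
  rw [← List.toFinset_card_of_nodup ((List.nodup_range).filter _),
    ← Finset.card_map Fin.valEmbedding]
  congr 1
  ext x
  simp only [List.mem_toFinset, List.mem_filter, List.mem_range, Finset.mem_map,
    Finset.mem_filter, Finset.mem_univ, true_and, Fin.valEmbedding_apply]
  constructor
  · rintro ⟨h1, h2⟩
    exact ⟨⟨x, h1⟩, h2, rfl⟩
  · rintro ⟨y, h1, rfl⟩
    exact ⟨y.2, h1⟩

theorem bitAt_ofFn {q : ℕ} (f : Fin q → Bool) (l : Fin q) : bitAt (List.ofFn f) l.1 = f l := by
  unfold bitAt
  rw [List.getD_eq_getElem _ _ (by simp)]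
  simp

theorem good_iff {q c h : ℕ} {Γ : List ℕ} (hΓ : ∀ k, Γ.getD k 0 < c) :
    good q c h Γ (allBits q) = true ↔
      ∀ R : Finset (Fin q), R.card ≤ h → 2 * R.card ≤ (R.biUnion fun l =>
        Finset.univ.image fun i : Fin 4 => (⟨Γ.getD (l * 4 + i) 0, hΓ _⟩ : Fin c)).card := by
  classical
  have h1 : ∀ R : List Bool, cnt q R =
      (Finset.univ.filter fun l : Fin q => bitAt R l.1 = true).card := fun R =>
    length_filter_range q _
  have h2 : ∀ R : List Bool, hit q c Γ R =
      ((Finset.univ.filter fun l : Fin q => bitAt R l.1 = true).biUnion fun l =>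
        Finset.univ.image fun i : Fin 4 => (⟨Γ.getD (l * 4 + i) 0, hΓ _⟩ : Fin c)).card := by
    intro R
    unfold hit
    rw [length_filter_range]
    congr 1
    ext v
    simp only [Finset.mem_filter, Finset.mem_univ, true_and, List.any_eq_true,
      Bool.and_eq_true, List.mem_range, decide_eq_true_eq, Finset.mem_biUnion,
      Finset.mem_image]
    constructor
    · rintro ⟨l, hl, h3, i, hi, h4⟩
      exact ⟨⟨l, hl⟩, h3, ⟨i, hi⟩, Fin.ext h4⟩
    · rintro ⟨l, h3, i, h4⟩
      exact ⟨l.1, l.2, h3, i.1, i.2, Fin.ext_iff.mp h4⟩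
  unfold good
  simp only [List.all_eq_true, Bool.or_eq_true, Bool.not_eq_true', decide_eq_false_iff_not,
    decide_eq_true_eq, h1, h2]
  constructor
  · intro h R hR
    have h3 : (Finset.univ.filter fun l : Fin q =>
        bitAt (List.ofFn fun l : Fin q => decide (l ∈ R)) l.1 = true) = R := by
      ext l
      rw [Finset.mem_filter, bitAt_ofFn]
      simp
    have h4 := h (List.ofFn fun l : Fin q => decide (l ∈ R)) (by rw [mem_allBits]; simp)
    rw [h3] at h4
    rcases h4 with h4 | h4
    · exact absurd hR h4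
    · exact h4
  · intro hR R _
    by_cases h3 : (Finset.univ.filter fun l : Fin q => bitAt R l.1 = true).card ≤ h
    · exact Or.inr (hR _ h3)
    · exact Or.inl h3

section PT

variable {t : Bool} {α : Type} [Rep α] {q c h : α → ℕ} {Γ : α → List ℕ} {R : α → List Bool}
  {Rs : α → List (List Bool)}

@[fun_prop]
theorem PT.cnt' (hq : PT t q) (hR : PT t R) : PT t (fun b => cnt (q b) (R b)) := by
  unfold cnt
  exact PT.length' (PT.filter2 (by fun_prop) (by fun_prop))

@[fun_prop]
theorem PT.hit' (hq : PT t q) (hc : PT t c) (hΓ : PT t Γ) (hR : PT t R) :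
    PT t (fun b => hit (q b) (c b) (Γ b) (R b)) := by
  unfold hit
  refine PT.length' (PT.filter2 (by fun_prop) ?_)
  refine PT.any2 (f := fun (z : α × ℕ) l => bitAt (R z.1) l &&
    (List.range 4).any fun i => decide ((Γ z.1).getD (l * 4 + i) 0 = z.2)) (by fun_prop) ?_
  refine PT.and' (by fun_prop) ?_
  exact PT.any2 (f := fun (z : (α × ℕ) × ℕ) i =>
    decide ((Γ z.1.1).getD (z.2 * 4 + i) 0 = z.1.2)) (by fun_prop) (by fun_prop)

@[fun_prop]
theorem PT.good' (hq : PT t q) (hc : PT t c) (hh : PT t h) (hΓ : PT t Γ) (hRs : PT t Rs) :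
    PT t (fun b => good (q b) (c b) (h b) (Γ b) (Rs b)) := by
  unfold good
  refine PT.all2 hRs ?_
  have h1 : PT t (fun z : α × List Bool => decide (cnt (q z.1) z.2 ≤ h z.1)) :=
    PT.decideLe (by fun_prop) (by fun_prop)
  have h2 : PT t (fun z : α × List Bool =>
      decide (2 * cnt (q z.1) z.2 ≤ hit (q z.1) (c z.1) (Γ z.1) z.2)) :=
    PT.decideLe (by fun_prop) (by fun_prop)
  fun_prop

@[fun_prop]
theorem PT.prm' (hq : PT t q) : PT t (fun b => prm (q b)) := by
  unfold prm
  refine PT.and' (PT.decideLe (by fun_prop) hq) (PT.all2 (by fun_prop) ?_)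
  have h1 : PT t (fun z : α × ℕ => decide (2 ≤ z.2)) := PT.decideLe (by fun_prop) (by fun_prop)
  fun_prop

end PT

end Pool.Agent.H87.CNF
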