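import Mathlib

/-!
# Small expanding gadgets exist
-/

namespace Pool.Agent.H87.CNF

open Finset

theorem pow_self_le (k : ℕ) : k ^ k ≤ 3 ^ k * k.factorial := by
  have h1 := Real.pow_div_factorial_le_exp (k : ℝ) (Nat.cast_nonneg k) k
  have h2 : Real.exp (k : ℝ) ≤ 3 ^ k := by
    rw [← Real.exp_one_pow]
    refine pow_le_pow_left₀ (Real.exp_pos 1).le ?_ k
    have := Real.exp_one_lt_d9
    linarith
  have h3 : (0 : ℝ) < k.factorial := by exact_mod_cast k.factorial_pos
  rw [div_le_iff₀ h3] at h1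
  have h4 : (k : ℝ) ^ k ≤ 3 ^ k * k.factorial := h1.trans (by gcongr)
  exact_mod_cast h4

theorem choose_bound {q m k : ℕ} (hk : 0 < k) (h : 432 * q * k ≤ m ^ 2) :
    q.choose k * m.choose (2 * k) * ((2 * k) ^ 4) ^ k * 4 ^ k ≤ (m ^ 4) ^ k := by
  have h1 : k.factorial * q.choose k ≤ q ^ k := by
    rw [← Nat.descFactorial_eq_factorial_mul_choose]; exact Nat.descFactorial_le_pow q k
  have h2 : (2 * k).factorial * m.choose (2 * k) ≤ m ^ (2 * k) := by
    rw [← Nat.descFactorial_eq_factorial_mul_choose]; exact Nat.descFactorial_le_pow m (2 * k)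
  have h3 := pow_self_le k
  have h4 := pow_self_le (2 * k)
  have h5 : k ^ k * (2 * k) ^ (2 * k) * (q.choose k * m.choose (2 * k)) ≤
      (27 * q * m ^ 2) ^ k := by
    calc k ^ k * (2 * k) ^ (2 * k) * (q.choose k * m.choose (2 * k))
        ≤ (3 ^ k * k.factorial) * (3 ^ (2 * k) * (2 * k).factorial) *
          (q.choose k * m.choose (2 * k)) := by gcongr
      _ = (3 ^ k * 3 ^ (2 * k)) * ((k.factorial * q.choose k) *
          ((2 * k).factorial * m.choose (2 * k))) := by ring
      _ ≤ (3 ^ k * 3 ^ (2 * k)) * (q ^ k * m ^ (2 * k)) := by gcongr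
      _ = (27 * q * m ^ 2) ^ k := by
        rw [mul_pow, mul_pow, pow_mul, pow_mul, ← mul_pow 3 (3 ^ 2) k]
        norm_num
        ring
  have hkk : 0 < k ^ k := pow_pos hk k
  refine Nat.le_of_mul_le_mul_left ?_ hkk
  calc k ^ k * (q.choose k * m.choose (2 * k) * ((2 * k) ^ 4) ^ k * 4 ^ k)
      = (k ^ k * (2 * k) ^ (2 * k) * (q.choose k * m.choose (2 * k))) *
        ((2 * k) ^ 2 * 4) ^ k := by
        rw [mul_pow ((2 * k) ^ 2) 4 k, show ((2 * k) ^ 4) ^ k = (2 * k) ^ (2 * k) *
          ((2 * k) ^ 2) ^ k by rw [← pow_mul, ← pow_mul, ← pow_add]; congr 1; ring]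
        ring
    _ ≤ (27 * q * m ^ 2) ^ k * ((2 * k) ^ 2 * 4) ^ k := by gcongr
    _ = (k * ((432 * q * k) * m ^ 2)) ^ k := by rw [← mul_pow]; congr 1; ring
    _ ≤ (k * (m ^ 2 * m ^ 2)) ^ k := by gcongr
    _ = k ^ k * (m ^ 4) ^ k := by rw [mul_pow]; congr 2; ring

theorem geom_quarter (K : ℕ) : ∑ k ∈ range K, (1 / 4 : ℝ) ^ (k + 1) < 1 := by
  have : ∀ K : ℕ, ∑ k ∈ range K, (1 / 4 : ℝ) ^ (k + 1) = (1 - (1 / 4) ^ K) / 3 := by
    intro K
    induction K with
    | zero => simp
    | succ K ih => rw [sum_range_succ, ih, pow_succ]; ring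
  rw [this]
  have : (0 : ℝ) < (1 / 4) ^ K := by positivity
  linarith

/-- the functions that map `R` into `T` -/
def badSet {q m : ℕ} (R : Finset (Fin q)) (T : Finset (Fin m)) :
    Finset (Fin q → Fin 4 → Fin m) :=
  Fintype.piFinset fun l => if l ∈ R then Fintype.piFinset fun _ => T else Finset.univ

theorem card_badSet {q m : ℕ} (R : Finset (Fin q)) (T : Finset (Fin m)) :
    (badSet R T).card = (T.card ^ 4) ^ R.card * (m ^ 4) ^ (q - R.card) := by
  unfold badSet
  rw [Fintype.card_piFinset]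
  have h : ∀ l : Fin q, (if l ∈ R then Fintype.piFinset fun _ : Fin 4 => T
      else Finset.univ).card = if l ∈ R then T.card ^ 4 else m ^ 4 := by
    intro l
    split
    · simp
    · simp
  simp only [h]
  rw [Finset.prod_ite]
  simp only [Finset.prod_const]
  congr 2
  · congr 1; ext; simp
  · have : (Finset.univ.filter fun x => x ∉ R) = Rᶜ := by ext; simp
    rw [this, Finset.card_compl, Fintype.card_fin]

theorem exists_gadget {q h m : ℕ} (hm0 : 0 < m) (hm : 432 * q * h ≤ m ^ 2) :
    ∃ Γ : Fin q → Fin 4 → Fin m, ∀ R : Finset (Fin q), R.card ≤ h →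
      2 * R.card ≤ (R.biUnion fun l => Finset.univ.image (Γ l)).card := by
  classical
  by_contra hne
  push Not at hne
  have hcov : (Finset.univ : Finset (Fin q → Fin 4 → Fin m)) ⊆
      (range (min h q)).biUnion fun k => (powersetCard (k + 1) (Finset.univ : Finset (Fin q))).biUnion
        fun R => (powersetCard (2 * (k + 1)) (Finset.univ : Finset (Fin m))).biUnion
          fun T => badSet R T := by
    intro Γ _
    obtain ⟨R, hR, hlt⟩ := hne Γ
    have hRpos : 0 < R.card := by
      by_contra h0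
      have : R.card = 0 := by omega
      rw [this] at hlt
      omega
    have hRq : R.card ≤ q := by simpa using R.card_le_univ
    have h2 : 2 * R.card ≤ m := by
      by_contra hcon
      have h3 : m ≤ 2 * R.card := by omega
      have h4 : m ^ 2 ≤ (2 * R.card) ^ 2 := Nat.pow_le_pow_left h3 2
      have h5 : R.card * R.card ≤ q * h := Nat.mul_le_mul hRq hR
      have h6 : 0 < R.card * R.card := Nat.mul_pos hRpos hRpos
      nlinarith
    obtain ⟨T, hT, hTc⟩ := Finset.exists_superset_card_eq (s := R.biUnion fun l =>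
      Finset.univ.image (Γ l)) (n := 2 * R.card) hlt.le (by simpa using h2)
    simp only [mem_biUnion, mem_range, mem_powersetCard, subset_univ, true_and]
    refine ⟨R.card - 1, by omega, R, by omega, T, by rw [hTc]; omega, ?_⟩
    unfold badSet
    rw [Fintype.mem_piFinset]
    intro l
    split
    · rename_i hl
      rw [Fintype.mem_piFinset]
      intro i
      apply hT
      simp only [mem_biUnion, mem_image, mem_univ, true_and]
      exact ⟨l, hl, i, rfl⟩
    · exact mem_univ _
  have h1 := (card_le_card hcov).trans card_biUnion_le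
  have h2 : (Finset.univ : Finset (Fin q → Fin 4 → Fin m)).card = (m ^ 4) ^ q := by simp
  rw [h2] at h1
  have h3 : ∀ k ∈ range (min h q), ((powersetCard (k + 1) (Finset.univ : Finset (Fin q))).biUnion
        fun R => (powersetCard (2 * (k + 1)) (Finset.univ : Finset (Fin m))).biUnion
          fun T => badSet R T).card * 4 ^ (k + 1) ≤ (m ^ 4) ^ q := by
    intro k hk
    rw [mem_range] at hk
    have e1 : ((powersetCard (k + 1) (Finset.univ : Finset (Fin q))).biUnion
        fun R => (powersetCard (2 * (k + 1)) (Finset.univ : Finset (Fin m))).biUnion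
          fun T => badSet R T).card ≤ q.choose (k + 1) * (m.choose (2 * (k + 1)) *
            (((2 * (k + 1)) ^ 4) ^ (k + 1) * (m ^ 4) ^ (q - (k + 1)))) := by
      refine card_biUnion_le.trans ?_
      have : ∀ R ∈ powersetCard (k + 1) (Finset.univ : Finset (Fin q)),
          ((powersetCard (2 * (k + 1)) (Finset.univ : Finset (Fin m))).biUnion
          fun T => badSet R T).card ≤ m.choose (2 * (k + 1)) *
            (((2 * (k + 1)) ^ 4) ^ (k + 1) * (m ^ 4) ^ (q - (k + 1))) := by
        intro R hR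
        rw [mem_powersetCard] at hR
        refine card_biUnion_le.trans ?_
        have : ∀ T ∈ powersetCard (2 * (k + 1)) (Finset.univ : Finset (Fin m)),
            (badSet R T).card ≤ (((2 * (k + 1)) ^ 4) ^ (k + 1) * (m ^ 4) ^ (q - (k + 1))) := by
          intro T hT
          rw [mem_powersetCard] at hT
          rw [card_badSet, hR.2, hT.2]
        refine (sum_le_card_nsmul _ _ _ this).trans ?_
        rw [card_powersetCard, Finset.card_univ, Fintype.card_fin, smul_eq_mul]
      refine (sum_le_card_nsmul _ _ _ this).trans ?_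
      rw [card_powersetCard, Finset.card_univ, Fintype.card_fin, smul_eq_mul]
    have e2 := choose_bound (q := q) (m := m) (k := k + 1) (Nat.succ_pos k) (by
      refine le_trans ?_ hm
      exact Nat.mul_le_mul_left _ (by omega))
    calc _ ≤ q.choose (k + 1) * (m.choose (2 * (k + 1)) *
            (((2 * (k + 1)) ^ 4) ^ (k + 1) * (m ^ 4) ^ (q - (k + 1)))) * 4 ^ (k + 1) :=
          Nat.mul_le_mul_right _ e1
      _ = (q.choose (k + 1) * m.choose (2 * (k + 1)) * ((2 * (k + 1)) ^ 4) ^ (k + 1) *
          4 ^ (k + 1)) * (m ^ 4) ^ (q - (k + 1)) := by ring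
      _ ≤ (m ^ 4) ^ (k + 1) * (m ^ 4) ^ (q - (k + 1)) := Nat.mul_le_mul_right _ e2
      _ = (m ^ 4) ^ q := by rw [← pow_add]; congr 1; omega
  have hpos : (0 : ℝ) < ((m ^ 4) ^ q : ℕ) := by
    exact_mod_cast pow_pos (pow_pos hm0 4) q
  have h4 : (((m ^ 4) ^ q : ℕ) : ℝ) ≤ ∑ k ∈ range (min h q),
      (((m ^ 4) ^ q : ℕ) : ℝ) * (1 / 4 : ℝ) ^ (k + 1) := by
    refine le_trans (Nat.cast_le (α := ℝ).mpr h1) ?_
    push_cast
    refine sum_le_sum fun k hk => ?_
    have := h3 k hk
    have h5 : (((powersetCard (k + 1) (Finset.univ : Finset (Fin q))).biUnion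
        fun R => (powersetCard (2 * (k + 1)) (Finset.univ : Finset (Fin m))).biUnion
          fun T => badSet R T).card : ℝ) * 4 ^ (k + 1) ≤ ((m : ℝ) ^ 4) ^ q := by
      exact_mod_cast this
    rw [one_div, inv_pow, ← div_eq_mul_inv, le_div_iff₀ (by positivity)]
    exact h5
  rw [← mul_sum] at h4
  have := geom_quarter (min h q)
  nlinarith

end Pool.Agent.H87.CNF
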