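import Pool.Agent.H87.HC.Kit

/-!
# More polynomial-time functions
-/

namespace Pool.Agent.H87.CNF

open Pool.Agent.PPS Pool.Agent.H87.PMCSP H87.HC

variable {m : Bool} {α β γ δ σ τ : Type} [Rep α] [Rep β] [Rep γ] [Rep δ] [Rep σ] [Rep τ]

@[fun_prop]
theorem PT.div' {f g : α → ℕ} (hf : PT m f) (hg : PT m g) : PT m (fun a => f a / g a) := by
  have h : PT m (fun a => ((List.range (f a)).filter fun k =>
      decide (0 < g a) && decide ((k + 1) * g a ≤ f a)).length) := by
    refine PT.length' (PT.filter2 (by fun_prop) ?_)
    have h1 : PT m (fun z : α × ℕ => f z.1) := hf.comp (by fun_prop)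
    have h2 : PT m (fun z : α × ℕ => g z.1) := hg.comp (by fun_prop)
    exact PT.and' (PT.decideLt (by fun_prop) h2) (PT.decideLe (by fun_prop) h1)
  convert h using 2 with a
  generalize f a = x
  generalize g a = y
  rcases Nat.eq_zero_or_pos y with hy | hy
  · subst hy; simp
  · have h1 : ∀ k ∈ List.range x, (decide (0 < y) && decide ((k + 1) * y ≤ x)) =
        decide (k < x / y) := by
      intro k _
      rw [decide_eq_true hy, Bool.true_and, decide_eq_decide, Nat.lt_iff_add_one_le,
        Nat.le_div_iff_mul_le hy]
    rw [List.filter_congr h1]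
    have h2 : x / y ≤ x := Nat.div_le_self _ _
    obtain ⟨c, hc⟩ := Nat.exists_eq_add_of_le h2
    generalize x / y = d at *
    subst hc
    rw [List.range_add, List.filter_append, List.length_append]
    have h3 : (List.range d).filter (fun k => decide (k < d)) = List.range d := by
      rw [List.filter_eq_self]
      intro k hk
      simpa using hk
    have h4 : ((List.range c).map (d + ·)).filter (fun k => decide (k < d)) = [] := by
      rw [List.filter_eq_nil_iff]
      intro k hk
      obtain ⟨i, -, rfl⟩ := List.mem_map.mp hk
      simp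
    rw [h3, h4]
    simp

@[fun_prop]
theorem PT.mod' {f g : α → ℕ} (hf : PT m f) (hg : PT m g) : PT m (fun a => f a % g a) := by
  have h : PT m (fun a => f a - g a * (f a / g a)) := by fun_prop
  convert h using 2 with a
  have := Nat.div_add_mod (f a) (g a)
  omega

/-- Words of length `k` over `{0, …, c - 1}`. -/
def wordsN (c : ℕ) : ℕ → List (List ℕ)
  | 0 => [[]]
  | k + 1 => (wordsN c k).flatMap fun t => (List.range c).map fun i => i :: t

theorem mem_wordsN {c k : ℕ} {t : List ℕ} :
    t ∈ wordsN c k ↔ t.length = k ∧ ∀ x ∈ t, x < c := by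
  induction k generalizing t with
  | zero =>
    simp only [wordsN, List.mem_singleton]
    constructor
    · rintro rfl; simp
    · rintro ⟨h, -⟩; exact List.length_eq_zero_iff.mp h
  | succ k ih =>
    simp only [wordsN, List.mem_flatMap, List.mem_map, List.mem_range]
    constructor
    · rintro ⟨t', ht', i, hi, rfl⟩
      obtain ⟨h1, h2⟩ := ih.mp ht'
      refine ⟨by simp [h1], ?_⟩
      intro x hx
      rcases List.mem_cons.mp hx with rfl | hx
      · exact hi
      · exact h2 x hx
    · rintro ⟨h1, h2⟩
      cases t with
      | nil => simp at h1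
      | cons i t =>
        refine ⟨t, ih.mpr ⟨by simpa using h1, fun x hx => h2 x (List.mem_cons_of_mem _ hx)⟩,
          i, h2 i (List.mem_cons_self ..), rfl⟩

theorem length_wordsN (c k : ℕ) : (wordsN c k).length = c ^ k := by
  induction k with
  | zero => rfl
  | succ k ih =>
    rw [wordsN, List.length_flatMap]
    simp [List.map_const', ih, pow_succ]

theorem size_wordsN_le (c k : ℕ) :
    size (wordsN c k) ≤ c ^ k * (k * (2 * c + 2) + 2) + 1 := by
  have h := size_list_le (l := wordsN c k) (B := k * (2 * c + 2) + 1) (by
    intro b hb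
    rw [mem_wordsN] at hb
    have h1 := size_list_le (l := b) (B := 2 * c + 1) (by
      intro x hx
      have := hb.2 x hx
      rw [size_nat]
      omega)
    rw [hb.1] at h1
    exact h1)
  rw [length_wordsN] at h
  exact h

theorem PT.wordsN' {f k : α → ℕ} (hf : PT m f) (hk : PT m k) (q : Polynomial ℕ)
    (hq : ∀ a, (f a + 1) ^ k a ≤ q.eval (size a)) : PT m (fun a => wordsN (f a) (k a)) := by
  obtain ⟨p, hp⟩ := hf.exists_size_le
  obtain ⟨r, hr⟩ := hk.exists_size_le
  have hstep : PT m (fun z : α × List (List ℕ) =>
      z.2.flatMap fun t => (List.range (f z.1)).map fun i => i :: t) := by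
    have h1 : PT m (fun z : α × List (List ℕ) => f z.1) := hf.comp (by fun_prop)
    refine PT.flatMap2 (by fun_prop) ?_
    exact PT.map2 (f := fun (z : (α × List (List ℕ)) × List ℕ) i => i :: z.2)
      (by fun_prop) (by fun_prop)
  have hit : ∀ (c k : ℕ), (fun y : List (List ℕ) =>
      y.flatMap fun t => (List.range c).map fun i => i :: t)^[k] [[]] = wordsN c k := by
    intro c k
    induction k with
    | zero => rfl
    | succ k ih => rw [Function.iterate_succ_apply', ih]; rfl
  have := PT.iterate (m := m) (s := fun z : α × List (List ℕ) =>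
      z.2.flatMap fun t => (List.range (f z.1)).map fun i => i :: t)
    (ini := fun _ => [[]]) hk (by fun_prop) hstep (q * (r * (2 * p + 2) + 2) + 1) (by
      intro a i hi
      simp only
      rw [hit]
      refine (size_wordsN_le _ _).trans ?_
      simp only [Polynomial.eval_add, Polynomial.eval_mul, Polynomial.eval_ofNat,
        Polynomial.eval_one]
      have h1 : f a ^ i ≤ q.eval (size a) :=
        ((Nat.pow_le_pow_left (Nat.le_succ _) i).trans
          (Nat.pow_le_pow_right (Nat.succ_pos _) hi)).trans (hq a)
      have h2 := hp a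
      rw [size_nat] at h2
      have h3 := hr a
      rw [size_nat] at h3
      have h4 : i * (2 * f a + 2) + 2 ≤
          r.eval (size a) * (2 * p.eval (size a) + 2) + 2 :=
        Nat.add_le_add_right (Nat.mul_le_mul (by omega) (by omega)) 2
      have := Nat.mul_le_mul h1 h4
      omega)
  convert this using 2 with a
  exact (hit (f a) (k a)).symm

theorem length_flatMap_le' {β γ : Type} {l : List β} {f : β → List γ} {B : ℕ}
    (h : ∀ b ∈ l, (f b).length ≤ B) : (l.flatMap f).length ≤ l.length * B := by
  induction l with
  | nil => simp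
  | cons b l ih =>
    rw [List.flatMap_cons, List.length_append, List.length_cons, Nat.add_mul, Nat.one_mul]
    have h1 := h b (by simp)
    have h2 := ih (fun c hc => h c (by simp [hc]))
    omega

theorem size_pow_le (K : ℕ) : 2 ^ (Nat.size K - 1) ≤ K + 1 := by
  rcases Nat.eq_zero_or_pos K with h | h
  · subst h; simp
  · have : 2 ^ (Nat.size K - 1) ≤ K := Nat.lt_size.mp (by
      have := Nat.size_pos.mpr h; omega)
    omega

end Pool.Agent.H87.CNF
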