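import Mathlib

/-!
# Width reduction

A literal is a pair `(i, b)`: it is true iff variable `i` has the value `b`.
-/

namespace Pool.Agent.H87.CNF

/-- literals -/
abbrev Lit : Type := ℕ × Bool

/-- the opposite literal -/
def opp (l : Lit) : Lit := (l.1, !l.2)

/-- the literals of `C` that are not false under the partial assignment `ζ` -/
def rem (ζ C : List Lit) : List Lit := C.filter fun l => !decide (opp l ∈ ζ)

/-- some literal of `C` is true under `ζ` -/
def satd (ζ C : List Lit) : Bool := C.any fun l => decide (l ∈ ζ)

/-- make the first `w` literals of `C` false -/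
def ext (w : ℕ) (ζ C : List Lit) : List Lit := ζ ++ ((rem ζ C).take w).map opp

/-- one step of the list of partial assignments -/
def stp (w : ℕ) (F : List (List Lit)) (Z : List (List Lit)) : List (List Lit) :=
  Z.flatMap fun ζ => ζ :: F.map fun C => ext w ζ C

/-- the partial assignments after `k` steps -/
def states (w k : ℕ) (F : List (List Lit)) : List (List Lit) := (stp w F)^[k] [[]]

/-- no variable gets both values -/
def cons? (ζ : List Lit) : Bool := ζ.all fun l => !decide (opp l ∈ ζ)

/-- the shortened clauses -/
def short (w : ℕ) (ζ : List Lit) (F : List (List Lit)) : List (List Lit) :=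
  (F.filter fun C => !satd ζ C).map fun C => (rem ζ C).take w

/-- the assignment `x` satisfies all clauses -/
def SatL (x : ℕ → Bool) (F : List (List Lit)) : Prop := ∀ C ∈ F, ∃ l ∈ C, x l.1 = l.2

theorem opp_opp (l : Lit) : opp (opp l) = l := by
  obtain ⟨i, b⟩ := l
  simp [opp]

theorem short_width {w : ℕ} {ζ : List Lit} {F : List (List Lit)} {C : List Lit}
    (h : C ∈ short w ζ F) : C.length ≤ w := by
  unfold short at h
  rw [List.mem_map] at h
  obtain ⟨D, -, rfl⟩ := h
  exact List.length_take_le _ _

theorem short_sub {w : ℕ} {ζ : List Lit} {F : List (List Lit)} {C : List Lit}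
    (h : C ∈ short w ζ F) : ∃ D ∈ F, ∀ l ∈ C, l ∈ D := by
  unfold short at h
  rw [List.mem_map] at h
  obtain ⟨D, hD, rfl⟩ := h
  refine ⟨D, (List.mem_filter.mp hD).1, fun l hl => ?_⟩
  exact (List.mem_filter.mp (List.mem_of_mem_take hl)).1

/-- Soundness of the width reduction. -/
theorem sat_of_short {w : ℕ} {ζ : List Lit} {F : List (List Lit)} (hζ : cons? ζ = true)
    {x : ℕ → Bool} (h : SatL x (short w ζ F)) :
    ∃ x' : ℕ → Bool, SatL x' F := by
  classical
  refine ⟨fun i => if (i, true) ∈ ζ then true else if (i, false) ∈ ζ then false else x i, ?_⟩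
  intro C hC
  by_cases hs : satd ζ C = true
  · unfold satd at hs
    rw [List.any_eq_true] at hs
    obtain ⟨l, hl, hl'⟩ := hs
    rw [decide_eq_true_eq] at hl'
    refine ⟨l, hl, ?_⟩
    obtain ⟨i, b⟩ := l
    cases b with
    | true => simp [hl']
    | false =>
      have : (i, true) ∉ ζ := by
        intro h1
        unfold cons? at hζ
        rw [List.all_eq_true] at hζ
        have := hζ _ h1
        simp [opp, hl'] at this
      simp [this, hl']
  · have h1 : (rem ζ C).take w ∈ short w ζ F := by
      unfold short
      refine List.mem_map.mpr ⟨C, List.mem_filter.mpr ⟨hC, by simpa using hs⟩, rfl⟩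
    obtain ⟨l, hl, hx⟩ := h _ h1
    have h2 := List.mem_of_mem_take hl
    unfold rem at h2
    rw [List.mem_filter] at h2
    obtain ⟨h3, h4⟩ := h2
    have h5 : l ∉ ζ := by
      intro h5
      apply hs
      unfold satd
      rw [List.any_eq_true]
      exact ⟨l, h3, by simpa using h5⟩
    have h6 : opp l ∉ ζ := by simpa using h4
    refine ⟨l, h3, ?_⟩
    obtain ⟨i, b⟩ := l
    simp only at hx
    cases b with
    | true =>
      have h7 : (i, false) ∉ ζ := h6
      simp [h5, h7, hx]
    | false =>
      have h7 : (i, true) ∉ ζ := h6
      simp [h5, h7, hx]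

/-- `x` agrees with the partial assignment `ζ` -/
def Agr (x : ℕ → Bool) (ζ : List Lit) : Prop := ∀ l ∈ ζ, x l.1 = l.2

theorem cons_of_agr {x : ℕ → Bool} {ζ : List Lit} (h : Agr x ζ) : cons? ζ = true := by
  unfold cons?
  rw [List.all_eq_true]
  intro l hl
  simp only [Bool.not_eq_true', decide_eq_false_iff_not]
  intro h'
  have h1 := h _ hl
  have h2 := h _ h'
  simp only [opp] at h2
  rw [h1] at h2
  cases hb : l.2 <;> simp [hb] at h2

theorem mem_stp {w : ℕ} {F Z : List (List Lit)} {ζ' : List Lit} : ζ' ∈ stp w F Z ↔
    ∃ ζ ∈ Z, ζ' = ζ ∨ ∃ C ∈ F, ζ' = ext w ζ C := by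
  unfold stp
  simp only [List.mem_flatMap, List.mem_cons, List.mem_map]
  constructor
  · rintro ⟨ζ, h1, h2 | ⟨C, h3, h4⟩⟩
    · exact ⟨ζ, h1, Or.inl h2⟩
    · exact ⟨ζ, h1, Or.inr ⟨C, h3, h4.symm⟩⟩
  · rintro ⟨ζ, h1, h2 | ⟨C, h3, h4⟩⟩
    · exact ⟨ζ, h1, Or.inl h2⟩
    · exact ⟨ζ, h1, Or.inr ⟨C, h3, h4.symm⟩⟩

theorem states_succ (w k : ℕ) (F : List (List Lit)) :
    states w (k + 1) F = stp w F (states w k F) := Function.iterate_succ_apply' _ _ _

theorem states_mono {w k : ℕ} {F : List (List Lit)} {ζ : List Lit} (h : ζ ∈ states w k F) :
    ζ ∈ states w (k + 1) F := by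
  rw [states_succ, mem_stp]
  exact ⟨ζ, h, Or.inl rfl⟩

/-- The set of the variables of a partial assignment. -/
def vars (ζ : List Lit) : Finset ℕ := (ζ.map Prod.fst).toFinset

/-- Completeness of the width reduction. -/
theorem exists_state {n w k : ℕ} {F : List (List Lit)} (hF : ∀ C ∈ F, ∀ l ∈ C, l.1 < n)
    (hnd : ∀ C ∈ F, C.Nodup) {x : ℕ → Bool} (hx : SatL x F) (hk : n < k * w) :
    ∃ ζ ∈ states w k F, Agr x ζ ∧ SatL x (short w ζ F) := by
  classical
  have key : ∀ k : ℕ, (∃ ζ ∈ states w k F, Agr x ζ ∧ SatL x (short w ζ F)) ∨
      ∃ ζ ∈ states w k F, Agr x ζ ∧ (∀ l ∈ ζ, l.1 < n) ∧ k * w ≤ (vars ζ).card := by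
    intro k
    induction k with
    | zero =>
      right
      refine ⟨[], by simp [states], ?_, ?_, by simp⟩
      · intro l hl; cases hl
      · intro l hl; cases hl
    | succ k ih =>
      rcases ih with ⟨ζ, h1, h2, h3⟩ | ⟨ζ, h1, h2, h3, h4⟩
      · exact Or.inl ⟨ζ, states_mono h1, h2, h3⟩
      · by_cases hs : SatL x (short w ζ F)
        · exact Or.inl ⟨ζ, states_mono h1, h2, hs⟩
        · right
          unfold SatL at hs
          push Not at hs
          obtain ⟨D, hD, hDx⟩ := hs
          unfold short at hD
          rw [List.mem_map] at hD
          obtain ⟨C, hC, rfl⟩ := hD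
          rw [List.mem_filter] at hC
          obtain ⟨hCF, hCs⟩ := hC
          have hCs' : ∀ l ∈ C, l ∉ ζ := by
            intro l hl hlz
            have : satd ζ C = true := by
              unfold satd
              rw [List.any_eq_true]
              exact ⟨l, hl, by simpa using hlz⟩
            rw [this] at hCs
            cases hCs
          have hrem : ∀ l ∈ rem ζ C, l ∈ C ∧ l ∉ ζ ∧ opp l ∉ ζ := by
            intro l hl
            unfold rem at hl
            rw [List.mem_filter] at hl
            exact ⟨hl.1, hCs' l hl.1, by simpa using hl.2⟩
          have hlen : w ≤ (rem ζ C).length := by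
            by_contra hlt
            rw [List.take_of_length_le (by omega)] at hDx
            obtain ⟨l, hl, hlx⟩ := hx C hCF
            have : l ∈ rem ζ C := by
              unfold rem
              rw [List.mem_filter]
              refine ⟨hl, ?_⟩
              simp only [Bool.not_eq_true', decide_eq_false_iff_not]
              intro h5
              have h6 := h2 _ h5
              simp only [opp] at h6
              rw [hlx] at h6
              cases hb : l.2 <;> simp [hb] at h6
            exact hDx l this hlx
          have hagr : Agr x (ext w ζ C) := by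
            intro l hl
            unfold ext at hl
            rw [List.mem_append, List.mem_map] at hl
            rcases hl with hl | ⟨l', hl', rfl⟩
            · exact h2 l hl
            · have h5 := hDx l' hl'
              simp only [opp]
              revert h5
              cases x l'.1 <;> cases l'.2 <;> simp
          refine ⟨ext w ζ C, ?_, hagr, ?_, ?_⟩
          · rw [states_succ, mem_stp]
            exact ⟨ζ, h1, Or.inr ⟨C, hCF, rfl⟩⟩
          · intro l hl
            unfold ext at hl
            rw [List.mem_append, List.mem_map] at hl
            rcases hl with hl | ⟨l', hl', rfl⟩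
            · exact h3 l hl
            · exact hF C hCF l' (hrem l' (List.mem_of_mem_take hl')).1
          · -- new variables
            have e1 : vars (ext w ζ C) = vars ζ ∪ (((rem ζ C).take w).map Prod.fst).toFinset := by
              unfold vars ext
              rw [List.map_append, List.toFinset_append, List.map_map]
              rfl
            have e2 : Disjoint (vars ζ) ((((rem ζ C).take w).map Prod.fst).toFinset) := by
              rw [Finset.disjoint_left]
              intro i hi hi'
              unfold vars at hi
              rw [List.mem_toFinset, List.mem_map] at hi hi'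
              obtain ⟨l, hl, rfl⟩ := hi
              obtain ⟨l', hl', hll⟩ := hi'
              obtain ⟨f1, f2, f3⟩ := hrem l' (List.mem_of_mem_take hl')
              obtain ⟨i, b⟩ := l
              obtain ⟨i', b'⟩ := l'
              simp only at hll
              subst hll
              cases b <;> cases b'
              · exact f2 hl
              · exact f3 hl
              · exact f3 hl
              · exact f2 hl
            have e3 : ((((rem ζ C).take w).map Prod.fst).toFinset).card = w := by
              rw [List.toFinset_card_of_nodup, List.length_map, List.length_take,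
                Nat.min_eq_left hlen]
              refine List.Nodup.map_on ?_ ?_
              · rintro ⟨i, b⟩ hl ⟨i', b'⟩ hl' hll
                simp only at hll
                subst hll
                have g1 := hDx _ hl
                have g2 := hDx _ hl'
                simp only at g1 g2
                refine Prod.ext rfl ?_
                simp only
                revert g1 g2
                cases x i <;> cases b <;> cases b' <;> simp
              · exact ((hnd C hCF).filter _).sublist (List.take_sublist _ _)
            rw [e1, Finset.card_union_of_disjoint e2, e3, Nat.add_mul, Nat.one_mul]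
            omega
  rcases key k with h | ⟨ζ, h1, h2, h3, h4⟩
  · exact h
  · exfalso
    have h5 : (vars ζ).card ≤ n := by
      have : vars ζ ⊆ Finset.range n := by
        intro i hi
        unfold vars at hi
        rw [List.mem_toFinset, List.mem_map] at hi
        obtain ⟨l, hl, rfl⟩ := hi
        exact Finset.mem_range.mpr (h3 l hl)
      simpa using Finset.card_le_card this
    omega

/-- The number of states. -/
theorem length_states_le (w k : ℕ) (F : List (List Lit)) :
    (states w k F).length ≤ (F.length + 1) ^ k := by
  induction k with
  | zero => simp [states]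
  | succ k ih =>
    rw [states_succ]
    unfold stp
    rw [List.length_flatMap]
    have h1 : ((states w k F).map fun ζ => (ζ :: F.map fun C => ext w ζ C).length).sum =
        (states w k F).length * (F.length + 1) := by
      simp [List.map_const']
    rw [h1, pow_succ]
    exact Nat.mul_le_mul_right _ ih

theorem state_length_le (w k : ℕ) (F : List (List Lit)) :
    ∀ ζ ∈ states w k F, ζ.length ≤ k * w := by
  induction k with
  | zero => simp [states]
  | succ k ih =>
    intro ζ' h
    rw [states_succ, mem_stp] at h
    obtain ⟨ζ, h1, rfl | ⟨C, -, rfl⟩⟩ := h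
    · have := ih _ h1
      rw [Nat.add_mul]
      omega
    · have := ih _ h1
      unfold ext
      rw [List.length_append, List.length_map, List.length_take, Nat.add_mul]
      have := Nat.min_le_left w (rem ζ C).length
      omega

end Pool.Agent.H87.CNF
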