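import Pool.Agent.H87.CNF.Kit
import Pool.Agent.H87.CNF.Conc
import Pool.Agent.H87.CNF.Width
import Pool.Agent.H87.PMCSP.Reduction

/-!
# The program that writes the table
-/

namespace Pool.Agent.H87.CNF

open Pool.Agent.PPS Pool.Agent.H87.PMCSP H87.HC

/-- The word `x` consists of the values of `f`, `g` (on `0, …, nx - 1`) and `h`
(on `0, …, ny - 1`). -/
def eqv (x : List Bool) (nx ny : ℕ) (f g h : ℕ → Bool) : Bool :=
  ((List.range nx).all fun u => bitAt x u == f u) &&
    (((List.range nx).all fun u => bitAt x (nx + u) == g u) &&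
      ((List.range ny).all fun y => bitAt x (nx + nx + y) == h y))

/-- number of types -/
def nX (q c A : ℕ) : ℕ := (8 * (q * q) * c + 12) * A

/-- number of copies -/
def nY (q ℓ : ℕ) : ℕ := y0 q ℓ + 4 * (q * (q * q))

/-- A clause with its index, if the first component is `true`, and a clause without index
otherwise. -/
abbrev IC : Type := Bool × List Bool × List Lit

/-- the value `v` of the position `j` makes some literal of `C` true -/
def GB (a : ℕ) (U : List (List Bool)) (C : List Lit) (j v : ℕ) : Bool :=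
  C.any fun l => decide (l.1 / a = j) && (bitAt (U.getD v []) (l.1 % a) == l.2)

/-- the value `v` of the position `j` makes the indexed clause `D` true -/
def GX (q a : ℕ) (U : List (List Bool)) (D : IC) (j v : ℕ) : Bool :=
  bif decide (j < q * (q * q)) then GB a U D.2.2 j v
  else D.1 && !(bitAt (U.getD v []) 0 == bitAt D.2.1 (j - q * (q * q)))

def zer3 (q c A ℓ : ℕ) (x : List Bool) (u : ℕ) : Bool :=
  (List.range (nX q c A)).any fun v => !decide (u = v) &&
    eqv x (nX q c A) (nY q ℓ) (fun t => decide (t = u)) (fun t => decide (t = v)) (fun _ => false)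

def zer4 (q c A ℓ : ℕ) (Γ : List ℕ) (x : List Bool) (y : ℕ) : Bool :=
  eqv x (nX q c A) (nY q ℓ) (fun t => !decide (t / A = hby q c ℓ Γ y)) (fun _ => false)
    (fun t => decide (t = y))

def zerB (q c A ℓ : ℕ) (Γ : List ℕ) (x : List Bool) : Bool :=
  eqv x (nX q c A) (nY q ℓ) (fun _ => true) (fun _ => false) (fun _ => false) ||
  (eqv x (nX q c A) (nY q ℓ) (fun _ => false) (fun _ => true) (fun _ => true) ||
  (((List.range (nX q c A)).any fun u => zer3 q c A ℓ x u) ||
  ((List.range (nY q ℓ)).any fun y => zer4 q c A ℓ Γ x y)))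

def one5 (q c A ℓ : ℕ) (Γ : List ℕ) (x : List Bool) (y y' v : ℕ) : Bool :=
  eqv x (nX q c A) (nY q ℓ)
    (fun t => (decide (t / A = hby q c ℓ Γ y) && !decide (t % A = v)) ||
      (decide (t / A = hby q c ℓ Γ y') && decide (t % A = v)))
    (fun _ => false) (fun t => decide (t = y) || decide (t = y'))

def one4 (q c A ℓ : ℕ) (Γ : List ℕ) (x : List Bool) (y y' : ℕ) : Bool :=
  decide (psx q ℓ y = psx q ℓ y') && (!decide (hby q c ℓ Γ y = hby q c ℓ Γ y') &&
    (List.range A).any fun v => one5 q c A ℓ Γ x y y' v)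

/-- the copy `y` is chosen -/
def chs (q c A : ℕ) (x : List Bool) (y : ℕ) : Bool := bitAt x (nX q c A + nX q c A + y)

def sme (q A a : ℕ) (U : List (List Bool)) (C : IC) (j j' : ℕ) : Bool :=
  (List.range A).all fun v => GX q a U C j v == GX q a U C j' v

def val1 (q c A ℓ a : ℕ) (U : List (List Bool)) (Γ : List ℕ) (x : List Bool) (C : IC) : Bool :=
  (List.range (nY q ℓ)).all fun y => (List.range (nY q ℓ)).all fun y' =>
    !(chs q c A x y && (chs q c A x y' && decide (hby q c ℓ Γ y = hby q c ℓ Γ y'))) ||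
      sme q A a U C (psx q ℓ y) (psx q ℓ y')

def val2 (q c A ℓ a : ℕ) (U : List (List Bool)) (x : List Bool) (C : IC) : Bool :=
  (List.range (q * (q * q) + ℓ)).all fun j => (List.range A).all fun v =>
    !(GX q a U C j v) || (List.range (nY q ℓ)).any fun y => chs q c A x y && decide (psx q ℓ y = j)

def tst (q c A ℓ a : ℕ) (U : List (List Bool)) (Γ : List ℕ) (x : List Bool) (C : IC)
    (t : ℕ) : Bool :=
  (List.range (nY q ℓ)).any fun y => chs q c A x y && (decide (hby q c ℓ Γ y = t / A) &&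
    GX q a U C (psx q ℓ y) (t % A))

def one6 (q c A ℓ a : ℕ) (U : List (List Bool)) (Γ : List ℕ) (x : List Bool) (C : IC) :
    Bool :=
  val1 q c A ℓ a U Γ x C && (val2 q c A ℓ a U x C &&
    eqv x (nX q c A) (nY q ℓ) (fun t => tst q c A ℓ a U Γ x C t) (fun _ => false)
      (fun t => chs q c A x t))

def oneB (q c A ℓ a : ℕ) (U : List (List Bool)) (Γ : List ℕ) (F : List IC)
    (x : List Bool) : Bool :=
  ((List.range (nX q c A)).any fun u => eqv x (nX q c A) (nY q ℓ) (fun t => decide (t = u))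
    (fun _ => true) (fun _ => true)) ||
  (((List.range (nX q c A)).any fun u => eqv x (nX q c A) (nY q ℓ) (fun _ => true)
    (fun t => decide (t = u)) (fun _ => false)) ||
  (((List.range (nY q ℓ)).any fun y => eqv x (nX q c A) (nY q ℓ) (fun _ => true)
    (fun _ => false) (fun t => decide (t = y))) ||
  (((List.range (nX q c A)).any fun u => eqv x (nX q c A) (nY q ℓ) (fun t => decide (t = u))
    (fun t => decide (t = u)) (fun _ => false)) ||
  (((List.range (nY q ℓ)).any fun y => (List.range (nY q ℓ)).any fun y' => one4 q c A ℓ Γ x y y') ||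
  (F.any fun C => one6 q c A ℓ a U Γ x C)))))

/-- an entry of the table -/
def entB (q c A ℓ a : ℕ) (U : List (List Bool)) (Γ : List ℕ) (F : List IC)
    (x : List Bool) : Option Bool :=
  bif zerB q c A ℓ Γ x then some false else bif oneB q c A ℓ a U Γ F x then some true else none

section PT

variable {t : Bool} {α : Type} [Rep α]

theorem PT.eqv' {x : α → List Bool} {nx ny : α → ℕ} {f g h : α → ℕ → Bool} (hx : PT t x)
    (hnx : PT t nx) (hny : PT t ny) (hf : PT t (fun z : α × ℕ => f z.1 z.2))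
    (hg : PT t (fun z : α × ℕ => g z.1 z.2)) (hh : PT t (fun z : α × ℕ => h z.1 z.2)) :
    PT t (fun a => eqv (x a) (nx a) (ny a) (f a) (g a) (h a)) := by
  unfold eqv
  refine PT.and' (PT.all2 (by fun_prop) ?_) (PT.and' (PT.all2 (by fun_prop) ?_)
    (PT.all2 (by fun_prop) ?_))
  · exact PT.beq' (by fun_prop) hf
  · exact PT.beq' (by fun_prop) hg
  · exact PT.beq' (by fun_prop) hh

variable {q c A ℓ a u v y y' j : α → ℕ} {x : α → List Bool} {Γ : α → List ℕ}
  {U : α → List (List Bool)} {C : α → List Lit} {D : α → IC} {F : α → List IC}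

@[fun_prop]
theorem PT.nX' (hq : PT t q) (hc : PT t c) (hA : PT t A) :
    PT t (fun b => nX (q b) (c b) (A b)) := by
  unfold nX; fun_prop

@[fun_prop]
theorem PT.y0' (hq : PT t q) (hℓ : PT t ℓ) : PT t (fun b => y0 (q b) (ℓ b)) := by
  unfold y0; fun_prop

@[fun_prop]
theorem PT.psx' (hq : PT t q) (hℓ : PT t ℓ) (hy : PT t y) :
    PT t (fun b => psx (q b) (ℓ b) (y b)) := by
  unfold psx
  have h0 : PT t (fun b => decide (y b < y0 (q b) (ℓ b))) :=
    PT.decideLt (by fun_prop) (by fun_prop)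
  fun_prop

@[fun_prop]
theorem PT.nY' (hq : PT t q) (hℓ : PT t ℓ) : PT t (fun b => nY (q b) (ℓ b)) := by
  unfold nY; fun_prop

@[fun_prop]
theorem PT.hbx' (hq : PT t q) (hc : PT t c) (hΓ : PT t Γ) (hy : PT t y) :
    PT t (fun b => hbx (q b) (c b) (Γ b) (y b)) := by
  unfold hbx hbk elin epnt ex esl
  have h0 : PT t (fun b => decide (y b / 8 < q b * (q b * q b))) :=
    PT.decideLt (by fun_prop) (by fun_prop)
  have h1 : PT t (fun b => decide (y b % 8 < 4)) := PT.decideLt (by fun_prop) (by fun_prop)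
  fun_prop

@[fun_prop]
theorem PT.hby' (hq : PT t q) (hc : PT t c) (hℓ : PT t ℓ) (hΓ : PT t Γ) (hy : PT t y) :
    PT t (fun b => hby (q b) (c b) (ℓ b) (Γ b) (y b)) := by
  unfold hby
  have h0 : PT t (fun b => decide (y b < y0 (q b) (ℓ b))) :=
    PT.decideLt (by fun_prop) (by fun_prop)
  fun_prop

@[fun_prop]
theorem PT.GB' (ha : PT t a) (hU : PT t U) (hC : PT t C) (hj : PT t j) (hv : PT t v) :
    PT t (fun b => GB (a b) (U b) (C b) (j b) (v b)) := by
  unfold GB
  exact PT.any2 (by fun_prop) (by fun_prop)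

@[fun_prop]
theorem PT.GX' (hq : PT t q) (ha : PT t a) (hU : PT t U) (hD : PT t D) (hj : PT t j)
    (hv : PT t v) : PT t (fun b => GX (q b) (a b) (U b) (D b) (j b) (v b)) := by
  unfold GX
  have h0 : PT t (fun b => decide (j b < q b * (q b * q b))) :=
    PT.decideLt (by fun_prop) (by fun_prop)
  fun_prop

@[fun_prop]
theorem PT.zer3' (hq : PT t q) (hc : PT t c) (hA : PT t A) (hℓ : PT t ℓ) (hx : PT t x) (hu : PT t u) :
    PT t (fun b => zer3 (q b) (c b) (A b) (ℓ b) (x b) (u b)) := by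
  unfold zer3
  refine PT.any2 (by fun_prop) (PT.and' (by fun_prop) ?_)
  exact PT.eqv' (f := fun (z : α × ℕ) s => decide (s = u z.1))
    (g := fun (z : α × ℕ) s => decide (s = z.2)) (h := fun _ _ => false) (by fun_prop)
    (by fun_prop) (by fun_prop) (by fun_prop) (by fun_prop) (by fun_prop)

@[fun_prop]
theorem PT.zer4' (hq : PT t q) (hc : PT t c) (hA : PT t A) (hℓ : PT t ℓ) (hΓ : PT t Γ) (hx : PT t x)
    (hy : PT t y) : PT t (fun b => zer4 (q b) (c b) (A b) (ℓ b) (Γ b) (x b) (y b)) := by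
  unfold zer4
  exact PT.eqv' (by fun_prop) (by fun_prop) (by fun_prop) (by fun_prop) (by fun_prop)
    (by fun_prop)

@[fun_prop]
theorem PT.zerB' (hq : PT t q) (hc : PT t c) (hA : PT t A) (hℓ : PT t ℓ) (hΓ : PT t Γ) (hx : PT t x) :
    PT t (fun b => zerB (q b) (c b) (A b) (ℓ b) (Γ b) (x b)) := by
  unfold zerB
  refine PT.or' (PT.eqv' (by fun_prop) (by fun_prop) (by fun_prop) (by fun_prop)
    (by fun_prop) (by fun_prop)) (PT.or' (PT.eqv' (by fun_prop) (by fun_prop) (by fun_prop)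
    (by fun_prop) (by fun_prop) (by fun_prop)) (PT.or' ?_ ?_))
  · exact PT.any2 (by fun_prop) (by fun_prop)
  · exact PT.any2 (by fun_prop) (by fun_prop)

@[fun_prop]
theorem PT.one5' (hq : PT t q) (hc : PT t c) (hA : PT t A) (hℓ : PT t ℓ) (hΓ : PT t Γ) (hx : PT t x)
    (hy : PT t y) (hy' : PT t y') (hv : PT t v) :
    PT t (fun b => one5 (q b) (c b) (A b) (ℓ b) (Γ b) (x b) (y b) (y' b) (v b)) := by
  unfold one5
  exact PT.eqv' (by fun_prop) (by fun_prop) (by fun_prop) (by fun_prop) (by fun_prop)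
    (by fun_prop)

@[fun_prop]
theorem PT.one4' (hq : PT t q) (hc : PT t c) (hA : PT t A) (hℓ : PT t ℓ) (hΓ : PT t Γ) (hx : PT t x)
    (hy : PT t y) (hy' : PT t y') :
    PT t (fun b => one4 (q b) (c b) (A b) (ℓ b) (Γ b) (x b) (y b) (y' b)) := by
  unfold one4
  exact PT.and' (by fun_prop) (PT.and' (by fun_prop) (PT.any2 (by fun_prop) (by fun_prop)))

@[fun_prop]
theorem PT.chs' (hq : PT t q) (hc : PT t c) (hA : PT t A) (hx : PT t x) (hy : PT t y) :
    PT t (fun b => chs (q b) (c b) (A b) (x b) (y b)) := by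
  unfold chs; fun_prop

@[fun_prop]
theorem PT.sme' (hq : PT t q) (hA : PT t A) (ha : PT t a) (hU : PT t U) (hD : PT t D)
    (hy : PT t y) (hy' : PT t y') :
    PT t (fun b => sme (q b) (A b) (a b) (U b) (D b) (y b) (y' b)) := by
  unfold sme
  exact PT.all2 (by fun_prop) (PT.beq' (by fun_prop) (by fun_prop))

@[fun_prop]
theorem PT.val1' (hq : PT t q) (hc : PT t c) (hA : PT t A) (hℓ : PT t ℓ) (ha : PT t a)
    (hU : PT t U) (hΓ : PT t Γ) (hx : PT t x) (hD : PT t D) :
    PT t (fun b => val1 (q b) (c b) (A b) (ℓ b) (a b) (U b) (Γ b) (x b) (D b)) := by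
  unfold val1
  refine PT.all2 (by fun_prop) ?_
  exact PT.all2 (f := fun (z : α × ℕ) y' =>
    !(chs (q z.1) (c z.1) (A z.1) (x z.1) z.2 && (chs (q z.1) (c z.1) (A z.1) (x z.1) y' &&
      decide (hby (q z.1) (c z.1) (ℓ z.1) (Γ z.1) z.2 = hby (q z.1) (c z.1) (ℓ z.1) (Γ z.1) y'))) ||
      sme (q z.1) (A z.1) (a z.1) (U z.1) (D z.1) (psx (q z.1) (ℓ z.1) z.2) (psx (q z.1) (ℓ z.1) y')) (by fun_prop)
      (by fun_prop)

@[fun_prop]
theorem PT.val2' (hq : PT t q) (hc : PT t c) (hA : PT t A) (hℓ : PT t ℓ) (ha : PT t a) (hU : PT t U)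
    (hx : PT t x) (hD : PT t D) :
    PT t (fun b => val2 (q b) (c b) (A b) (ℓ b) (a b) (U b) (x b) (D b)) := by
  unfold val2
  refine PT.all2 (by fun_prop) ?_
  refine PT.all2 (f := fun (z : α × ℕ) v => !(GX (q z.1) (a z.1) (U z.1) (D z.1) z.2 v) ||
    (List.range (nY (q z.1) (ℓ z.1))).any fun y => chs (q z.1) (c z.1) (A z.1) (x z.1) y &&
      decide (psx (q z.1) (ℓ z.1) y = z.2)) (by fun_prop) ?_
  refine PT.or' (by fun_prop) ?_
  exact PT.any2 (f := fun (z : (α × ℕ) × ℕ) y => chs (q z.1.1) (c z.1.1) (A z.1.1) (x z.1.1) y &&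
      decide (psx (q z.1.1) (ℓ z.1.1) y = z.1.2)) (by fun_prop) (by fun_prop)

@[fun_prop]
theorem PT.tst' (hq : PT t q) (hc : PT t c) (hA : PT t A) (hℓ : PT t ℓ) (ha : PT t a) (hU : PT t U)
    (hΓ : PT t Γ) (hx : PT t x) (hD : PT t D) (hu : PT t u) :
    PT t (fun b => tst (q b) (c b) (A b) (ℓ b) (a b) (U b) (Γ b) (x b) (D b) (u b)) := by
  unfold tst
  exact PT.any2 (by fun_prop) (by fun_prop)

@[fun_prop]
theorem PT.one6' (hq : PT t q) (hc : PT t c) (hA : PT t A) (hℓ : PT t ℓ) (ha : PT t a) (hU : PT t U)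
    (hΓ : PT t Γ) (hx : PT t x) (hD : PT t D) :
    PT t (fun b => one6 (q b) (c b) (A b) (ℓ b) (a b) (U b) (Γ b) (x b) (D b)) := by
  unfold one6
  refine PT.and' (by fun_prop) (PT.and' (by fun_prop) ?_)
  exact PT.eqv' (by fun_prop) (by fun_prop) (by fun_prop) (by fun_prop) (by fun_prop)
    (by fun_prop)

@[fun_prop]
theorem PT.oneB' (hq : PT t q) (hc : PT t c) (hA : PT t A) (hℓ : PT t ℓ) (ha : PT t a) (hU : PT t U)
    (hΓ : PT t Γ) (hF : PT t F) (hx : PT t x) :
    PT t (fun b => oneB (q b) (c b) (A b) (ℓ b) (a b) (U b) (Γ b) (F b) (x b)) := by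
  unfold oneB
  refine PT.or' (PT.any2 (by fun_prop) ?_) (PT.or' (PT.any2 (by fun_prop) ?_)
    (PT.or' (PT.any2 (by fun_prop) ?_) (PT.or' (PT.any2 (by fun_prop) ?_)
      (PT.or' (PT.any2 (by fun_prop) ?_) (PT.any2 (by fun_prop) (by fun_prop))))))
  · exact PT.eqv' (f := fun (z : α × ℕ) s => decide (s = z.2)) (by fun_prop) (by fun_prop)
      (by fun_prop) (by fun_prop) (by fun_prop) (by fun_prop)
  · exact PT.eqv' (g := fun (z : α × ℕ) s => decide (s = z.2)) (by fun_prop) (by fun_prop)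
      (by fun_prop) (by fun_prop) (by fun_prop) (by fun_prop)
  · exact PT.eqv' (h := fun (z : α × ℕ) s => decide (s = z.2)) (by fun_prop) (by fun_prop)
      (by fun_prop) (by fun_prop) (by fun_prop) (by fun_prop)
  · exact PT.eqv' (f := fun (z : α × ℕ) s => decide (s = z.2))
      (g := fun (z : α × ℕ) s => decide (s = z.2)) (by fun_prop) (by fun_prop)
      (by fun_prop) (by fun_prop) (by fun_prop) (by fun_prop)
  · exact PT.any2 (f := fun (z : α × ℕ) y' => one4 (q z.1) (c z.1) (A z.1) (ℓ z.1) (Γ z.1) (x z.1)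
      z.2 y') (by fun_prop) (by fun_prop)

@[fun_prop]
theorem PT.entB' (hq : PT t q) (hc : PT t c) (hA : PT t A) (hℓ : PT t ℓ) (ha : PT t a) (hU : PT t U)
    (hΓ : PT t Γ) (hF : PT t F) (hx : PT t x) :
    PT t (fun b => entB (q b) (c b) (A b) (ℓ b) (a b) (U b) (Γ b) (F b) (x b)) := by
  unfold entB
  exact PT.cond (by fun_prop) (by fun_prop) (PT.cond (by fun_prop) (by fun_prop) (by fun_prop))

end PT

end Pool.Agent.H87.CNF
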