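import Pool.Agent.H87.CNF.Final2

/-!
# The reduction, with real parameters
-/

namespace Pool.Agent.H87.CNF

open Pool.Agent.PPS Pool.Agent.H87.PMCSP

theorem red2_real {k m K T : ℕ} {g : ℝ} (R : ℕ → ℕ → ℕ → ℕ → Bool)
    (F : List (Clause (k * m))) (P : Program (k * m)) (hg : 2 ≤ g) (hgn : g ≤ k * m)
    (hM : (F.length : ℝ) ≤ 2 ^ (k * m / g)) (hS : (P.length : ℝ) ≤ 2 ^ (k * m / g))
    (hT : T * Real.logb 2 (P.length + 2) ≤ (k * m) ^ 2 / g)
    (hK : (2 : ℝ) ^ ((2 * C2 : ℕ) * (m + k * m / Real.logb 2 g)) ≤ K) :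
    (∃ x, Solves R F P T x) ↔ red2 (encodeCSP K k m T R F P) ∈ PartialMCSP := by
  have hg0 : 0 ≤ g := by linarith
  have hgpos : 0 < g := by linarith
  set g' := ⌊g⌋₊ with hg'
  have hg1 : 2 ≤ g' := Nat.le_floor (by exact_mod_cast hg)
  have hg2 : (g' : ℝ) ≤ g := Nat.floor_le hg0
  have hg3 : g < g' + 1 := Nat.lt_floor_add_one g
  have hg4 : g' ≤ k * m := by
    have : (g' : ℝ) ≤ ((k * m : ℕ) : ℝ) := by
      push_cast
      exact hg2.trans hgn
    exact_mod_cast this
  have hn0 : (0 : ℝ) ≤ k * m := by positivity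
  have hlog1 : 1 ≤ Real.logb 2 g := by
    rw [Real.le_logb_iff_rpow_le (by norm_num) hgpos]
    simpa using hg
  have hlogpos : 0 < Real.logb 2 g := by linarith
  have hC0 : (0 : ℝ) ≤ ((2 * C2 : ℕ) : ℝ) := Nat.cast_nonneg _
  have hC1 : (16384 : ℝ) ≤ ((2 * C2 : ℕ) : ℝ) := by
    have : (16384 : ℕ) ≤ 2 * C2 := by unfold C2 CC; norm_num
    exact_mod_cast this
  have hq0 : (0 : ℝ) ≤ k * m / Real.logb 2 g := div_nonneg hn0 hlogpos.le
  have hm0 : (0 : ℝ) ≤ m := Nat.cast_nonneg m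
  have hpow : ∀ a : ℕ, (a : ℝ) ≤ 2 ^ ((k * m : ℝ) / g) → a ^ g' ≤ 2 ^ (k * m) := by
    intro a ha
    have h1 : ((a : ℝ)) ^ g' ≤ 2 ^ (k * m) := by
      calc ((a : ℝ)) ^ g' ≤ ((2 : ℝ) ^ ((k * m : ℝ) / g)) ^ g' :=
            pow_le_pow_left₀ (Nat.cast_nonneg _) ha g'
        _ = (2 : ℝ) ^ ((k * m : ℝ) / g * g') := by
            rw [← Real.rpow_natCast, ← Real.rpow_mul (by norm_num)]
        _ ≤ (2 : ℝ) ^ (((k * m : ℕ) : ℝ)) := by
            apply Real.rpow_le_rpow_of_exponent_le (by norm_num)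
            rw [div_mul_eq_mul_div, div_le_iff₀ hgpos]
            push_cast
            exact mul_le_mul_of_nonneg_left hg2 hn0
        _ = 2 ^ (k * m) := Real.rpow_natCast _ _
    exact_mod_cast h1
  refine red2_correct R F P hg1 hg4 (hpow _ hM) (hpow _ hS) ?_ ?_ ?_
  · -- the time bound
    have h1 : ((Nat.size (P.length + 1) : ℕ) : ℝ) ≤ 2 * Real.logb 2 (P.length + 2) := by
      have hs : 1 ≤ Nat.size (P.length + 1) := Nat.size_pos.mpr (by omega)
      obtain ⟨r, hr⟩ : ∃ r, Nat.size (P.length + 1) = r + 1 :=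
        ⟨Nat.size (P.length + 1) - 1, by omega⟩
      have h2 : 2 ^ r ≤ P.length + 1 := Nat.lt_size.mp (by omega)
      have h3 : (r : ℝ) ≤ Real.logb 2 (P.length + 2) := by
        rw [Real.le_logb_iff_rpow_le (by norm_num) (by positivity), Real.rpow_natCast]
        have : ((2 ^ r : ℕ) : ℝ) ≤ ((P.length + 1 : ℕ) : ℝ) := by exact_mod_cast h2
        push_cast at this
        linarith
      have h4 : 1 ≤ Real.logb 2 (P.length + 2) := by
        rw [Real.le_logb_iff_rpow_le (by norm_num) (by positivity)]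
        have : (0 : ℝ) ≤ P.length := Nat.cast_nonneg _
        simp only [Real.rpow_one]
        linarith
      rw [hr]
      push_cast
      linarith
    have h2 : ((T * Nat.size (P.length + 1) * g' : ℕ) : ℝ) ≤
        ((2 * (k * m) ^ 2 : ℕ) : ℝ) := by
      push_cast
      have hT0 : (0 : ℝ) ≤ T := Nat.cast_nonneg T
      calc (T : ℝ) * (Nat.size (P.length + 1) : ℕ) * g' ≤
          T * (2 * Real.logb 2 (P.length + 2)) * g := by
            apply mul_le_mul (mul_le_mul_of_nonneg_left h1 hT0) hg2 (Nat.cast_nonneg _)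
            apply mul_nonneg hT0
            exact (Nat.cast_nonneg _).trans h1
        _ = 2 * (T * Real.logb 2 (P.length + 2) * g) := by ring
        _ ≤ 2 * ((k * m : ℝ) ^ 2 / g * g) := by
            apply mul_le_mul_of_nonneg_left _ (by norm_num)
            exact mul_le_mul_of_nonneg_right hT hg0
        _ = 2 * (k * m : ℝ) ^ 2 := by
            rw [div_mul_cancel₀ _ (ne_of_gt hgpos)]
    exact_mod_cast h2
  · have h1 : (2 : ℝ) ^ (((16384 * m : ℕ) : ℝ)) ≤ K := by
      refine le_trans (Real.rpow_le_rpow_of_exponent_le (by norm_num) ?_) hK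
      push_cast
      push_cast at hC1
      calc (16384 : ℝ) * m ≤ (2 * C2) * m := mul_le_mul_of_nonneg_right hC1 hm0
        _ ≤ (2 * C2) * (m + k * m / Real.logb 2 g) := by
            apply mul_le_mul_of_nonneg_left _ (by positivity)
            linarith
    rw [Real.rpow_natCast] at h1
    exact_mod_cast h1
  · set l := Nat.log 2 g' with hl
    have hl1 : 1 ≤ l := Nat.log_pos (by norm_num) hg1
    have hlog2 : Real.logb 2 g ≤ 2 * l := by
      have h1 : g' < 2 ^ (l + 1) := Nat.lt_pow_succ_log_self (by norm_num) g'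
      have h2 : g ≤ 2 ^ (l + 1) := by
        have : ((g' + 1 : ℕ) : ℝ) ≤ ((2 ^ (l + 1) : ℕ) : ℝ) := by exact_mod_cast h1
        push_cast at this
        linarith
      have h3 : Real.logb 2 g ≤ l + 1 := by
        rw [Real.logb_le_iff_le_rpow (by norm_num) hgpos]
        calc g ≤ 2 ^ (l + 1) := h2
          _ = (2 : ℝ) ^ ((l : ℝ) + 1) := by
              rw [← Real.rpow_natCast]
              push_cast
              rfl
      have : (1 : ℝ) ≤ l := by exact_mod_cast hl1
      linarith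
    have h3 : (2 : ℝ) ^ ((2 * C2 : ℕ) * (k * m) / Real.logb 2 g : ℝ) ≤ K := by
      refine le_trans (Real.rpow_le_rpow_of_exponent_le (by norm_num) ?_) hK
      rw [mul_div_assoc]
      apply mul_le_mul_of_nonneg_left _ hC0
      linarith
    have h4 : ((2 : ℝ) ^ ((2 * C2 : ℕ) * (k * m) / Real.logb 2 g : ℝ)) ^ l ≤ (K : ℝ) ^ l :=
      pow_le_pow_left₀ (Real.rpow_nonneg (by norm_num) _) h3 l
    have h5 : (2 : ℝ) ^ (C2 * (k * m)) ≤
        ((2 : ℝ) ^ ((2 * C2 : ℕ) * (k * m) / Real.logb 2 g : ℝ)) ^ l := by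
      rw [← Real.rpow_natCast _ l, ← Real.rpow_mul (by norm_num),
        ← Real.rpow_natCast 2 (C2 * (k * m))]
      apply Real.rpow_le_rpow_of_exponent_le (by norm_num)
      rw [div_mul_eq_mul_div, le_div_iff₀ hlogpos]
      push_cast
      have h6 : (0 : ℝ) ≤ C2 * (k * m) := by positivity
      nlinarith
    have h7 := h5.trans h4
    exact_mod_cast h7

end Pool.Agent.H87.CNF
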