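import Pool.Agent.H87.CNF.Corr
import Pool.Agent.H87.CNF.Gadget

/-!
# The instance of a list of clauses is a yes-instance iff the clauses are satisfiable
-/

namespace Pool.Agent.H87.CNF

open Pool.Agent.PPS Pool.Agent.H87.PMCSP Finset

theorem GB_iff {a : ℕ} {U : List (List Bool)} {C : List Lit} {j v : ℕ} :
    GB a U C j v = true ↔ ∃ l ∈ C, l.1 / a = j ∧ bitAt (U.getD v []) (l.1 % a) = l.2 := by
  unfold GB
  simp only [List.any_eq_true, Bool.and_eq_true, decide_eq_true_eq, beq_iff_eq]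

/-- the indexed clauses -/
def icl (ℓ : ℕ) (cls : ℕ → List (List Lit)) : List IC :=
  (List.range (2 ^ ℓ)).flatMap fun i => (cls i).map fun C => (true, (allBits ℓ).getD i [], C)

/-- the clauses without index -/
def wcl (W : List (List Lit)) : List IC := W.map fun C => (false, [], C)

theorem mem_icl {ℓ : ℕ} {cls : ℕ → List (List Lit)} {D : IC} : D ∈ icl ℓ cls ↔
    ∃ i < 2 ^ ℓ, D.1 = true ∧ D.2.1 = (allBits ℓ).getD i [] ∧ D.2.2 ∈ cls i := by
  obtain ⟨b, p, C⟩ := D
  unfold icl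
  simp only [List.mem_flatMap, List.mem_range, List.mem_map, Prod.mk.injEq]
  constructor
  · rintro ⟨i, hi, C', hC', rfl, rfl, rfl⟩
    exact ⟨i, hi, rfl, rfl, hC'⟩
  · rintro ⟨i, hi, rfl, rfl, hC⟩
    exact ⟨i, hi, C, hC, rfl, rfl, rfl⟩

theorem mem_wcl {W : List (List Lit)} {D : IC} : D ∈ wcl W ↔
    D.1 = false ∧ D.2.1 = [] ∧ D.2.2 ∈ W := by
  obtain ⟨b, p, C⟩ := D
  unfold wcl
  simp only [List.mem_map, Prod.mk.injEq]
  constructor
  · rintro ⟨C', hC', rfl, rfl, rfl⟩
    exact ⟨rfl, rfl, hC'⟩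
  · rintro ⟨rfl, rfl, hC⟩
    exact ⟨C, hC, rfl, rfl, rfl⟩

theorem GX_lt {q a j v : ℕ} {U : List (List Bool)} {D : IC} (hj : j < q ^ 3) :
    GX q a U D j v = GB a U D.2.2 j v := by
  unfold GX
  rw [q3, decide_eq_true hj, cond_true]

theorem GX_ge {q a t v : ℕ} {U : List (List Bool)} {D : IC} :
    GX q a U D (q ^ 3 + t) v =
      (D.1 && !(bitAt (U.getD v []) 0 == bitAt D.2.1 t)) := by
  unfold GX
  rw [q3, decide_eq_false (by omega), cond_false, Nat.add_sub_cancel_left]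

/-- Different words of the same length differ in some letter. -/
theorem exists_bitAt_ne {ℓ : ℕ} {p p' : List Bool} (hp : p.length = ℓ) (hp' : p'.length = ℓ)
    (h : p ≠ p') : ∃ t < ℓ, bitAt p t ≠ bitAt p' t := by
  by_contra hcon
  push Not at hcon
  apply h
  refine List.ext_getElem (hp.trans hp'.symm) fun t h1 h2 => ?_
  have := hcon t (by omega)
  unfold bitAt at this
  rwa [List.getD_eq_getElem _ _ h1, List.getD_eq_getElem _ _ h2] at this

theorem insB_of_sat {q c a ℓ i : ℕ} {Γ : List ℕ} {cls : ℕ → List (List Lit)}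
    {W : List (List Lit)} (hq : 0 < q)
    (ha : 0 < a) (hΓ : ∀ k, Γ.getD k 0 < c) (hi : i < 2 ^ ℓ)
    (hF : ∀ C ∈ cls i, ∀ l ∈ C, l.1 < a * q ^ 3) (hWl : ∀ C ∈ W, ∀ l ∈ C, l.1 < a * q ^ 3)
    {x : ℕ → Bool} (hx : SatL x (cls i)) (hxW : SatL x W) :
    insB q c (2 ^ a) ℓ a (allBits a) Γ (icl ℓ cls ++ wcl W) ∈ PartialMCSP := by
  rw [insB_mem hq (by positivity) hΓ]
  choose w hw hw' using fun j : Fin (q ^ 3 + ℓ) => exists_getD (m := a)
    (fun k : Fin a => bif decide (j.1 < q ^ 3) then x (a * j.1 + k.1) else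
      bitAt ((allBits ℓ).getD i []) (j.1 - q ^ 3))
  have key : ∀ (D : IC) (l : Lit), l ∈ D.2.2 → l.1 < a * q ^ 3 → x l.1 = l.2 →
      ∃ j : Fin (q ^ 3 + ℓ), GX q a (allBits a) D j.1 (w j) = true := by
    intro D l hl h1 hlx
    have h2 : l.1 / a < q ^ 3 := by
      rw [Nat.div_lt_iff_lt_mul ha]
      calc l.1 < a * q ^ 3 := h1
        _ = q ^ 3 * a := by ring
    refine ⟨⟨l.1 / a, by omega⟩, ?_⟩
    rw [GX_lt h2, GB_iff]
    refine ⟨l, hl, rfl, ?_⟩
    have h3 : l.1 % a < a := Nat.mod_lt _ ha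
    rw [hw' ⟨l.1 / a, by omega⟩]
    unfold bitAt
    rw [List.getD_eq_getElem _ _ (by simpa using h3)]
    simp only [List.getElem_ofFn]
    rw [decide_eq_true h2, cond_true, Nat.div_add_mod]
    exact hlx
  refine ⟨fun j => ⟨w j, hw j⟩, fun D hD _ => ?_⟩
  rcases List.mem_append.mp hD with hD | hD
  · obtain ⟨i', hi', hD0, hD1, hD2⟩ := mem_icl.mp hD
    by_cases hii : i' = i
    · subst hii
      obtain ⟨l, hl, hlx⟩ := hx D.2.2 hD2
      exact key D l hl (hF D.2.2 hD2 l hl) hlx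
    · have h1 : (allBits ℓ).getD i [] ≠ D.2.1 := by
        rw [hD1]
        intro h
        exact hii (getD_inj hi hi' h).symm
      obtain ⟨t, ht, hne⟩ := exists_bitAt_ne (getD_length hi) (by
        rw [hD1]; exact getD_length hi') h1
      refine ⟨⟨q ^ 3 + t, by omega⟩, ?_⟩
      simp only
      rw [GX_ge, hw' ⟨q ^ 3 + t, by omega⟩]
      have h2 : bitAt (List.ofFn fun k : Fin a => bif decide (q ^ 3 + t < q ^ 3) then
          x (a * (q ^ 3 + t) + k.1) else bitAt ((allBits ℓ).getD i []) (q ^ 3 + t - q ^ 3)) 0 =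
          bitAt ((allBits ℓ).getD i []) t := by
        have e0 : decide (q ^ 3 + t < q ^ 3) = false := decide_eq_false (by omega)
        simp only [e0, cond_false, Nat.add_sub_cancel_left]
        generalize bitAt ((allBits ℓ).getD i []) t = b
        unfold bitAt
        rw [List.getD_eq_getElem _ _ (by simpa using ha)]
        simp
      simp only at h2 ⊢
      rw [h2, hD0, Bool.true_and]
      simpa using hne
  · obtain ⟨-, -, hD2⟩ := mem_wcl.mp hD
    obtain ⟨l, hl, hlx⟩ := hxW D.2.2 hD2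
    exact key D l hl (hWl D.2.2 hD2 l hl) hlx

/-- The positions at which `C` has literals fall into at most four classes with the same good
values. -/
def Wide (q a : ℕ) (C : List Lit) : Prop :=
  ∃ (act : ℕ → Bool) (κ : ℕ → ℕ), (∀ t, κ t < 4) ∧
    (∀ j v, j < q ^ 3 → GB a (allBits a) C j v = true → act j = true) ∧
    ∀ j j', j < q ^ 3 → j' < q ^ 3 → act j = true → act j' = true → κ j = κ j' →
      ∀ v, GB a (allBits a) C j v = GB a (allBits a) C j' v

theorem sat_of_insB {q c a h w ℓ : ℕ} {Γ : List ℕ} {cls : ℕ → List (List Lit)}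
    {W : List (List Lit)} (hq : q.Prime)
    (hΓ : ∀ k, Γ.getD k 0 < c) (hh : 4 ≤ h) (hwh : 8 * w ≤ h ^ 3)
    (hgad : ∀ R : Finset (Fin q), R.card ≤ h → 2 * R.card ≤ (R.biUnion fun l =>
      Finset.univ.image fun i : Fin 4 => (⟨Γ.getD (l * 4 + i) 0, hΓ _⟩ : Fin c)).card)
    (hw : ∀ i < 2 ^ ℓ, ∀ C ∈ cls i, C.length ≤ w) (hW : ∀ C ∈ W, Wide q a C)
    (h : insB q c (2 ^ a) ℓ a (allBits a) Γ (icl ℓ cls ++ wcl W) ∈ PartialMCSP) :
    ∃ i < 2 ^ ℓ, ∃ x : ℕ → Bool, SatL x (cls i) ∧ SatL x W := by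
  classical
  rw [insB_mem hq.pos (by positivity) hΓ] at h
  obtain ⟨v, hv⟩ := h
  obtain ⟨i, hi, hiw⟩ := exists_getD (m := ℓ)
    (fun t : Fin ℓ => bitAt ((allBits a).getD (v (Fin.natAdd (q ^ 3) t)).1 []) 0)
  have hbit : ∀ t : Fin ℓ, bitAt ((allBits ℓ).getD i []) t.1 =
      bitAt ((allBits a).getD (v (Fin.natAdd (q ^ 3) t)).1 []) 0 := by
    intro t
    rw [hiw]
    generalize hg : (fun t : Fin ℓ =>
      bitAt ((allBits a).getD (v (Fin.natAdd (q ^ 3) t)).1 []) 0) = g
    have hgt : bitAt ((allBits a).getD (v (Fin.natAdd (q ^ 3) t)).1 []) 0 = g t := by rw [← hg]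
    rw [hgt]
    unfold bitAt
    rw [List.getD_eq_getElem _ _ (by simp)]
    simp
  have hlitx : ∀ (C : List Lit) (j : Fin (q ^ 3 + ℓ)), j.1 < q ^ 3 →
      GB a (allBits a) C j.1 (v j).1 = true →
      ∃ l ∈ C, (if hk : l.1 / a < q ^ 3 then
        bitAt ((allBits a).getD (v ⟨l.1 / a, by omega⟩).1 []) (l.1 % a) else false) = l.2 := by
    intro C j hjlt hj
    rw [GB_iff] at hj
    obtain ⟨l, hl, h1, h2⟩ := hj
    refine ⟨l, hl, ?_⟩
    have h3 : l.1 / a < q ^ 3 := by rw [h1]; exact hjlt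
    have h4 : (⟨l.1 / a, by omega⟩ : Fin (q ^ 3 + ℓ)) = j := Fin.ext h1
    rw [dif_pos h3, h4]
    exact h2
  refine ⟨i, hi, fun k => if hk : k / a < q ^ 3 then
    bitAt ((allBits a).getD (v ⟨k / a, by omega⟩).1 []) (k % a) else false,
    fun C hC => ?_, fun C hC => ?_⟩
  · have hD : ((true, (allBits ℓ).getD i [], C) : IC) ∈ icl ℓ cls ++ wcl W :=
      List.mem_append_left _ (mem_icl.mpr ⟨i, hi, rfl, rfl, hC⟩)
    generalize hp : (allBits ℓ).getD i [] = p at hD hbit
    have hval : ∃ σ, Valid (posF (q := q) (ℓ := ℓ)) (hbF hΓ)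
        (GG q (2 ^ a) ℓ a (allBits a) (true, p, C)) σ := by
      refine exists_valid1 hq hh hΓ hgad (GG q (2 ^ a) ℓ a (allBits a) (true, p, C))
        (Finset.univ.filter fun j : Fin (q ^ 3) => ∃ l ∈ C, l.1 / a = j.1) ?_ ?_
        (fun t => (bitAt p t).toNat) (fun t => by
          have := Bool.toNat_lt (bitAt p t); omega) ?_
      · intro j u hju
        unfold GG at hju
        rw [Fin.val_castAdd, GX_lt j.2, GB_iff] at hju
        obtain ⟨l, hl, h1, -⟩ := hju
        exact Finset.mem_filter.mpr ⟨Finset.mem_univ _, l, hl, h1⟩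
      · have h1 : (Finset.univ.filter fun j : Fin (q ^ 3) => ∃ l ∈ C, l.1 / a = j.1).card ≤
            C.length := by
          calc _ = ((Finset.univ.filter fun j : Fin (q ^ 3) => ∃ l ∈ C, l.1 / a = j.1).image
                Fin.val).card := (Finset.card_image_of_injective _ Fin.val_injective).symm
            _ ≤ ((C.map fun l => l.1 / a).toFinset).card := by
                apply Finset.card_le_card
                intro j hj
                rw [Finset.mem_image] at hj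
                obtain ⟨j', hj', rfl⟩ := hj
                obtain ⟨-, l, hl, h2⟩ := Finset.mem_filter.mp hj'
                rw [List.mem_toFinset, List.mem_map]
                exact ⟨l, hl, h2⟩
            _ ≤ (C.map fun l => l.1 / a).length := List.toFinset_card_le _
            _ = C.length := List.length_map _
        have := hw i hi C hC
        omega
      · intro t t' htt u
        have h1 : bitAt p t = bitAt p t' := by
          cases hb : bitAt p t <;> cases hb' : bitAt p t' <;> simp [hb, hb'] at htt <;> rfl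
        unfold GG
        rw [Fin.val_natAdd, Fin.val_natAdd, GX_ge, GX_ge, h1]
    obtain ⟨j, hj⟩ := hv _ hD hval
    have hjlt : j.1 < q ^ 3 := by
      by_contra hcon
      have h1 : j.1 = q ^ 3 + (j.1 - q ^ 3) := by omega
      have h2 : j.1 - q ^ 3 < ℓ := by have := j.2; omega
      rw [h1, GX_ge] at hj
      have h3 := hbit ⟨j.1 - q ^ 3, h2⟩
      have h4 : Fin.natAdd (q ^ 3) ⟨j.1 - q ^ 3, h2⟩ = j := Fin.ext h1.symm
      rw [h4] at h3
      simp only at h3
      rw [h3] at hj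
      simp at hj
    rw [GX_lt hjlt] at hj
    exact hlitx C j hjlt hj
  · have hD : ((false, [], C) : IC) ∈ icl ℓ cls ++ wcl W :=
      List.mem_append_right _ (mem_wcl.mpr ⟨rfl, rfl, hC⟩)
    have hge : ∀ (j : Fin (q ^ 3 + ℓ)) (u : ℕ), ¬ j.1 < q ^ 3 →
        GX q a (allBits a) (false, [], C) j.1 u = false := by
      intro j u hcon
      have h1 : j.1 = q ^ 3 + (j.1 - q ^ 3) := by omega
      rw [h1, GX_ge]
      rfl
    obtain ⟨act, κ, hκ, hact, hκG⟩ := hW C hC
    have hval : ∃ σ, Valid (posF (q := q) (ℓ := ℓ)) (hbF hΓ)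
        (GG q (2 ^ a) ℓ a (allBits a) (false, [], C)) σ := by
      refine exists_valid2 hΓ (GG q (2 ^ a) ℓ a (allBits a) (false, [], C)) act κ hκ ?_ ?_
      · intro j u hju
        unfold GG at hju
        by_cases hjlt : j.1 < q ^ 3
        · rw [GX_lt hjlt] at hju
          exact ⟨hjlt, hact j.1 u hjlt hju⟩
        · rw [hge j u hjlt] at hju
          cases hju
      · intro j j' h1 h2 h3 h4 h5 u
        unfold GG
        rw [GX_lt h1, GX_lt h2]
        exact hκG j.1 j'.1 h1 h2 h3 h4 h5 u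
    obtain ⟨j, hj⟩ := hv _ hD hval
    have hjlt : j.1 < q ^ 3 := by
      by_contra hcon
      rw [hge j _ hcon] at hj
      cases hj
    rw [GX_lt hjlt] at hj
    exact hlitx C j hjlt hj

/-- A good gadget, as a list. -/
theorem exists_gad_list {q h c : ℕ} (hc : 0 < c) (hm : 432 * q * h ≤ c ^ 2) :
    ∃ (Γ : List ℕ) (hΓ : ∀ k, Γ.getD k 0 < c), Γ ∈ wordsN c (4 * q) ∧
      ∀ R : Finset (Fin q), R.card ≤ h → 2 * R.card ≤ (R.biUnion fun l =>
        Finset.univ.image fun i : Fin 4 => (⟨Γ.getD (l * 4 + i) 0, hΓ _⟩ : Fin c)).card := by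
  obtain ⟨Γ, hΓ⟩ := exists_gadget (q := q) (h := h) hc hm
  have hlt : ∀ k : Fin (4 * q), k.1 / 4 < q := fun k => by
    rw [Nat.div_lt_iff_lt_mul (by norm_num)]
    have := k.2
    omega
  set L : List ℕ := List.ofFn fun k : Fin (4 * q) =>
    (Γ ⟨k.1 / 4, hlt k⟩ ⟨k.1 % 4, Nat.mod_lt _ (by norm_num)⟩).1 with hL
  have hmem : ∀ x ∈ L, x < c := by
    intro x hx
    rw [hL, List.mem_ofFn] at hx
    obtain ⟨k, rfl⟩ := hx
    exact Fin.is_lt _
  have hget : ∀ k, L.getD k 0 < c := by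
    intro k
    by_cases hk : k < L.length
    · rw [List.getD_eq_getElem _ _ hk]
      exact hmem _ (List.getElem_mem hk)
    · rw [List.getD_eq_default _ _ (by omega)]
      exact hc
  refine ⟨L, hget, mem_wordsN.mpr ⟨by simp [hL], hmem⟩, fun R hR => ?_⟩
  refine (hΓ R hR).trans (le_of_eq ?_)
  congr 1
  refine Finset.biUnion_congr rfl fun l _ => ?_
  refine Finset.image_congr fun i _ => ?_
  apply Fin.ext
  have h1 : l.1 * 4 + i.1 < 4 * q := by
    have := l.2
    have := i.2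
    omega
  simp only
  rw [List.getD_eq_getElem _ _ (by rw [hL, List.length_ofFn]; exact h1)]
  simp only [hL, List.getElem_ofFn]
  have e1 : (⟨(l.1 * 4 + i.1) / 4, hlt ⟨l.1 * 4 + i.1, h1⟩⟩ : Fin q) = l := Fin.ext (by
    have := i.2
    show (l.1 * 4 + i.1) / 4 = l.1
    omega)
  have e2 : (⟨(l.1 * 4 + i.1) % 4, Nat.mod_lt _ (by norm_num)⟩ : Fin 4) = i := Fin.ext (by
    have := i.2
    show (l.1 * 4 + i.1) % 4 = i.1
    omega)
  rw [e1, e2]

end Pool.Agent.H87.CNF
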