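import Pool.Agent.H87.CNF.Final
import Pool.Agent.H87.CNF.Defs

/-!
# Branching programs as conjunctive normal forms
-/

namespace Pool.Agent.H87.CNF

open Pool.Agent.PPS Pool.Agent.H87.PMCSP

/-- Nodes as triples of numbers. -/
abbrev Nd : Type := ℕ × ℕ × ℕ

/-- one step, on the numbers `0, …, S + 1` -/
def nx (S : ℕ) (p : List Nd) (b : Bool) (u : ℕ) : ℕ :=
  bif decide (u < S) then min (bif b then (p.getD u (0, 0, 0)).2.2
    else (p.getD u (0, 0, 0)).2.1) (S + 1) else u

/-- one step on the input `x` -/
def nxx (S : ℕ) (p : List Nd) (x : ℕ → Bool) (u : ℕ) : ℕ :=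
  nx S p (x (p.getD u (0, 0, 0)).1) u

/-- one step of the walk with the answers `β` -/
def wstep (S : ℕ) (p : List Nd) (β : List Bool) (z : ℕ × ℕ × List Lit) : ℕ × ℕ × List Lit :=
  (z.1 + 1, nx S p (bitAt β z.1) z.2.1,
    bif decide (z.2.1 < S) then ((p.getD z.2.1 (0, 0, 0)).1, !(bitAt β z.1)) :: z.2.2
    else z.2.2)

/-- the walk -/
def walk (S : ℕ) (p : List Nd) (β : List Bool) (u t : ℕ) : ℕ × ℕ × List Lit :=
  (wstep S p β)^[t] (0, u, [])

theorem walk_succ (S : ℕ) (p : List Nd) (β : List Bool) (u t : ℕ) :
    walk S p β u (t + 1) = wstep S p β (walk S p β u t) :=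
  Function.iterate_succ_apply' _ _ _

theorem walk_fst (S : ℕ) (p : List Nd) (β : List Bool) (u t : ℕ) :
    (walk S p β u t).1 = t := by
  induction t with
  | zero => rfl
  | succ t ih => rw [walk_succ]; simp only [wstep]; rw [ih]

theorem nxx_ge {S : ℕ} {p : List Nd} {x : ℕ → Bool} {u : ℕ} (h : ¬ u < S) :
    nxx S p x u = u := by
  unfold nxx nx
  rw [decide_eq_false h, cond_false]

/-- If no literal of the walk is true, then the walk is the computation. -/
theorem walk_run {S : ℕ} {p : List Nd} {β : List Bool} {x : ℕ → Bool} {u t : ℕ}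
    (h : ∀ l ∈ (walk S p β u t).2.2, x l.1 ≠ l.2) :
    (walk S p β u t).2.1 = (nxx S p x)^[t] u := by
  induction t with
  | zero => rfl
  | succ t ih =>
    rw [walk_succ] at h
    have h1 : ∀ l ∈ (walk S p β u t).2.2, x l.1 ≠ l.2 := by
      intro l hl
      apply h
      unfold wstep
      cases decide ((walk S p β u t).2.1 < S) with
      | true => exact List.mem_cons_of_mem _ hl
      | false => exact hl
    have h2 := ih h1
    rw [walk_succ, Function.iterate_succ_apply', ← h2]
    unfold wstep
    simp only
    by_cases hu : (walk S p β u t).2.1 < S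
    · have h3 := h ((p.getD (walk S p β u t).2.1 (0, 0, 0)).1, !(bitAt β (walk S p β u t).1)) (by
        unfold wstep
        simp only
        rw [decide_eq_true hu, cond_true]
        exact List.mem_cons_self ..)
      simp only at h3
      have h4 : x (p.getD (walk S p β u t).2.1 (0, 0, 0)).1 = bitAt β (walk S p β u t).1 := by
        cases hx : x (p.getD (walk S p β u t).2.1 (0, 0, 0)).1 <;>
          cases hb : bitAt β (walk S p β u t).1 <;> rw [hx, hb] at h3 <;> simp_all
      unfold nxx
      rw [h4]
    · rw [nxx_ge hu]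
      unfold nx
      rw [decide_eq_false hu, cond_false]

/-- The walk with the answers of `x`. -/
theorem walk_of_run {S : ℕ} {p : List Nd} {β : List Bool} {x : ℕ → Bool} {u ℓ t : ℕ}
    (hβ : ∀ t < ℓ, bitAt β t = x (p.getD ((nxx S p x)^[t] u) (0, 0, 0)).1) (ht : t ≤ ℓ) :
    (walk S p β u t).2.1 = (nxx S p x)^[t] u ∧
      ∀ l ∈ (walk S p β u t).2.2, x l.1 ≠ l.2 := by
  induction t with
  | zero => exact ⟨rfl, fun l hl => by cases hl⟩
  | succ t ih =>
    obtain ⟨h1, h2⟩ := ih (by omega)
    have h3 : bitAt β (walk S p β u t).1 =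
        x (p.getD (walk S p β u t).2.1 (0, 0, 0)).1 := by
      rw [walk_fst, h1]
      exact hβ t (by omega)
    constructor
    · rw [walk_succ, Function.iterate_succ_apply', ← h1]
      unfold wstep nxx
      simp only
      rw [h3]
    · intro l hl
      rw [walk_succ] at hl
      unfold wstep at hl
      simp only at hl
      cases hd : decide ((walk S p β u t).2.1 < S) with
      | true =>
        rw [hd, cond_true] at hl
        rcases List.mem_cons.mp hl with rfl | hl
        · simp only
          rw [h3]
          cases x (p.getD (walk S p β u t).2.1 (0, 0, 0)).1 <;> simp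
        · exact h2 l hl
      | false =>
        rw [hd, cond_false] at hl
        exact h2 l hl

/-- Bounds for the walk. -/
theorem walk_bound {S : ℕ} {p : List Nd} {β : List Bool} {u t B : ℕ}
    (hB : ∀ e ∈ p, e.1 ≤ B) :
    (walk S p β u t).2.1 ≤ u + (S + 1) ∧ (walk S p β u t).2.2.length ≤ t ∧
      ∀ l ∈ (walk S p β u t).2.2, l.1 ≤ B := by
  have hget : ∀ v, (p.getD v (0, 0, 0)).1 ≤ B := by
    intro v
    by_cases hv : v < p.length
    · rw [List.getD_eq_getElem _ _ hv]
      exact hB _ (List.getElem_mem hv)
    · rw [List.getD_eq_default _ _ (by omega)]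
      exact Nat.zero_le _
  induction t with
  | zero => exact ⟨by simp only [walk, Function.iterate_zero, id]; omega, by simp [walk],
      fun l hl => by cases hl⟩
  | succ t ih =>
    obtain ⟨h1, h2, h3⟩ := ih
    rw [walk_succ]
    unfold wstep nx
    simp only
    cases decide ((walk S p β u t).2.1 < S) with
    | true =>
      simp only [cond_true, List.length_cons]
      refine ⟨(min_le_right _ _).trans (by omega), by omega, ?_⟩
      intro l hl
      rcases List.mem_cons.mp hl with rfl | hl
      · exact hget _
      · exact h3 l hl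
    | false =>
      simp only [cond_false]
      exact ⟨h1, by omega, h3⟩

/-! ### The clauses -/

/-- the literals of `C` with numbers `< n`, without repetition -/
def nub (n : ℕ) (C : List Lit) : List Lit :=
  ((List.range n).flatMap fun v => [(v, false), (v, true)]).filter fun l => decide (l ∈ C)

theorem mem_nub {n : ℕ} {C : List Lit} {l : Lit} : l ∈ nub n C ↔ l.1 < n ∧ l ∈ C := by
  unfold nub
  rw [List.mem_filter, List.mem_flatMap, decide_eq_true_eq]
  obtain ⟨v, b⟩ := l
  constructor
  · rintro ⟨⟨w, hw, h1⟩, h2⟩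
    rw [List.mem_range] at hw
    have : v = w := by
      rcases List.mem_cons.mp h1 with h | h
      · exact congrArg Prod.fst h
      · exact congrArg Prod.fst (List.mem_singleton.mp h)
    subst this
    exact ⟨hw, h2⟩
  · rintro ⟨h1, h2⟩
    exact ⟨⟨v, List.mem_range.mpr h1, by cases b <;> simp⟩, h2⟩

theorem nodup_nub {n : ℕ} {C : List Lit} : (nub n C).Nodup := by
  unfold nub
  refine List.Nodup.filter _ ?_
  rw [List.nodup_flatMap]
  refine ⟨fun v _ => by simp, ?_⟩
  refine (List.nodup_range (n := n)).imp fun {v v'} hne => ?_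
  intro l h1 h2
  have e1 : l.1 = v := by
    rcases List.mem_cons.mp h1 with h | h
    · rw [h]
    · rw [List.mem_singleton.mp h]
  have e2 : l.1 = v' := by
    rcases List.mem_cons.mp h2 with h | h
    · rw [h]
    · rw [List.mem_singleton.mp h]
  exact hne (e1.symm.trans e2)

/-- the word of the number `v` -/
def cw (R : List (List Bool)) (v : ℕ) : List Bool := R.getD v []

/-- `P_i ≠ u` -/
def neq (n r : ℕ) (R : List (List Bool)) (i u : ℕ) : List Lit :=
  (List.range r).map fun k => (n + i * r + k, !(bitAt (cw R u) k))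

/-- `P_i = u`, unit clauses -/
def eqc (n r : ℕ) (R : List (List Bool)) (i u : ℕ) : List (List Lit) :=
  (List.range r).map fun k => [(n + i * r + k, bitAt (cw R u) k)]

/-- one clause of a segment; `w` is the result of the walk -/
def segD (n' n r : ℕ) (R : List (List Bool)) (i u : ℕ) (w : ℕ × ℕ × List Lit) (k : ℕ) :
    List Lit :=
  nub n' ((n + (i + 1) * r + k, bitAt (cw R w.2.1) k) :: (neq n r R i u ++ w.2.2))

/-- the clauses for the node `u` and the answers `β` -/
def segC (n' n r S T ℓ : ℕ) (R : List (List Bool)) (p : List Nd) (i u : ℕ) (β : List Bool) :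
    List (List Lit) :=
  (List.range r).map fun k =>
    segD n' n r R i u (walk S p β u (min ℓ (T - i * ℓ))) k

/-- the clauses for all nodes and answers -/
def segA (n' n r S T ℓ q : ℕ) (R L : List (List Bool)) (p : List Nd) : List (List Lit) :=
  (List.range q).flatMap fun i => (List.range (S + 2)).flatMap fun u =>
    L.flatMap fun β => segC n' n r S T ℓ R p i u β

/-- all clauses; `R` and `L` are the lists of the words of the lengths `r` and `ℓ` -/
def allC (n' n r S T ℓ q : ℕ) (R L : List (List Bool)) (p : List Nd) (F : List (List Lit)) :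
    List (List Lit) :=
  F ++ (eqc n r R 0 0 ++ (eqc n r R q S ++ segA n' n r S T ℓ q R L p))

end Pool.Agent.H87.CNF
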