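import Pool.Agent.H87.CNF.Walk

/-!
# Branching programs as conjunctive normal forms: correctness
-/

namespace Pool.Agent.H87.CNF

open Pool.Agent.PPS Pool.Agent.H87.PMCSP

theorem nxx_le {S : ℕ} {p : List Nd} {x : ℕ → Bool} {u : ℕ} (h : u ≤ S + 1) :
    nxx S p x u ≤ S + 1 := by
  unfold nxx nx
  cases decide (u < S) with
  | true => rw [cond_true]; exact min_le_right _ _
  | false => rw [cond_false]; exact h

theorem run_le {S : ℕ} {p : List Nd} {x : ℕ → Bool} (t : ℕ) :
    (nxx S p x)^[t] 0 ≤ S + 1 := by
  induction t with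
  | zero => exact Nat.zero_le _
  | succ t ih => rw [Function.iterate_succ_apply']; exact nxx_le ih

theorem walk_lt {S n : ℕ} {p : List Nd} {β : List Bool} {u t : ℕ}
    (hB : ∀ v < S, (p.getD v (0, 0, 0)).1 < n) :
    ∀ l ∈ (walk S p β u t).2.2, l.1 < n := by
  induction t with
  | zero => exact fun l hl => by cases hl
  | succ t ih =>
    rw [walk_succ]
    unfold wstep
    simp only
    intro l hl
    by_cases hd : (walk S p β u t).2.1 < S
    · rw [decide_eq_true hd, cond_true] at hl
      rcases List.mem_cons.mp hl with rfl | hl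
      · exact hB _ hd
      · exact ih l hl
    · rw [decide_eq_false hd, cond_false] at hl
      exact ih l hl

/-- the state after `i` segments -/
def st (S : ℕ) (p : List Nd) (x : ℕ → Bool) (ℓ T i : ℕ) : ℕ := (nxx S p x)^[min (i * ℓ) T] 0

theorem st_succ (S : ℕ) (p : List Nd) (x : ℕ → Bool) (ℓ T i : ℕ) :
    st S p x ℓ T (i + 1) = (nxx S p x)^[min ℓ (T - i * ℓ)] (st S p x ℓ T i) := by
  unfold st
  rw [← Function.iterate_add_apply]
  congr 1
  have : (i + 1) * ℓ = i * ℓ + ℓ := by ring
  omega

theorem bits_eq {r P v : ℕ} (hP : P < 2 ^ r) (hv : v < 2 ^ r)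
    (h : ∀ k < r, bitAt (cw (allBits r) P) k = bitAt (cw (allBits r) v) k) : P = v := by
  by_contra hne
  obtain ⟨t, ht, h1⟩ := exists_bitAt_ne (getD_length hP) (getD_length hv)
    (fun h2 => hne (getD_inj hP hv h2))
  exact h1 (h t ht)

theorem allC_sat {n r S T ℓ q : ℕ} {p : List Nd} {F W : List (List Lit)}
    (hr : S + 2 ≤ 2 ^ r) (hq : T ≤ q * ℓ) (hF : ∀ C ∈ F, ∀ l ∈ C, l.1 < n)
    (hW : ∀ C ∈ W, ∀ l ∈ C, l.1 < n) (hp : ∀ v < S, (p.getD v (0, 0, 0)).1 < n) :
    (∃ x, SatL x (allC (n + (q + 1) * r) n r S T ℓ q (allBits r) (allBits ℓ) p F) ∧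
      SatL x W) ↔ ∃ x, (SatL x F ∧ (nxx S p x)^[T] 0 = S) ∧ SatL x W := by
  have hr0 : 0 < r := by
    rcases Nat.eq_zero_or_pos r with h | h
    · subst h; simp at hr
    · exact h
  have hst : ∀ x i, st S p x ℓ T i < S + 2 := fun x i => by
    have := run_le (S := S) (p := p) (x := x) (min (i * ℓ) T)
    unfold st
    omega
  have hqT : ∀ x, st S p x ℓ T q = (nxx S p x)^[T] 0 := fun x => by
    unfold st
    rw [min_eq_right hq]
  constructor
  · rintro ⟨x, hx, hxW⟩
    have hx1 : SatL x F := fun C hC => hx C (by
      unfold allC; exact List.mem_append_left _ hC)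
    refine ⟨x, ⟨hx1, ?_⟩, hxW⟩
    -- the states
    choose P hP hPw using fun i : ℕ => exists_getD (m := r) (fun k : Fin r => x (n + i * r + k.1))
    have hPb : ∀ i k, k < r → bitAt (cw (allBits r) (P i)) k = x (n + i * r + k) := by
      intro i k hk
      unfold cw
      rw [hPw i]
      unfold bitAt
      rw [List.getD_eq_getElem _ _ (by simpa using hk)]
      simp
    have hkey : ∀ i ≤ q, P i = st S p x ℓ T i := by
      intro i
      induction i with
      | zero =>
        intro _
        refine bits_eq (hP 0) (lt_of_lt_of_le (hst x 0) hr) fun k hk => ?_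
        rw [hPb 0 k hk]
        obtain ⟨l, hl, hlx⟩ := hx [(n + 0 * r + k, bitAt (cw (allBits r) 0) k)] (by
          unfold allC eqc
          refine List.mem_append_right _ (List.mem_append_left _ ?_)
          rw [List.mem_map]
          exact ⟨k, List.mem_range.mpr hk, rfl⟩)
        rw [List.mem_singleton] at hl
        rw [hl] at hlx
        simp only at hlx
        rw [hlx]
        unfold st
        simp
      | succ i ih =>
        intro hi
        have ih' := ih (by omega)
        set u := st S p x ℓ T i with hu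
        have hu2 : u < S + 2 := hst x i
        set β : List Bool := List.ofFn fun t : Fin ℓ =>
          x (p.getD ((nxx S p x)^[t.1] u) (0, 0, 0)).1 with hβ
        have hβm : β ∈ allBits ℓ := by rw [mem_allBits, hβ, List.length_ofFn]
        have hβb : ∀ t < ℓ, bitAt β t = x (p.getD ((nxx S p x)^[t] u) (0, 0, 0)).1 := by
          intro t ht
          rw [hβ]
          exact bitAt_ofFn (fun t : Fin ℓ => x (p.getD ((nxx S p x)^[t.1] u) (0, 0, 0)).1)
            ⟨t, ht⟩
        obtain ⟨h1, h2⟩ := walk_of_run (t := min ℓ (T - i * ℓ)) hβb (min_le_left _ _)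
        rw [← st_succ] at h1
        refine bits_eq (hP (i + 1)) (lt_of_lt_of_le (hst x (i + 1)) hr) fun k hk => ?_
        rw [hPb (i + 1) k hk]
        obtain ⟨l, hl, hlx⟩ := hx (segD (n + (q + 1) * r) n r (allBits r) i u
          (walk S p β u (min ℓ (T - i * ℓ))) k) (by
          unfold allC segA segC
          refine List.mem_append_right _ (List.mem_append_right _
            (List.mem_append_right _ ?_))
          simp only [List.mem_flatMap, List.mem_map, List.mem_range]
          exact ⟨i, by omega, u, hu2, β, hβm, k, hk, rfl⟩)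
        unfold segD at hl
        rw [mem_nub] at hl
        obtain ⟨-, hl⟩ := hl
        rcases List.mem_cons.mp hl with rfl | hl
        · simp only at hlx
          rw [hlx, h1]
        · exfalso
          rcases List.mem_append.mp hl with hl | hl
          · unfold neq at hl
            obtain ⟨k', hk', rfl⟩ := List.mem_map.mp hl
            simp only at hlx
            rw [← hPb i k' (List.mem_range.mp hk'), ih'] at hlx
            cases hb : bitAt (cw (allBits r) u) k' <;> rw [hb] at hlx <;> simp at hlx
          · exact h2 l hl hlx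
    rw [← hqT, ← hkey q le_rfl]
    refine bits_eq (hP q) (by omega) fun k hk => ?_
    rw [hPb q k hk]
    obtain ⟨l, hl, hlx⟩ := hx [(n + q * r + k, bitAt (cw (allBits r) S) k)] (by
      unfold allC eqc
      refine List.mem_append_right _ (List.mem_append_right _ (List.mem_append_left _ ?_))
      rw [List.mem_map]
      exact ⟨k, List.mem_range.mpr hk, rfl⟩)
    rw [List.mem_singleton] at hl
    rw [hl] at hlx
    exact hlx
  · rintro ⟨x, ⟨hx, hacc⟩, hxW⟩
    set x' : ℕ → Bool := fun j => if j < n then x j else
      bitAt (cw (allBits r) (st S p x ℓ T ((j - n) / r))) ((j - n) % r) with hx'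
    have hx1 : ∀ j < n, x' j = x j := fun j hj => by rw [hx']; simp only; rw [if_pos hj]
    have hx2 : ∀ i k, k < r → x' (n + i * r + k) =
        bitAt (cw (allBits r) (st S p x ℓ T i)) k := by
      intro i k hk
      rw [hx']
      simp only
      rw [if_neg (by omega)]
      have e0 : n + i * r + k - n = r * i + k := by
        rw [Nat.mul_comm]; omega
      rw [e0, Nat.mul_add_div hr0, Nat.div_eq_of_lt hk, Nat.add_zero, Nat.mul_add_mod,
        Nat.mod_eq_of_lt hk]
    refine ⟨x', fun C hC => ?_, fun C hC => ?_⟩
    swap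
    · obtain ⟨l, hl, hlx⟩ := hxW C hC
      exact ⟨l, hl, by rw [hx1 _ (hW C hC l hl)]; exact hlx⟩
    unfold allC at hC
    rcases List.mem_append.mp hC with hC | hC
    · obtain ⟨l, hl, hlx⟩ := hx C hC
      exact ⟨l, hl, by rw [hx1 _ (hF C hC l hl)]; exact hlx⟩
    rcases List.mem_append.mp hC with hC | hC
    · unfold eqc at hC
      obtain ⟨k, hk, rfl⟩ := List.mem_map.mp hC
      refine ⟨_, List.mem_singleton.mpr rfl, ?_⟩
      simp only
      rw [hx2 0 k (List.mem_range.mp hk)]
      unfold st
      simp
    rcases List.mem_append.mp hC with hC | hC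
    · unfold eqc at hC
      obtain ⟨k, hk, rfl⟩ := List.mem_map.mp hC
      refine ⟨_, List.mem_singleton.mpr rfl, ?_⟩
      simp only
      rw [hx2 q k (List.mem_range.mp hk), hqT, hacc]
    · unfold segA segC at hC
      simp only [List.mem_flatMap, List.mem_map, List.mem_range] at hC
      obtain ⟨i, hi, u, hu, β, -, k, hk, rfl⟩ := hC
      have hbound : ∀ i' ≤ q, ∀ k' < r, n + i' * r + k' < n + (q + 1) * r := by
        intro i' hi' k' hk'
        have h1 : i' * r ≤ q * r := Nat.mul_le_mul_right _ hi'
        have h2 : (q + 1) * r = q * r + r := by ring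
        omega
      unfold segD
      by_cases hui : st S p x ℓ T i = u
      · by_cases hlit : ∀ l ∈ (walk S p β u (min ℓ (T - i * ℓ))).2.2, x l.1 ≠ l.2
        · have h1 := walk_run hlit
          rw [← hui, ← st_succ] at h1
          refine ⟨(n + (i + 1) * r + k, bitAt (cw (allBits r)
            (walk S p β u (min ℓ (T - i * ℓ))).2.1) k), ?_, ?_⟩
          · rw [mem_nub]
            exact ⟨hbound (i + 1) (by omega) k hk, List.mem_cons_self ..⟩
          · simp only
            rw [hx2 (i + 1) k hk, ← hui, h1]
        · push Not at hlit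
          obtain ⟨l, hl, hlx⟩ := hlit
          have h1 := walk_lt hp l hl
          refine ⟨l, ?_, by rw [hx1 _ h1]; exact hlx⟩
          rw [mem_nub]
          refine ⟨by omega, List.mem_cons_of_mem _ (List.mem_append_right _ hl)⟩
      · obtain ⟨k', hk', hne⟩ := exists_bitAt_ne (getD_length (lt_of_lt_of_le (hst x i) hr))
          (getD_length (show u < 2 ^ r by omega)) (fun h2 =>
            hui (getD_inj (lt_of_lt_of_le (hst x i) hr) (by omega) h2))
        refine ⟨(n + i * r + k', !(bitAt (cw (allBits r) u) k')), ?_, ?_⟩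
        · rw [mem_nub]
          refine ⟨hbound i (by omega) k' hk', List.mem_cons_of_mem _
            (List.mem_append_left _ ?_)⟩
          unfold neq
          exact List.mem_map.mpr ⟨k', List.mem_range.mpr hk', rfl⟩
        · simp only
          rw [hx2 i k' hk']
          unfold cw
          cases h3 : bitAt ((allBits r).getD (st S p x ℓ T i) []) k' <;>
            cases h4 : bitAt ((allBits r).getD u []) k' <;> simp_all

theorem allC_lt {n r S T ℓ q : ℕ} {p : List Nd} {F : List (List Lit)}
    (hF : ∀ C ∈ F, ∀ l ∈ C, l.1 < n) {R L : List (List Bool)} :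
    ∀ C ∈ allC (n + (q + 1) * r) n r S T ℓ q R L p F, ∀ l ∈ C, l.1 < n + (q + 1) * r := by
  have hbound : ∀ i' ≤ q, ∀ k' < r, n + i' * r + k' < n + (q + 1) * r := by
    intro i' hi' k' hk'
    have h1 : i' * r ≤ q * r := Nat.mul_le_mul_right _ hi'
    have h2 : (q + 1) * r = q * r + r := by ring
    omega
  intro C hC l hl
  unfold allC at hC
  rcases List.mem_append.mp hC with hC | hC
  · have := hF C hC l hl
    omega
  rcases List.mem_append.mp hC with hC | hC
  · unfold eqc at hC
    obtain ⟨k, hk, rfl⟩ := List.mem_map.mp hC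
    rw [List.mem_singleton.mp hl]
    exact hbound 0 (Nat.zero_le _) k (List.mem_range.mp hk)
  rcases List.mem_append.mp hC with hC | hC
  · unfold eqc at hC
    obtain ⟨k, hk, rfl⟩ := List.mem_map.mp hC
    rw [List.mem_singleton.mp hl]
    exact hbound q le_rfl k (List.mem_range.mp hk)
  · unfold segA segC segD at hC
    simp only [List.mem_flatMap, List.mem_map] at hC
    obtain ⟨i, hi, u, hu, β, -, k, hk, rfl⟩ := hC
    exact (mem_nub.mp hl).1

theorem allC_nodup {n' n r S T ℓ q : ℕ} {p : List Nd} {F : List (List Lit)}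
    (hF : ∀ C ∈ F, C.Nodup) {R L : List (List Bool)} :
    ∀ C ∈ allC n' n r S T ℓ q R L p F, C.Nodup := by
  intro C hC
  unfold allC at hC
  rcases List.mem_append.mp hC with hC | hC
  · exact hF C hC
  rcases List.mem_append.mp hC with hC | hC
  · unfold eqc at hC
    obtain ⟨k, hk, rfl⟩ := List.mem_map.mp hC
    exact List.nodup_singleton _
  rcases List.mem_append.mp hC with hC | hC
  · unfold eqc at hC
    obtain ⟨k, hk, rfl⟩ := List.mem_map.mp hC
    exact List.nodup_singleton _
  · unfold segA segC segD at hC
    simp only [List.mem_flatMap, List.mem_map] at hC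
    obtain ⟨i, hi, u, hu, β, -, k, hk, rfl⟩ := hC
    exact nodup_nub

theorem length_allC {n' n r S T ℓ q : ℕ} {p : List Nd} {F : List (List Lit)}
    {R : List (List Bool)} :
    (allC n' n r S T ℓ q R (allBits ℓ) p F).length ≤
      F.length + (r + (r + q * ((S + 2) * (2 ^ ℓ * r)))) := by
  unfold allC eqc
  simp only [List.length_append, List.length_map, List.length_range]
  have h1 : (segA n' n r S T ℓ q R (allBits ℓ) p).length ≤ q * ((S + 2) * (2 ^ ℓ * r)) := by
    unfold segA
    refine (length_flatMap_le' (B := (S + 2) * (2 ^ ℓ * r)) fun i _ => ?_).trans (by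
      rw [List.length_range])
    refine (length_flatMap_le' (B := 2 ^ ℓ * r) fun u _ => ?_).trans (by
      rw [List.length_range])
    refine (length_flatMap_le' (B := r) fun β _ => ?_).trans (by
      rw [length_allBits])
    unfold segC
    rw [List.length_map, List.length_range]
  omega

end Pool.Agent.H87.CNF
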